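import Pool.Agent.Lib.RBR.Blue

/-! Project rbr: the inequality of Hölder with room. -/

open scoped ENNReal
open MeasureTheory

namespace Pool.Agent.Lib.RBR

theorem rHOL : St_HOL := by
  intro Y _ μ _ f t hf ht h
  refine ⟨ne_top_of_le_ne_top ?_ (lintegral_mono (g := fun x => 1 + f x ^ t) fun x => ?_),
    fun g s σ _ hs hg hσ hl => ⟨s * t / (σ * t + s), ?_, ne_top_of_le_ne_top ?_
      (lintegral_mono (g := fun x => f x ^ t + g x ^ s) fun x => ?_)⟩⟩
  · rw [lintegral_add_left measurable_const, lintegral_one]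
    exact ENNReal.add_ne_top.2 ⟨measure_ne_top _ _, h⟩
  · rcases le_total (f x) 1 with a | a
    · exact a.trans le_self_add
    · exact ((ENNReal.rpow_one _).symm.trans_le (ENNReal.rpow_le_rpow_of_exponent_le a ht.le)).trans
        le_add_self
  · exact (lt_div_iff₀ (by positivity)).2 (by linarith)
  · rw [lintegral_add_left' (hf.pow_const t)]
    exact ENNReal.add_ne_top.2 ⟨h, hg⟩
  · have d : 0 < σ * t + s := by positivity
    have a : 0 ≤ s / (σ * t + s) := by positivity
    have b : 0 ≤ σ * t / (σ * t + s) := by positivity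
    calc (f x * g x ^ σ) ^ (s * t / (σ * t + s))
        = (f x ^ t) ^ (s / (σ * t + s)) * (g x ^ s) ^ (σ * t / (σ * t + s)) := by
          rw [ENNReal.mul_rpow_of_nonneg _ _ (by positivity), ← ENNReal.rpow_mul,
            ← ENNReal.rpow_mul, ← ENNReal.rpow_mul]
          exact congrArg₂ (f x ^ · * g x ^ ·) (by ring) (by ring)
      _ ≤ (f x ^ t + g x ^ s) ^ (s / (σ * t + s)) * (f x ^ t + g x ^ s) ^ (σ * t / (σ * t + s)) :=
          mul_le_mul' (ENNReal.rpow_le_rpow le_self_add a) (ENNReal.rpow_le_rpow le_add_self b)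
      _ = f x ^ t + g x ^ s := by
          rw [← ENNReal.rpow_add_of_nonneg _ _ a b, ← add_div, add_comm s, div_self d.ne',
            ENNReal.rpow_one]

end Pool.Agent.Lib.RBR
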