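import Pool.Agent.Lib.RBR.Blue
import Pool.Agent.Lib.KJ.B_KIT
import Pool.Agent.Lib.KH.B_MET

/-! Project rbr, row KIT: tame functions. -/

open scoped Classical Topology ContDiff ComplexOrder Matrix ENNReal
open Set MeasureTheory Complex Metric Filter

noncomputable section

namespace Pool.Agent.Lib.RBR

open Pool.Agent.Lib.SV (E nsq)
open Pool.Agent.Lib.HS32
open Pool.Agent.Lib.KH (OnK SmK HoK Pol Cmp)
open Pool.Agent.Lib.RB9 (Pz ev Fi)

namespace KIT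

variable {n : ℕ} {M : Mf n} {p T : M.X → ℝ} {f g : M.X → ℂ}

theorem ns_add (a b : ℂ) : normSq (a + b) ≤ 2 * normSq a + 2 * normSq b := by
  simp only [normSq_apply, add_re, add_im]
  nlinarith [sq_nonneg (a.re - b.re), sq_nonneg (a.im - b.im)]

theorem pw_le {t : ℝ} (h0 : 0 < t) (h1 : t ≤ 1) {a b : ℕ} (h : a ≤ b) (c : ℂ) :
    normSq c * t ^ b ≤ normSq c * t ^ a :=
  mul_le_mul_of_nonneg_left (pow_le_pow_of_le_one h0.le h1 h) (normSq_nonneg c)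

theorem tm_const (hO : IsOpen {x | 0 < p x}) (c : ℂ) : Tm p fun _ => c :=
  ⟨(KJ.bKIT n M _ hO).1 c, 0, normSq c, fun x _ => by simp⟩

theorem tm_add (hO : IsOpen {x | 0 < p x}) (p1 : ∀ x, p x ≤ 1) (hf : Tm p f) (hg : Tm p g) :
    Tm p fun x => f x + g x := by
  obtain ⟨h1, s, C, h2⟩ := hf
  obtain ⟨h3, s', C', h4⟩ := hg
  refine ⟨((KJ.bKIT n M _ hO).2.1 f g h1 h3).1, s + s', 2 * C + 2 * C', fun x hx => ?_⟩
  have a := (pw_le hx (p1 x) (Nat.le_add_right s s') (f x)).trans (h2 x hx)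
  have b := (pw_le hx (p1 x) (Nat.le_add_left s' s) (g x)).trans (h4 x hx)
  have c := mul_le_mul_of_nonneg_right (ns_add (f x) (g x)) (pow_pos hx (s + s')).le
  nlinarith

theorem tm_mul (hO : IsOpen {x | 0 < p x}) (hf : Tm p f) (hg : Tm p g) :
    Tm p fun x => f x * g x := by
  obtain ⟨h1, s, C, h2⟩ := hf
  obtain ⟨h3, s', C', h4⟩ := hg
  refine ⟨((KJ.bKIT n M _ hO).2.1 f g h1 h3).2.2.1, s + s', C * C', fun x hx => ?_⟩
  have a := mul_nonneg (normSq_nonneg (f x)) (pow_pos hx s).le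
  have b := mul_nonneg (normSq_nonneg (g x)) (pow_pos hx s').le
  refine le_of_eq_of_le ?_ (mul_le_mul (h2 x hx) (h4 x hx) b (a.trans (h2 x hx)))
  rw [normSq_mul, pow_add]
  ring

theorem tm_prod (hO : IsOpen {x | 0 < p x}) {ι : Type} (s : Finset ι) {f : ι → M.X → ℂ}
    (hf : ∀ i, Tm p (f i)) : Tm p fun x => ∏ i ∈ s, f i x := by
  induction s using Finset.induction_on with
  | empty => simpa only [Finset.prod_empty] using tm_const hO 1
  | insert i s hi ih => simpa only [Finset.prod_insert hi] using tm_mul hO (hf i) ih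

theorem tm_eval (hO : IsOpen {x | 0 < p x}) (p1 : ∀ x, p x ≤ 1) {ι : Type} {f : ι → M.X → ℂ}
    (hf : ∀ i, Tm p (f i)) (R : MvPolynomial ι ℂ) :
    Tm p fun x => MvPolynomial.eval (f · x) R := by
  induction R using MvPolynomial.induction_on with
  | C a => simpa only [MvPolynomial.eval_C] using tm_const hO a
  | add P Q hP hQ => simpa only [map_add] using tm_add hO p1 hP hQ
  | mul_X P i hP => simpa only [map_mul, MvPolynomial.eval_X] using tm_mul hO hP (hf i)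

theorem nsq_bd (p1 : ∀ x, p x ≤ 1) {ι : Type} [Fintype ι] {f : ι → M.X → ℂ}
    (hf : ∀ i, Tm p (f i)) :
    ∃ (s : ℕ) (c : ℝ), ∀ x, 0 < p x → (1 + nsq (f · x)) * p x ^ s ≤ c := by
  choose s C h using fun i => (hf i).2
  refine ⟨∑ i, s i, 1 + ∑ i, C i, fun x hx => ?_⟩
  rw [add_mul, one_mul, nsq, Finset.sum_mul]
  refine add_le_add (pow_le_one₀ hx.le (p1 x)) (Finset.sum_le_sum fun i _ => ?_)
  exact (pw_le hx (p1 x) (Finset.single_le_sum (f := s) (fun _ _ => Nat.zero_le _)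
    (Finset.mem_univ i)) _).trans (h i x hx)

theorem bq_tm {s : ℕ} : Bq p T 0 s f ↔ HoK M {x | 0 < p x} f ∧
    ∃ C, ∀ x, 0 < p x → normSq (f x) * p x ^ s ≤ C := by
  simp only [Bq, pow_zero, one_mul]

theorem gp_ne {s : ℕ} {x : M.X} : gp p g s x ≠ 0 ↔ 0 < p x ∧ g x ≠ 0 := by
  by_cases h : 0 < p x
  · simp [gp, h, h.ne']
  · simp [gp, h]

theorem gp_le (p1 : ∀ x, p x ≤ 1) (s : ℕ) (x : M.X) : gp p g s x ≤ normSq (g x) := by
  unfold gp
  split_ifs with h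
  · exact mul_le_of_le_one_right (normSq_nonneg _) (pow_le_one₀ h.le (p1 x))
  · exact normSq_nonneg _

/-- The space of the functions of cost `s`. -/
def sp (hO : IsOpen {x | 0 < p x}) (T : M.X → ℝ) (s : ℕ) : Submodule ℂ (M.X → ℂ) where
  carrier := {F | Bq p T 0 s F ∧ ∀ x, ¬0 < p x → F x = 0}
  zero_mem' := ⟨bq_tm.2 ⟨(KJ.bKIT n M _ hO).1 0, 0, fun x _ => by simp⟩, fun _ _ => rfl⟩
  add_mem' := by
    rintro F G ⟨hF, hF'⟩ ⟨hG, hG'⟩
    obtain ⟨h1, C, h2⟩ := bq_tm.1 hF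
    obtain ⟨h3, C', h4⟩ := bq_tm.1 hG
    refine ⟨bq_tm.2 ⟨((KJ.bKIT n M _ hO).2.1 F G h1 h3).1, 2 * C + 2 * C', fun x hx => ?_⟩,
      fun x hx => by rw [Pi.add_apply, hF' x hx, hG' x hx, add_zero]⟩
    have c := mul_le_mul_of_nonneg_right (ns_add (F x) (G x)) (pow_pos hx s).le
    have a := h2 x hx
    have b := h4 x hx
    rw [Pi.add_apply]
    nlinarith
  smul_mem' := by
    rintro c F ⟨hF, hF'⟩
    obtain ⟨h1, C, h2⟩ := bq_tm.1 hF
    refine ⟨bq_tm.2 ⟨((KJ.bKIT n M _ hO).2.1 _ F ((KJ.bKIT n M _ hO).1 c) h1).2.2.1,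
      normSq c * C, fun x hx => ?_⟩, fun x hx => by rw [Pi.smul_apply, hF' x hx, smul_zero]⟩
    rw [Pi.smul_apply, smul_eq_mul, normSq_mul, mul_assoc]
    exact mul_le_mul_of_nonneg_left (h2 x hx) (normSq_nonneg c)

end KIT

open KIT in
theorem rKIT (hNEG : St_NEG) (hPML : St_PML) : St_KIT := by
  intro n k M _ H p σ z θ T m D C fr
  have pc := fr.pol.sm.continuous
  have hO : IsOpen {x | 0 < p x} := isOpen_lt continuous_const pc
  have hM := fr.kae.toMet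
  have pn : ∃ x, p x ≠ 0 := fr.ne.imp fun x hx => hx.ne'
  have pp : ∀ x, p x ≠ 0 ↔ 0 < p x := fun x => ⟨fun h => (fr.pol.nn x).lt_of_ne' h, fun h => h.ne'⟩
  have hp := hNEG n M H p hM fr.pol pn
  have hσ := hNEG n M H σ hM fr.ps fr.sn
  have m0 : M.mu H ≠ 0 := fun h => by simpa [h] using (mMU n M H hM).2.2.2.1
  have : (ae (M.mu H)).NeBot := ae_neBot.2 m0
  obtain ⟨a, c, low⟩ := fr.low
  have T0 : ∀ x, 0 < p x → 0 < T x := fun x hx => (fr.al.t0 x).lt_of_ne' fun h => by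
    have := (pow_pos hx a).trans_le (low x hx)
    rw [h, mul_zero] at this
    exact this.false
  have key : ∀ g, Tm p g → Nz p g → (∀ᵐ x ∂M.mu H, 0 < p x ∧ g x ≠ 0) ∧ Cmp M H (Oz p σ g) ∧
      ∃ t > (0 : ℝ), ∫⁻ x, (ENNReal.ofReal (normSq (g x)))⁻¹ ^ t ∂M.mu H ≠ ⊤ := fun g hg hz => by
    obtain ⟨s, hs⟩ := fr.nz g hg
    have h0 : ∃ x, gp p g s x ≠ 0 := hz.imp fun x hx => gp_ne.2 hx
    obtain ⟨h1, t, ht, h2⟩ := hNEG n M H _ hM hs h0
    have h3 := KH.bMET n M H _ fr.kae (hPML n M H _ _ hM fr.ps hs fr.sn h0)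
    have e : {x | σ x * gp p g s x ≠ 0} = Oz p σ g := by
      ext x
      rw [mem_ofPred, mul_ne_zero_iff, gp_ne]
      exact ⟨fun h => ⟨h.2.1, h.1, h.2.2⟩, fun h => ⟨h.2.1, h.1, h.2.2⟩⟩
    refine ⟨h1.mono fun x hx => gp_ne.1 hx, e ▸ h3, t, ht, ne_top_of_le_ne_top h2 ?_⟩
    exact lintegral_mono fun x => ENNReal.rpow_le_rpow
      (ENNReal.inv_le_inv.2 (ENNReal.ofReal_le_ofReal (gp_le fr.p1 s x))) ht.le
  refine ⟨hO, pc, T0, ?_, m0, ?_, hp.2, tm_const hO, fun f g hf hg =>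
    ⟨tm_add hO fr.p1 hf hg, tm_mul hO hf hg, fun h1 h2 => ?_⟩, fun ι _ f hf =>
    ⟨tm_prod hO _ hf, fun h1 => ?_, tm_eval hO fr.p1 hf,
      ((KJ.bKIT n M _ hO).2.2.2.2.1 ι f fun i => (hf i).1).2.2.1, nsq_bd fr.p1 hf⟩,
    fun j s => ⟨a * j + s, fun f hf => ?_⟩, fun j s s' f h hf => ?_, fun s => ?_, fun g hg => ?_,
    fun g hg hz => ⟨(key g hg hz).1.mono fun x hx => hx.2, (key g hg hz).2⟩⟩
  · filter_upwards [hp.1, hσ.1] with x h1 h2
    exact ⟨(pp x).1 h1, h2⟩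
  · have h3 := KH.bMET n M H _ fr.kae (hPML n M H _ _ hM fr.pol fr.ps pn fr.sn)
    have e : {x | p x * σ x ≠ 0} = O0 p σ := by
      ext x
      rw [mem_ofPred, mul_ne_zero_iff, pp]
      rfl
    exact e ▸ h3
  · obtain ⟨x, h3, h4⟩ := ((key f hf h1).1.and (key g hg h2).1).exists
    exact ⟨x, h3.1, mul_ne_zero h3.2 h4.2⟩
  · obtain ⟨x, h3, h4⟩ := (hp.1.and (ae_all_iff.2 fun i => (key _ (hf i) (h1 i)).1)).exists
    exact ⟨x, (pp x).1 h3, Finset.prod_ne_zero_iff.2 fun i _ => (h4 i).2⟩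
  · obtain ⟨h1, A, h2⟩ := hf
    have h3 : ∀ x, 0 < p x → normSq (f x) * p x ^ (a * j + s) ≤ c ^ j * A := fun x hx => by
      have c0 : 0 < c := (mul_pos_iff_of_pos_right (T0 x hx)).1 ((pow_pos hx a).trans_le (low x hx))
      have h4 := pow_le_pow_left₀ (pow_pos hx a).le (low x hx) j
      have h5 := mul_le_mul_of_nonneg_left h4
        (mul_nonneg (normSq_nonneg (f x)) (pow_pos hx s).le)
      have h6 := mul_le_mul_of_nonneg_left (h2 x hx) (pow_pos c0 j).le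
      rw [pow_add, pow_mul]
      rw [mul_pow] at h5
      nlinarith
    exact ⟨bq_tm.2 ⟨h1, _, h3⟩, h1, _, _, h3⟩
  · obtain ⟨h1, A, h2⟩ := hf
    refine ⟨h1, A, fun x hx => le_trans ?_ (h2 x hx)⟩
    exact mul_le_mul_of_nonneg_left (mul_le_mul_of_nonneg_left
      (pow_le_pow_of_le_one hx.le (fr.p1 x) h) (pow_pos (T0 x hx) j).le) (normSq_nonneg _)
  · obtain ⟨V, hV, h⟩ := fr.fd s
    exact ⟨sp hO T s, Submodule.finiteDimensional_of_le (S₂ := V) h, fun F => Iff.rfl⟩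
  · obtain ⟨Q, R, h0, h⟩ := fr.fn g hg
    filter_upwards [(key _ (tm_eval hO fr.p1 fr.tz Q) (fr.ind Q h0)).1] with x hx x' hx'
    have h1 := h x' hx'.1
    rw [hx'.2.1, hx'.2.2, ← h x hx.1] at h1
    exact mul_left_cancel₀ hx.2 h1

end Pool.Agent.Lib.RBR
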