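import Pool.Agent.Lib.RBR.Blue
import Pool.Agent.Lib.KT.B_NEG

/-! Project rbr, row NEG: a negative power is integrable. -/

open MeasureTheory

namespace Pool.Agent.Lib.RBR

theorem rNEG : St_NEG := by
  intro n M _ H q hH hq ⟨x₀, h₀⟩
  obtain ⟨ε, ε0, hε⟩ := KT.NEG.pol hH hq h₀
  refine ⟨(ae_lt_top (hq.sm.continuous.measurable.ennreal_ofReal.pow_const _) hε).mono
    fun y hy h => ?_, ε, ε0, ?_⟩
  · rw [h, ENNReal.ofReal_zero, ENNReal.zero_rpow_of_neg (neg_neg_of_pos ε0)] at hy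
    exact lt_irrefl _ hy
  · simpa only [ENNReal.inv_rpow, ← ENNReal.rpow_neg] using hε

end Pool.Agent.Lib.RBR
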