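import Pool.Agent.Lib.RBR.Blue

/-! Project rbr: the product of two denominators. -/

open scoped Classical Topology ContDiff ComplexOrder Matrix
open Set Complex Filter

noncomputable section

namespace Pool.Agent.Lib.RBR

open Pool.Agent.Lib.SV (E)
open Pool.Agent.Lib.HS32
open Pool.Agent.Lib.KH (Pol)

namespace PML

variable {n : ℕ} {V : E n → ℝ} {z : E n}

theorem lg (hV : ContDiffAt ℝ ∞ V z) (d : ℝ) (h0 : 0 < V z + d) :
    hess (fun w => (Real.log (V w + d) : ℂ)) z = (V z + d)⁻¹ • hess (fun w => (V w : ℂ)) z -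
      ((V z + d) ^ 2)⁻¹ • dd (fun w => (V w : ℂ)) (fun w => (V w : ℂ)) z := by
  ext i j
  have h1 := cd_ofReal hV
  have h3 : ContDiffAt ℝ ∞ (fun w => V w + d) z := hV.add contDiffAt_const
  have h4 : DifferentiableAt ℝ (fun w => (V w : ℂ) + d) z := (cd_diff h1).add_const _
  have h2 : (V z : ℂ) + d ≠ 0 := by exact_mod_cast h0.ne'
  have e : dz j (fun w => (Real.log (V w + d) : ℝ)) =ᶠ[𝓝 z]
      fun w => ((V w : ℂ) + d)⁻¹ * dz j (fun w => (V w : ℂ)) w := by
    filter_upwards [cd_ev_diff hV, h3.continuousAt.eventually (lt_mem_nhds h0)] with w a b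
    have h5 : HasDerivAt (fun t => Real.log (t + d)) (V w + d)⁻¹ (V w) :=
      (Real.hasDerivAt_log b.ne').comp_add_const (V w) d
    rw [dz_comp_real h5 a, ofReal_inv, ofReal_add]
  rw [hess_apply, dzb_congr e, dzb_mul (f := fun w => ((V w : ℂ) + d)⁻¹) (h4.inv h2)
    (cd_diff (cd_dz h1 j)), dzb_inv h4 h2, dzb_add (cd_diff h1) (differentiableAt_const _),
    dzb_const]
  simp only [Matrix.sub_apply, Matrix.smul_apply, hess_apply, dd_apply, real_smul, ofReal_inv,
    ofReal_pow, ofReal_add]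
  ring

theorem ddp (hV : ContDiffAt ℝ ∞ V z) :
    (dd (fun w => (V w : ℂ)) (fun w => (V w : ℂ)) z).PosSemidef := by
  have : dd (fun w => (V w : ℂ)) (fun w => (V w : ℂ)) z =
      Matrix.vecMulVec (star fun j => dz j (fun w => (V w : ℂ)) z)
        fun j => dz j (fun w => (V w : ℂ)) z := by
    ext i j
    simp only [dd_apply, Matrix.vecMulVec_apply, Pi.star_apply,
      star_dz_ofReal (cd_diff (cd_ofReal hV))]
  rw [this]
  exact Matrix.posSemidef_vecMulVec_star_self _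

theorem lim {A : ℕ → Mat n} {B : Mat n} (h : Tendsto A atTop (𝓝 B))
    (hA : ∀ k, (A k).PosSemidef) : B.PosSemidef := by
  rw [Matrix.posSemidef_iff_dotProduct_mulVec]
  refine ⟨?_, fun x => ?_⟩
  · have h1 : Tendsto (fun k => (A k)ᴴ) atTop (𝓝 Bᴴ) :=
      (continuous_id.matrix_conjTranspose.tendsto B).comp h
    have h2 : (fun k => (A k)ᴴ) = A := funext fun k => (hA k).1
    rw [h2] at h1
    exact tendsto_nhds_unique h1 h
  · have h1 : Continuous fun C : Mat n => star x ⬝ᵥ C *ᵥ x :=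
      continuous_const.dotProduct (continuous_id.matrix_mulVec continuous_const)
    exact ge_of_tendsto' ((h1.tendsto B).comp h) fun k => (hA k).dotProduct_mulVec_nonneg x

theorem reg (hV : ContDiffAt ℝ ∞ V z) (h0 : 0 < V z) {H : Mat n} (hH : H.PosSemidef) {C d : ℝ}
    (hC : 0 ≤ C) (hd : 0 < d) (h : (C • H + hess (fun w => (Real.log (V w) : ℂ)) z).PosSemidef) :
    (C • H + hess (fun w => (Real.log (V w + d) : ℂ)) z).PosSemidef := by
  have h1 := lg hV 0 (by rwa [add_zero])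
  simp only [add_zero] at h1
  have h2 : 0 < V z + d := add_pos h0 hd
  rw [h1] at h
  have h3 := ((h.smul (div_pos h0 h2).le).add (hH.smul (a := d / (V z + d) * C)
    (by positivity))).add ((ddp hV).smul (a := d / (V z * (V z + d) ^ 2)) (by positivity))
  rw [lg hV d h2]
  refine (congrArg Matrix.PosSemidef ?_).mp h3
  match_scalars <;> field_simp <;> ring

theorem ent {u s : E n → ℝ} (hu : ContDiffAt ℝ ∞ u z) (hs : ContDiffAt ℝ ∞ s z) (a e : ℝ)
    (h0 : 0 < u z + a * s z + e) (i j : Fin n) :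
    hess (fun w => (Real.log (u w + a * s w + e) : ℂ)) z i j =
      ((u z + a * s z + e)⁻¹ : ℝ) * (hess (fun w => (u w : ℂ)) z i j +
        a * hess (fun w => (s w : ℂ)) z i j) - (((u z + a * s z + e) ^ 2)⁻¹ : ℝ) *
      ((dzb i (fun w => (u w : ℂ)) z + a * dzb i (fun w => (s w : ℂ)) z) *
        (dz j (fun w => (u w : ℂ)) z + a * dz j (fun w => (s w : ℂ)) z)) := by
  have h1 := cd_ofReal hu
  have h2 := cd_ofReal hs
  have h3 : ContDiffAt ℝ ∞ (fun w => (a : ℂ) * s w) z := contDiffAt_const.mul h2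
  rw [lg (V := fun w => u w + a * s w) (hu.add (contDiffAt_const.mul hs)) e h0]
  simp only [ofReal_add, ofReal_mul]
  rw [hess_add h1 h3, hess_const_mul _ h2]
  simp only [Matrix.sub_apply, Matrix.smul_apply, Matrix.add_apply, dd_apply, real_smul,
    smul_eq_mul, dz_add (cd_diff h1) (cd_diff h3), dzb_add (cd_diff h1) (cd_diff h3),
    dz_const_mul _ (cd_diff h2), dzb_const_mul _ (cd_diff h2)]

theorem key {p q : E n → ℝ} (hp : ContDiffAt ℝ ∞ p z) (hq : ContDiffAt ℝ ∞ q z)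
    (p0 : ∀ w, 0 ≤ p w) (q0 : ∀ w, 0 ≤ q w) {H : Mat n} (hH : H.PosSemidef) {C C' d : ℝ}
    (h1 : ∀ a ∈ Ioc (0 : ℝ) 1, (C • H + hess (fun w => (Real.log (p w + a) : ℂ)) z).PosSemidef)
    (h2 : ∀ a ∈ Ioc (0 : ℝ) 1, (C' • H + hess (fun w => (Real.log (q w + a) : ℂ)) z).PosSemidef)
    (hd : 0 < d) :
    ((|C| + |C'|) • H + hess (fun w => (Real.log (p w * q w + d) : ℂ)) z).PosSemidef := by
  have hu := hp.mul hq
  have hs := hp.add hq
  have pos : ∀ a : ℝ, 0 ≤ a → 0 < p z * q z + a * (p z + q z) + (a ^ 2 + d) := fun a ha => by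
    have := p0 z
    have := q0 z
    positivity
  have st : ∀ a ∈ Ioc (0 : ℝ) 1, ((|C| + |C'|) • H + hess (fun w =>
      (Real.log (p w * q w + a * (p w + q w) + (a ^ 2 + d)) : ℂ)) z).PosSemidef := by
    intro a ha
    have p1 : ∀ w, 0 < p w + a := fun w => add_pos_of_nonneg_of_pos (p0 w) ha.1
    have q1 : ∀ w, 0 < q w + a := fun w => add_pos_of_nonneg_of_pos (q0 w) ha.1
    have hp1 : ContDiffAt ℝ ∞ (fun w => p w + a) z := hp.add contDiffAt_const
    have hq1 : ContDiffAt ℝ ∞ (fun w => q w + a) z := hq.add contDiffAt_const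
    have e : ∀ w, p w * q w + a * (p w + q w) + (a ^ 2 + d) = (p w + a) * (q w + a) + d :=
      fun w => by ring
    simp only [e]
    refine reg (hp1.mul hq1) (mul_pos (p1 z) (q1 z)) hH (by positivity) hd ?_
    simp only [fun w => Real.log_mul (p1 w).ne' (q1 w).ne', ofReal_add]
    rw [hess_add (cd_ofReal (hp1.log (p1 z).ne')) (cd_ofReal (hq1.log (q1 z).ne'))]
    have h3 := ((h1 a ha).add (h2 a ha)).add (hH.smul (a := |C| - C + (|C'| - C'))
      (add_nonneg (sub_nonneg.2 (le_abs_self C)) (sub_nonneg.2 (le_abs_self C'))))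
    refine (congrArg Matrix.PosSemidef ?_).mp h3
    module
  refine lim ?_ fun k => st (1 / ((k : ℝ) + 1)) ⟨Nat.one_div_pos_of_nat, by
    rw [div_le_one (by positivity)]
    linarith [Nat.cast_nonneg (α := ℝ) k]⟩
  refine tendsto_const_nhds.add (tendsto_pi_nhds.2 fun i => tendsto_pi_nhds.2 fun j => ?_)
  have e0 := ent hu hs 0 (0 ^ 2 + d) (pos 0 le_rfl) i j
  have e1 : (fun w => (Real.log (p w * q w + 0 * (p w + q w) + (0 ^ 2 + d)) : ℂ)) =
      fun w => (Real.log (p w * q w + d) : ℂ) := by simp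
  rw [e1] at e0
  rw [e0]
  simp only [fun k : ℕ => ent hu hs (1 / ((k : ℝ) + 1)) _ (pos _ Nat.one_div_pos_of_nat.le) i j]
  have c0 : ContinuousAt (fun a : ℝ => p z * q z + a * (p z + q z) + (a ^ 2 + d)) 0 := by fun_prop
  have c1 := continuous_ofReal.continuousAt.comp (c0.inv₀ (pos 0 le_rfl).ne')
  have c2 := continuous_ofReal.continuousAt.comp
    ((c0.pow 2).inv₀ (pow_pos (pos 0 le_rfl) 2).ne')
  have c3 : ∀ A B : ℂ, ContinuousAt (fun a : ℝ => A + a * B) 0 := fun A B => by fun_prop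
  exact ((c1.mul (c3 _ _)).sub (c2.mul ((c3 _ _).mul (c3 _ _)))).tendsto.comp
    tendsto_one_div_add_atTop_nhds_zero_nat

end PML

theorem rPML : St_PML := by
  intro n M _ H p q hH hp hq _ _
  obtain ⟨C, hC⟩ := hp.cur
  obtain ⟨C', hC'⟩ := hq.cur
  refine ⟨fun e he z hz => (hp.sm e he z hz).mul (hq.sm e he z hz),
    fun x => mul_nonneg (hp.nn x) (hq.nn x), |C| + |C'|, fun d hd e he z hz => ?_⟩
  have h := PML.key (p := p ∘ e.symm) (q := q ∘ e.symm) (hp.sm e he z hz) (hq.sm e he z hz)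
    (fun w => hp.nn _) (fun w => hq.nn _) (hH.pos e he z hz).posSemidef
    (fun a ha => (congrArg Matrix.PosSemidef (sub_zero _)).mp (hC a ha e he z hz))
    (fun a ha => (congrArg Matrix.PosSemidef (sub_zero _)).mp (hC' a ha e he z hz)) hd.1
  exact (congrArg Matrix.PosSemidef (sub_zero _)).mpr h

end Pool.Agent.Lib.RBR
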