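import Pool.Agent.Lib.RBR.Defs
import Pool.Agent.Lib.CY.Blue

/-! Project rbr: the reference metric and the model. Blueprint. -/

open scoped Classical Topology ContDiff ComplexOrder Matrix ENNReal
open Set MeasureTheory Complex Metric Filter

set_option linter.unusedVariables false

noncomputable section

namespace Pool.Agent.Lib.RBR

open Pool.Agent.Lib.SV (E nsq)
open Pool.Agent.Lib.HS32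
open Pool.Agent.Lib.FI (dn hr ft Good Pot)
open Pool.Agent.Lib.KH (OnK SmK HoK HqB Pol Jo Cmp lden)
open Pool.Agent.Lib.RB9 (Pz ev Up Fin' Fi Fm Fa Cx Wd den pb)
open Pool.Agent.Lib.KQ (Cel HoV HqS Lo)
open Pool.Agent.Lib.KJ (PsK Iv bt Se)
open Pool.Agent.Lib.NV6.J (qt pv)

section defs

variable {n k : ℕ} {M : Mf n}

/-- The weight `exp w` is the supremum of `T ^ N` on the fibres over `Ω`. -/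
structure Wg (H : M.Fam (Mat n)) (p : M.X → ℝ) (O : Set M.X) (z : M.X → E k) (θ : M.X → ℂ)
    (T : M.X → ℝ) (N : ℕ) (U : ℝ → E k → ℝ) (Ω : Set (E k)) (w : M.X → ℝ) (c : ℝ) : Prop where
  c0 : 0 ≤ c
  lo : ∀ x ∈ O, z x ∈ Ω → T x ^ N ≤ c * Real.exp (w x)
  ub : ∀ K, IsCompact K → K ⊆ Ω → ∀ᶠ e in 𝓝[>] (0 : ℝ), ∀ x ∈ O, z x ∈ K →
    w x + c * U e (z x) ≤ c
  r2 : ∀ (γ : M.X → ℂ) (Q s : ℕ), 0 < Q → Bq p T (N * Q) s γ → ∃ A₁ : ℝ, ∀ x ∈ O, z x ∈ Ω →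
    (∀ x' ∈ Fi p z θ x, γ x' = γ x) → ∀ A : ℝ, (∀ e, 0 < e → A ≤ U e (z x)) →
      normSq (γ x) * Real.exp (w x) ^ Q * Real.exp (s * c * A) ≤ A₁
  r3 : ∀ Z : Set M.X, M.mu H Z = 0 → ∀ᵐ x ∂M.mu H, x ∈ O → z x ∈ Ω → ∀ A : ℝ, 0 ≤ A →
    (∀ x' ∈ Fi p z θ x, x' ∉ Z → T x' ^ N ≤ A) → Real.exp (w x) ≤ c * A

/-- The potentials on the base and the defect `S`. -/
structure Pre (H : M.Fam (Mat n)) (O : Set M.X) (z : M.X → E k) (U v : ℝ → E k → ℝ) (c₁ : ℝ)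
    (Ω : Set (E k)) (S : M.Fam (Mat n)) (c : ℝ) : Prop where
  c0 : 0 ≤ c
  up : Up U c₁
  fin : ∀ᵐ x ∂M.mu H, Fin' U (z x) ∧ Fin' v (z x)
  op : IsOpen Ω
  sub : ∀ y, Fin' U y → y ∈ Ω
  vs : ∀ e, 0 < e → ContDiff ℝ ∞ (v e) ∧ ∀ y, (hr (v e) y).PosSemidef
  vm : ∀ e e' y, 0 < e → e ≤ e' → v e y ≤ v e' y
  vu : ∃ c : ℝ, ∀ y, v 1 y ≤ c * Real.log (2 + nsq y)
  cur : ∀ K, IsCompact K → K ⊆ Ω → ∀ η : ℝ, 0 < η → ∀ᶠ e in 𝓝[>] (0 : ℝ),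
    OnK M (O ∩ z ⁻¹' K) fun d w =>
      (pb z (fun y => c • hr (v e) y + η • (1 : Mat k)) d w - S d w).PosSemidef

variable (M) in
/-- All the data of the model. -/
structure Mo (k r r₁ r₂ : ℕ) where
  H : M.Fam (Mat n)
  p : M.X → ℝ
  σ : M.X → ℝ
  z : M.X → E k
  θ : M.X → ℂ
  T : M.X → ℝ
  m : Pz k
  D : MvPolynomial (Fin k) ℂ
  C : ℝ
  d : ℕ
  κ : M.X → ℝ
  ε : ℕ → ℝ
  φ : ℕ → M.X → ℝ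
  N : ℕ
  U : ℝ → E k → ℝ
  c₁ : ℝ
  c : ℝ
  a : Fin (r₁ + 1) → M.X → ℂ
  b : Fin (r₂ + 1) → M.X → ℂ
  e : Fin r ≃ Fin (r₁ + 1) × Fin (r₂ + 1)
  fr : Frm H p σ z θ T m D C
  ad : Adj H p σ T d κ ε φ
  ro : Ro H p z θ T N U c₁ c a b
  en : En p z θ a b

namespace Mo

variable {r r₁ r₂ : ℕ} (X : Mo M k r r₁ r₂)

/-- The open set. -/
abbrev O : Set M.X := Os X.p X.σ X.a X.b

/-- The measure. -/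
abbrev μ : Measure M.X := mf X.H X.T X.κ X.d X.O

/-- The ample family. -/
abbrev h : Fin r → M.X → ℂ := hh X.e X.a X.b

/-- The family of the reference metric. -/
abbrev W : Fin r → M.X → ℂ := ww X.e X.a

/-- The defect. -/
abbrev B (l : ℝ) (J : ℕ) : M.X → ℝ := Bm X.z X.U X.c₁ l J fun x => X.a 0 x * X.b 0 x

/-- The weights of the sections. -/
abbrev u : ℕ → M.X → ℝ := uu X.T X.d X.N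

end Mo

end defs

/-! ### Tools -/

/-- The inequality of Hölder with room. -/
def St_HOL : Prop := ∀ (Y : Type) [MeasurableSpace Y] (μ : Measure Y) [IsFiniteMeasure μ]
  (f : Y → ℝ≥0∞) (t : ℝ), AEMeasurable f μ → 1 < t → ∫⁻ x, f x ^ t ∂μ ≠ ⊤ → ∫⁻ x, f x ∂μ ≠ ⊤ ∧
  ∀ (g : Y → ℝ≥0∞) (s σ : ℝ), AEMeasurable g μ → 0 < s → ∫⁻ x, g x ^ s ∂μ ≠ ⊤ → 0 ≤ σ →
    σ * t < s * (t - 1) → ∃ t' > (1 : ℝ), ∫⁻ x, (f x * g x ^ σ) ^ t' ∂μ ≠ ⊤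

/-- A negative power is integrable. -/
def St_NEG : Prop := ∀ (n : ℕ) (M : Mf n) [M.Cpt] (H : M.Fam (Mat n)) (q : M.X → ℝ), M.Met H →
  Pol M H q → (∃ x, q x ≠ 0) → (∀ᵐ x ∂M.mu H, q x ≠ 0) ∧
    ∃ t > (0 : ℝ), ∫⁻ x, (ENNReal.ofReal (q x))⁻¹ ^ t ∂M.mu H ≠ ⊤

/-- The product of two denominators. -/
def St_PML : Prop := ∀ (n : ℕ) (M : Mf n) [M.Cpt] (H : M.Fam (Mat n)) (p q : M.X → ℝ), M.Met H →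
  Pol M H p → Pol M H q → (∃ x, p x ≠ 0) → (∃ x, q x ≠ 0) → Pol M H fun x => p x * q x

/-- Measures with a density that is bounded below. -/
def St_MSR : Prop := ∀ (n : ℕ) (M : Mf n) [M.Cpt] (H : M.Fam (Mat n)) (O : Set M.X) (q : M.X → ℝ)
  (ρ : M.X → ℝ≥0∞) (c : ℝ≥0∞) (ν : Measure M.X), M.Met H → IsOpen O → ContinuousOn q O →
  (∀ x ∈ O, 0 < q x) → AEMeasurable ρ ((M.mu H).restrict O) → c ≠ ⊤ →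
  (∀ᵐ x ∂M.mu H, x ∈ O → ENNReal.ofReal (q x) ≤ c * ρ x) →
  ν = ((M.mu H).restrict O).withDensity ρ →
  (∀ P : M.X → Prop, (∀ᵐ x ∂ν, P x) ↔ ∀ᵐ x ∂M.mu H, x ∈ O → P x) ∧
  (∀ x ∈ O, ∃ c' : ℝ≥0∞, c' ≠ ⊤ ∧ ∃ N ∈ 𝓝 x, (M.mu H).restrict N ≤ c' • ν) ∧
  (∀ O', IsOpen O' → O' ⊆ O → Lo M O' ν) ∧
  (∀ f : M.X → ℂ, ContinuousOn f O → (∀ᵐ x ∂ν, f x = 0) → ∀ x ∈ O, f x = 0) ∧
  (∀ f g : M.X → ℝ, ContinuousOn f O → ContinuousOn g O → (∀ᵐ x ∂ν, f x ≤ g x) →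
    ∀ x ∈ O, f x ≤ g x) ∧
  ∀ f : M.X → ℝ≥0∞, AEMeasurable f ((M.mu H).restrict O) →
    ∫⁻ x, f x ∂ν = ∫⁻ x in O, ρ x * f x ∂M.mu H

/-- Functions of the base read on the manifold. -/
def St_CHK : Prop := ∀ (n k : ℕ) (M : Mf n) (O : Set M.X) (z : M.X → E k), IsOpen O → HoV M O z →
  ContinuousOn z O ∧ (OnK M O fun e w => HolN (z ∘ e.symm) w) ∧
  (∀ f : E k → ℝ, ContDiff ℝ ∞ f → SmK M O (fun x => f (z x)) ∧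
    (OnK M O fun e w => M.hs (fun x => f (z x)) e w = pb z (hr f) e w) ∧
    ((∀ y, (hr f y).PosSemidef) → PsK M O fun x => f (z x))) ∧
  ∀ A : E k → Mat k, (∀ e w, (A (z (e.symm w))).PosSemidef → (pb z A e w).PosSemidef) ∧
    ∀ (B : E k → Mat k) (t : ℝ) e w, pb z (fun y => A y + t • B y) e w = pb z A e w + t • pb z B e w

/-- Tame functions. -/
def St_KIT : Prop := ∀ (n k : ℕ) (M : Mf n) [M.Cpt] (H : M.Fam (Mat n)) (p σ : M.X → ℝ)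
  (z : M.X → E k) (θ : M.X → ℂ) (T : M.X → ℝ) (m : Pz k) (D : MvPolynomial (Fin k) ℂ) (C : ℝ),
  Frm H p σ z θ T m D C → IsOpen {x | 0 < p x} ∧ Continuous p ∧ (∀ x, 0 < p x → 0 < T x) ∧
  (∀ᵐ x ∂M.mu H, x ∈ O0 p σ) ∧ M.mu H ≠ 0 ∧ Cmp M H (O0 p σ) ∧
  (∃ t > (0 : ℝ), ∫⁻ x, (ENNReal.ofReal (p x))⁻¹ ^ t ∂M.mu H ≠ ⊤) ∧
  (∀ c : ℂ, Tm p fun _ => c) ∧
  (∀ f g, Tm p f → Tm p g → Tm p (fun x => f x + g x) ∧ Tm p (fun x => f x * g x) ∧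
    (Nz p f → Nz p g → Nz p fun x => f x * g x)) ∧
  (∀ (ι : Type) [Fintype ι] (f : ι → M.X → ℂ), (∀ i, Tm p (f i)) → Tm p (fun x => ∏ i, f i x) ∧
    ((∀ i, Nz p (f i)) → Nz p fun x => ∏ i, f i x) ∧
    (∀ R : MvPolynomial ι ℂ, Tm p fun x => MvPolynomial.eval (f · x) R) ∧
    ContinuousOn (fun x => nsq (f · x)) {x | 0 < p x} ∧
    ∃ (s : ℕ) (c : ℝ), ∀ x, 0 < p x → (1 + nsq (f · x)) * p x ^ s ≤ c) ∧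
  (∀ j s, ∃ s', ∀ f, Bq p T j s f → Bq p T 0 s' f ∧ Tm p f) ∧
  (∀ j s s' f, s ≤ s' → Bq p T j s f → Bq p T j s' f) ∧
  (∀ s, ∃ V : Submodule ℂ (M.X → ℂ), FiniteDimensional ℂ V ∧
    ∀ F, F ∈ V ↔ Bq p T 0 s F ∧ ∀ x, ¬0 < p x → F x = 0) ∧
  (∀ g, Tm p g → ∀ᵐ x ∂M.mu H, ∀ x' ∈ Fi p z θ x, g x' = g x) ∧
  ∀ g, Tm p g → Nz p g → (∀ᵐ x ∂M.mu H, g x ≠ 0) ∧ Cmp M H (Oz p σ g) ∧
    ∃ t > (0 : ℝ), ∫⁻ x, (ENNReal.ofReal (normSq (g x)))⁻¹ ^ t ∂M.mu H ≠ ⊤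

/-- The theorem of Hörmander for the adjoint measures. -/
def St_HQA : Prop := ∀ (n : ℕ) (M : Mf n) [M.Cpt] (H : M.Fam (Mat n)) (p σ T : M.X → ℝ) (d : ℕ)
  (κ : M.X → ℝ) (ε : ℕ → ℝ) (φ : ℕ → M.X → ℝ) (O : Set M.X) (y : ℝ) (ψ : ℕ → M.X → ℝ), M.Kae H →
  Adj H p σ T d κ ε φ → (∀ x, 0 < p x → 0 < T x) → Cmp M H O → O ⊆ O0 p σ → 0 ≤ y →
  (∀ i, PsK M O (ψ i)) → (∀ i, ∀ x ∈ O, ψ (i + 1) x ≤ ψ i x) →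
  HqB M O (((M.mu H).restrict O).withDensity fun x =>
    ENNReal.ofReal (κ x * T x ^ ((1 : ℝ) / d + y)) * lden (fun i x => y * d * φ i x + ψ i x) x)

/-- The limit density of the potentials. -/
def St_LDN : Prop := ∀ (n : ℕ) (M : Mf n) [M.Cpt] (H : M.Fam (Mat n)) (p σ T : M.X → ℝ) (d : ℕ)
  (κ : M.X → ℝ) (ε : ℕ → ℝ) (φ : ℕ → M.X → ℝ) (y : ℝ), M.Met H → Adj H p σ T d κ ε φ →
  IsOpen (O0 p σ) → (∀ᵐ x ∂M.mu H, x ∈ O0 p σ) → 0 ≤ y →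
  AEMeasurable κ (M.mu H) ∧ AEMeasurable (lden fun i x => y * φ i x) (M.mu H) ∧
  (∃ c > (0 : ℝ), ∀ x, 0 < p x → ENNReal.ofReal c ≤ lden (fun i x => y * φ i x) x) ∧
  ∃ t > (1 : ℝ), ∫⁻ x, (ENNReal.ofReal (κ x) * lden (fun i x => y * φ i x) x) ^ t ∂M.mu H ≠ ⊤

/-- Measures of every level. -/
def St_ZO : Prop := ∀ (n k : ℕ) (M : Mf n) [M.Cpt] (H : M.Fam (Mat n)) (p σ : M.X → ℝ)
  (z : M.X → E k) (θ : M.X → ℂ) (T : M.X → ℝ) (m : Pz k) (D : MvPolynomial (Fin k) ℂ) (C : ℝ)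
  (d : ℕ) (κ : M.X → ℝ) (ε : ℕ → ℝ) (φ : ℕ → M.X → ℝ), Frm H p σ z θ T m D C → Adj H p σ T d κ ε φ →
  Zo H p σ T

/-! ### The base -/

/-- The theorem of Skoda at a point where the limit is finite. -/
def St_SKD : Prop := ∀ (k : ℕ) (ψ : ℝ → E k → ℝ) (y₀ : E k) (t : ℝ),
  (∀ e, 0 < e → ContDiff ℝ ∞ (ψ e) ∧ ∀ y, (hr (ψ e) y).PosSemidef) →
  (∀ e e' y, 0 < e → e ≤ e' → ψ e y ≤ ψ e' y) → Fin' ψ y₀ → 0 < t → ∃ ρ > (0 : ℝ),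
  ∫⁻ y in ball y₀ ρ, ⨆ i : ℕ, ENNReal.ofReal (Real.exp (-(t * ψ (1 / ((i : ℝ) + 1)) y))) ≠ ⊤

/-- The potential is finite almost everywhere. -/
def St_FNV : Prop := ∀ (k : ℕ) (T : ℝ → E k → Mat k) (v : ℝ → E k → ℝ), Pot T v → ∀ᵐ y, Fin' v y

/-- The standing hypotheses hold. -/
def St_CX : Prop := ∀ (n k : ℕ) (M : Mf n) [M.Cpt] (H : M.Fam (Mat n)) (p σ : M.X → ℝ)
  (z : M.X → E k) (θ : M.X → ℂ) (T : M.X → ℝ) (m : Pz k) (D : MvPolynomial (Fin k) ℂ) (C : ℝ),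
  Frm H p σ z θ T m D C → 0 < k → ∃ V r Ψ, Cx H p z C V r Ψ

/-- Integrability on a tube. -/
def St_TUB : Prop := ∀ (n k : ℕ) (M : Mf n) [M.Cpt] (H : M.Fam (Mat n)) (p σ : M.X → ℝ)
  (z : M.X → E k) (θ : M.X → ℂ) (T : M.X → ℝ) (m : Pz k) (D : MvPolynomial (Fin k) ℂ) (C V : ℝ)
  (r Ψ : E k → ℝ) (ψ : ℝ → E k → ℝ) (y₀ : E k) (ϖ : M.X → ℝ≥0∞) (t : ℝ), Frm H p σ z θ T m D C →
  Cx H p z C V r Ψ → (∀ e, 0 < e → ContDiff ℝ ∞ (ψ e) ∧ ∀ y, (hr (ψ e) y).PosSemidef) →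
  (∀ e e' y, 0 < e → e ≤ e' → ψ e y ≤ ψ e' y) → Fin' ψ y₀ → AEMeasurable ϖ (M.mu H) → 1 < t →
  ∫⁻ x, ϖ x ^ t ∂M.mu H ≠ ⊤ → ∃ ρ > (0 : ℝ), ∫⁻ x in {x | 0 < p x ∧ z x ∈ ball y₀ ρ},
    ϖ x * ⨆ i : ℕ, ENNReal.ofReal (Real.exp (-ψ (1 / ((i : ℝ) + 1)) (z x))) ∂M.mu H ≠ ⊤

/-- An exponential moment of the potential. -/
def St_ALP : Prop := ∀ (n k : ℕ) (M : Mf n) [M.Cpt] (H : M.Fam (Mat n)) (p σ : M.X → ℝ)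
  (z : M.X → E k) (θ : M.X → ℂ) (T : M.X → ℝ) (m : Pz k) (D : MvPolynomial (Fin k) ℂ) (C : ℝ)
  (U : ℝ → E k → ℝ) (c₁ : ℝ), Frm H p σ z θ T m D C → Up U c₁ → (∃ x, 0 < p x ∧ Fin' U (z x)) →
  ∃ s > (0 : ℝ), ∃ A : ℝ, ∀ e ∈ Ioc (0 : ℝ) 1,
    Jo M H {x | 0 < p x} (fun x => Real.exp (-(s * U e (z x)))) ≤ ENNReal.ofReal A

/-- The cells on the manifold. -/
def St_CEL : Prop := ∀ (n k : ℕ) (M : Mf n) [M.Cpt] (H : M.Fam (Mat n)) (p : M.X → ℝ)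
  (O : Set M.X) (z : M.X → E k) (θ : M.X → ℂ) (T : M.X → ℝ) (V : ℝ) (r : E k → ℝ) (Q : M.X → Set M.X)
  (U : ℝ → E k → ℝ) (N q : ℕ) (P : Fin q → CY.Pat H p z r V Q) (G : Fin q → Set (E k))
  (d : Fin q → ℕ) (F : ∀ i, M.X → Fin (d i) → ℂ) (A : Fin q → ℝ), IsOpen O →
  O ⊆ {x | 0 < p x} → HoV M O z → (∀ x, 0 < p x → 0 < T x) →
  (∀ e y, 0 < e → (ft H p z r e y).PosSemidef) →
  (∀ y, Good H p z r p V y → ∃ i, y ∈ (P i).V ∧ nsq ((P i).f y) < 1) →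
  (∀ i, IsOpen (G i) ∧ G i ⊆ (P i).V ∧ (∀ s ∈ (P i).V, Good H p z r p V s → s ∈ G i) ∧
    Fm p z θ T U (G i) N (F i) (A i)) →
  ∃ (Ω : Set (E k)) (S : M.Fam (Mat n)) (c : ℝ) (Γ : Cel M (O ∩ z ⁻¹' Ω) S (Fin q)),
    IsOpen Ω ∧ (∀ y, Good H p z r p V y → y ∈ Ω) ∧ Ω ⊆ ⋃ i, G i ∧ 0 ≤ c ∧
    (∀ i, Γ.V i = O ∩ z ⁻¹' (Ω ∩ G i) ∧ ∀ x, nsq (Γ.F i x) = nsq (F i x)) ∧
    ∀ K, IsCompact K → K ⊆ Ω → ∀ η : ℝ, 0 < η → ∀ᶠ e in 𝓝[>] (0 : ℝ),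
      OnK M (O ∩ z ⁻¹' K) fun d w =>
        (pb z (fun y => c • ft H p z r e y + η • (1 : Mat k)) d w - S d w).PosSemidef

/-- The patched weight inherits the bounds of the families. -/
def St_WG : Prop := ∀ (n k : ℕ) (M : Mf n) (H : M.Fam (Mat n)) (p : M.X → ℝ) (O : Set M.X)
  (z : M.X → E k) (θ : M.X → ℂ) (T : M.X → ℝ) (U : ℝ → E k → ℝ) (c₁ : ℝ) (N q : ℕ)
  (G : Fin q → Set (E k)) (d : Fin q → ℕ) (F : ∀ i, M.X → Fin (d i) → ℂ) (A : Fin q → ℝ)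
  (Ω : Set (E k)) (w : M.X → ℝ) (c : ℝ), Up U c₁ → 1 ≤ c → O ⊆ {x | 0 < p x} → Ω ⊆ ⋃ i, G i →
  (∀ i, IsOpen (G i) ∧ Fm p z θ T U (G i) N (F i) (A i) ∧ Fa H p z θ T (G i) N (F i) (A i) ∧
    ∀ x ∈ O, z x ∈ Ω → z x ∈ G i →
      Real.exp (w x) ≤ c * nsq (F i x) ∧ nsq (F i x) ≤ c * Real.exp (w x)) →
  ∃ c', Wg H p O z θ T N U Ω w c'

/-- The weight, the cells and the potentials. -/
def St_PRE : Prop := ∀ (n k : ℕ) (M : Mf n) [M.Cpt] (H : M.Fam (Mat n)) (p σ : M.X → ℝ)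
  (z : M.X → E k) (θ : M.X → ℂ) (T : M.X → ℝ) (m : Pz k) (D : MvPolynomial (Fin k) ℂ) (C V : ℝ)
  (r Ψ : E k → ℝ), Frm H p σ z θ T m D C → Cx H p z C V r Ψ →
  ∃ (N q : ℕ) (U v : ℝ → E k → ℝ) (Ω : Set (E k)) (S : M.Fam (Mat n)) (w : M.X → ℝ)
    (c₁ c c' c'' : ℝ) (Γ : Cel M (O0 p σ ∩ z ⁻¹' Ω) S (Fin q)), 0 < N ∧ Γ.Wt w c'' ∧
    Pre H (O0 p σ) z U v c₁ Ω S c ∧ Wg H p (O0 p σ) z θ T N U Ω w c'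

/-! ### The peak functions -/

/-- The theorem of Hörmander for all weights below `u`. -/
def St_HQS : Prop := ∀ (n k : ℕ) (M : Mf n) [M.Cpt] (H : M.Fam (Mat n)) (O : Set M.X)
  (ν : Measure M.X) (z : M.X → E k) (Ω : Set (E k)) (U v : ℝ → E k → ℝ) (c₁ : ℝ)
  (S : M.Fam (Mat n)) (m m₁ C l c : ℝ) (u : M.X → ℝ),
  Wd H O ν z Ω U v c₁ (fun _ => 0) S m m₁ C → (∀ x, 0 ≤ u x) →
  (∀ K, IsCompact K → K ⊆ Ω → ∀ᶠ e in 𝓝[>] (0 : ℝ), ∀ x ∈ O ∩ z ⁻¹' K, u x + m₁ * U e (z x) ≤ C) →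
  5 * m₁ + 1 ≤ l → l * c₁ + 2 ≤ c →
  HqS M O (O ∩ z ⁻¹' Ω) (ν.withDensity (den z (fun _ => 0) U v m l c)) S u 1

/-- A lower bound for the limit density. -/
def St_DLB : Prop := ∀ (n k : ℕ) (M : Mf n) (p u : M.X → ℝ) (z : M.X → E k) (U v : ℝ → E k → ℝ)
  (c₁ m m₁ l c C A : ℝ) (s : ℕ), Up U c₁ → (∀ e e' y, 0 < e → e ≤ e' → v e y ≤ v e' y) →
  (∃ c : ℝ, ∀ y, v 1 y ≤ c * Real.log (2 + nsq y)) → 0 ≤ m → m₁ ≤ l →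
  (∀ x, 0 < p x → p x ≤ 1 ∧ (1 + nsq (z x)) * p x ^ s ≤ A) →
  ∃ (s' : ℕ) (B : ℝ≥0∞), B ≠ ⊤ ∧ ∀ x, 0 < p x →
    (∀ᶠ e in 𝓝[>] (0 : ℝ), u x + m₁ * U e (z x) ≤ C) → ENNReal.ofReal (p x ^ s') ≤
      B * (den z (fun _ => 0) U v m l c x * ENNReal.ofReal (Real.exp (-u x)))

/-- The two families. -/
def St_PKR : Prop := ∀ (n k : ℕ) (M : Mf n) [M.Cpt] (H : M.Fam (Mat n)) (p σ : M.X → ℝ)
  (z : M.X → E k) (θ : M.X → ℂ) (T : M.X → ℝ) (m : Pz k) (D : MvPolynomial (Fin k) ℂ) (C V : ℝ)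
  (r Ψ : E k → ℝ) (N q : ℕ) (U v : ℝ → E k → ℝ) (Ω : Set (E k)) (S : M.Fam (Mat n)) (w : M.X → ℝ)
  (c₁ c c' c'' : ℝ) (Γ : Cel M (O0 p σ ∩ z ⁻¹' Ω) S (Fin q)), Frm H p σ z θ T m D C →
  Cx H p z C V r Ψ → Zo H p σ T → 0 < N → Γ.Wt w c'' → Pre H (O0 p σ) z U v c₁ Ω S c →
  Wg H p (O0 p σ) z θ T N U Ω w c' →
  ∃ (r₁ r₂ : ℕ) (a : Fin (r₁ + 1) → M.X → ℂ) (b : Fin (r₂ + 1) → M.X → ℂ) (B : ℝ),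
    (∀ i, Tm p (a i) ∧ Nz p (a i)) ∧ (∀ j, Tm p (b j) ∧ Nz p (b j)) ∧ ∀ x ∈ O0 p σ, z x ∈ Ω →
      Real.exp (w x) * nsq (a · x) ≤ B * nsq (b · x) ∧
      nsq (b · x) ≤ B * (Real.exp (w x) * nsq (a · x))

/-- The reference metric. -/
def St_RO : Prop := ∀ (n k : ℕ) (M : Mf n) [M.Cpt] (H : M.Fam (Mat n)) (p σ : M.X → ℝ)
  (z : M.X → E k) (θ : M.X → ℂ) (T : M.X → ℝ) (m : Pz k) (D : MvPolynomial (Fin k) ℂ) (C V : ℝ)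
  (r Ψ : E k → ℝ) (N : ℕ) (U v : ℝ → E k → ℝ) (Ω : Set (E k)) (S : M.Fam (Mat n)) (w : M.X → ℝ)
  (c₁ c c' B : ℝ) (r₁ r₂ : ℕ) (a : Fin (r₁ + 1) → M.X → ℂ) (b : Fin (r₂ + 1) → M.X → ℂ),
  Frm H p σ z θ T m D C → Cx H p z C V r Ψ → 0 < N → Pre H (O0 p σ) z U v c₁ Ω S c →
  Wg H p (O0 p σ) z θ T N U Ω w c' →
  (∀ i, Tm p (a i) ∧ Nz p (a i)) → (∀ j, Tm p (b j) ∧ Nz p (b j)) →
  (∀ x ∈ O0 p σ, z x ∈ Ω → Real.exp (w x) * nsq (a · x) ≤ B * nsq (b · x) ∧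
    nsq (b · x) ≤ B * (Real.exp (w x) * nsq (a · x))) → ∃ c₂, Ro H p z θ T N U c₁ c₂ a b

/-- Without meromorphic functions the section is bounded. -/
def St_TB0 : Prop := ∀ (n : ℕ) (M : Mf n) [M.Cpt] (H : M.Fam (Mat n)) (p σ : M.X → ℝ)
  (z : M.X → E 0) (θ : M.X → ℂ) (T : M.X → ℝ) (m : Pz 0) (D : MvPolynomial (Fin 0) ℂ) (C : ℝ),
  Frm H p σ z θ T m D C → ∃ c, ∀ x, 0 < p x → T x ≤ c

/-- The reference metric without meromorphic functions. -/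
def St_K0 : Prop := ∀ (n : ℕ) (M : Mf n) [M.Cpt] (H : M.Fam (Mat n)) (p σ : M.X → ℝ)
  (z : M.X → E 0) (θ : M.X → ℂ) (T : M.X → ℝ) (m : Pz 0) (D : MvPolynomial (Fin 0) ℂ) (C : ℝ),
  Frm H p σ z θ T m D C → ∃ c, Ro H p z θ T 1 (fun _ _ => 0) 0 c (r₁ := 0) (r₂ := 0)
    (fun _ _ => 1) fun _ _ => 1

/-- The families are enlarged. -/
def St_ENR : Prop := ∀ (n k : ℕ) (M : Mf n) [M.Cpt] (H : M.Fam (Mat n)) (p σ : M.X → ℝ)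
  (z : M.X → E k) (θ : M.X → ℂ) (T : M.X → ℝ) (m : Pz k) (D : MvPolynomial (Fin k) ℂ) (C : ℝ)
  (N : ℕ) (U : ℝ → E k → ℝ) (c₁ c : ℝ) (r₁ r₂ : ℕ) (a : Fin (r₁ + 1) → M.X → ℂ)
  (b : Fin (r₂ + 1) → M.X → ℂ), Frm H p σ z θ T m D C → Ro H p z θ T N U c₁ c a b →
  ∃ (s₁ s₂ : ℕ) (a' : Fin (s₁ + 1) → M.X → ℂ) (b' : Fin (s₂ + 1) → M.X → ℂ),
    Ro H p z θ T N U c₁ c a' b' ∧ En p z θ a' b'

/-- The theorem on the reference metric. -/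
def St_R : Prop := ∀ (n k : ℕ) (M : Mf n) [M.Cpt] (H : M.Fam (Mat n)) (p σ : M.X → ℝ)
  (z : M.X → E k) (θ : M.X → ℂ) (T : M.X → ℝ) (m : Pz k) (D : MvPolynomial (Fin k) ℂ) (C : ℝ)
  (d : ℕ) (κ : M.X → ℝ) (ε : ℕ → ℝ) (φ : ℕ → M.X → ℝ), Frm H p σ z θ T m D C → Adj H p σ T d κ ε φ →
  ∃ (N : ℕ) (U : ℝ → E k → ℝ) (c₁ c : ℝ) (r₁ r₂ : ℕ) (a : Fin (r₁ + 1) → M.X → ℂ)
    (b : Fin (r₂ + 1) → M.X → ℂ), Ro H p z θ T N U c₁ c a b ∧ En p z θ a b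

/-! ### The model -/

/-- Basic properties of the model. -/
def St_MB : Prop := ∀ (n k r r₁ r₂ : ℕ) (M : Mf n) [M.Cpt] (X : Mo M k r r₁ r₂),
  KJ.Ms M X.O X.μ ∧ KJ.Fr M X.O X.h ∧ Cmp M X.H X.O ∧ (∀ᵐ x ∂M.mu X.H, x ∈ X.O) ∧
  (∀ P : M.X → Prop, (∀ᵐ x ∂X.μ, P x) ↔ ∀ᵐ x ∂M.mu X.H, P x) ∧
  (∀ f : M.X → ℝ≥0∞, AEMeasurable f (M.mu X.H) → ∫⁻ x, f x ∂X.μ =
    ∫⁻ x in X.O, ENNReal.ofReal (X.κ x * X.T x ^ ((1 : ℝ) / X.d)) * f x ∂M.mu X.H) ∧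
  (∀ β, Tm X.p (X.h β) ∧ HoK M X.O (X.W β)) ∧
  (∀ x ∈ X.O, x ∈ O0 X.p X.σ ∧ (∀ i, X.a i x ≠ 0) ∧ (∀ j, X.b j x ≠ 0) ∧ (∀ β, X.h β x ≠ 0) ∧
    (∀ β, X.W β x ≠ 0) ∧ 0 < qt X.W X.h x) ∧
  (∀ x, nsq (X.h · x) = nsq (X.a · x) * nsq (X.b · x)) ∧
  (∃ A > (0 : ℝ), ∀ x ∈ X.O, qt X.W X.h x * nsq (X.b · x) ≤ A * nsq (X.a · x) ∧
    nsq (X.a · x) ≤ A * (qt X.W X.h x * nsq (X.b · x)) ∧ X.T x ^ X.N * qt X.W X.h x ≤ A ∧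
    ∀ β, nsq (X.W · x) * normSq (X.h β x) ^ 2 ≤ A * normSq (X.W β x) * nsq (X.h · x) ^ 2) ∧
  ∀ R, (∃ x ∈ X.O, pv X.h R x ≠ 0) → ∀ᵐ x ∂X.μ, pv X.h R x ≠ 0

/-- The defect and the weights. -/
def St_MW : Prop := ∀ (n k r r₁ r₂ : ℕ) (M : Mf n) [M.Cpt] (X : Mo M k r r₁ r₂),
  (∀ (l : ℝ) (J : ℕ), 0 ≤ l → l * X.c₁ ≤ J → AEMeasurable (X.B l J) (M.mu X.H) ∧
    ∀ x ∈ X.O, 0 < X.B l J x ∧ (Fin' X.U (X.z x) → Ul X.U (X.z x) ≤ 0 ∧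
      (∀ e, 0 < e → Ul X.U (X.z x) ≤ X.U e (X.z x)) ∧
      Tendsto (fun i : ℕ => X.U (1 / ((i : ℝ) + 1)) (X.z x)) atTop (𝓝 (Ul X.U (X.z x))) ∧
      bt X.h (J + 1) (X.B l J) x ≤ Real.exp (l * Ul X.U (X.z x)) ∧
      bt X.h (J + 1) (X.B l J) x ≤ Real.exp (l * Ul X.U (X.z x)) * nsq (X.h · x))) ∧
  (∀ j, AEMeasurable (X.u j) (M.mu X.H) ∧ ∀ x ∈ X.O, 0 < X.u j x) ∧
  ∀ j : ℕ, 0 < j → ∃ A, ∀ x ∈ X.O, X.u j x ≤ A * qt X.W X.h x ^ ((1 : ℝ) / (X.d * X.N : ℕ) - j)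

/-- The sections extend. -/
def St_MSE : Prop := ∀ (n k r r₁ r₂ : ℕ) (M : Mf n) [M.Cpt] (X : Mo M k r r₁ r₂), ∃ s : ℕ,
  ∀ j c : ℕ, ∀ F ∈ Se M X.O X.μ X.h X.u j c,
    ∃ F', Bq X.p X.T (X.N * j) (s * (c + 1)) F' ∧ ∀ x ∈ X.O, F' x = F x

/-- The sections are bounded by the reference metric and form spaces of finite dimension. -/
def St_MR2 : Prop := ∀ (n k r r₁ r₂ : ℕ) (M : Mf n) [M.Cpt] (X : Mo M k r r₁ r₂),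
  (∀ j c : ℕ, KJ.Fd (Se M X.O X.μ X.h X.u j c)) ∧ ∃ l : ℝ, 0 ≤ l ∧ ∀ J : ℕ, l * X.c₁ ≤ J →
    ∀ j c : ℕ, 0 < j → ∀ F ∈ Se M X.O X.μ X.h X.u j c, ∃ A, ∀ᵐ x ∂X.μ,
      normSq (F x) * bt X.h (J + 1) (X.B l J) x ^ (c + 1) ≤
        A * qt X.W X.h x ^ j * nsq (X.h · x) ^ c

/-- The theorem of Hörmander for the powers of the defect. -/
def St_MHB : Prop := ∀ (n k r r₁ r₂ : ℕ) (M : Mf n) [M.Cpt] (X : Mo M k r r₁ r₂) (l : ℝ) (J : ℕ)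
  (s : ℝ), 0 ≤ l → l * X.c₁ ≤ J → 0 < s →
  HqB M X.O (X.μ.withDensity fun x => ENNReal.ofReal (X.B l J x ^ (-s)))

/-- A negative power of the defect is integrable. -/
def St_MIN : Prop := ∀ (n k r r₁ r₂ : ℕ) (M : Mf n) [M.Cpt] (X : Mo M k r r₁ r₂) (l : ℝ) (J : ℕ),
  0 ≤ l → l * X.c₁ ≤ J → ∃ s ∈ Ioc (0 : ℝ) 1, Iv X.μ (fun x =>
    qt X.W X.h x ^ ((1 : ℝ) / (X.d * X.N : ℕ)) * bt X.h (J + 1) (X.B l J) x ^ (-s)) ≠ ⊤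

/-- The measures of every level. -/
def St_MZO : Prop := ∀ (n k r r₁ r₂ : ℕ) (M : Mf n) [M.Cpt] (X : Mo M k r r₁ r₂) (j : ℕ), 0 < j →
  ∃ ρ : M.X → ℝ≥0∞, AEMeasurable ρ X.μ ∧ HqB M X.O (X.μ.withDensity ρ) ∧
    (∃ c > (0 : ℝ), ∀ᵐ x ∂X.μ, ENNReal.ofReal (c * X.u j x) ≤ ρ x) ∧
    Iv (X.μ.withDensity ρ) (fun x => qt X.W X.h x ^ j) ≠ ⊤

/-- Tame functions are quotients of forms. -/
def St_MRK : Prop := ∀ (n k r r₁ r₂ : ℕ) (M : Mf n) [M.Cpt] (X : Mo M k r r₁ r₂) (F : M.X → ℂ),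
  Tm X.p F → ∃ (e : ℕ) (A B : MvPolynomial (Fin r) ℂ), A.IsHomogeneous e ∧ B.IsHomogeneous e ∧
    (∃ x ∈ X.O, pv X.h A x ≠ 0) ∧ ∀ x ∈ X.O, F x * pv X.h A x = pv X.h B x

/-- The theorem on the model. -/
def St_MD : Prop := ∀ (n k r r₁ r₂ : ℕ) (M : Mf n) [M.Cpt] (X : Mo M k r r₁ r₂),
  KJ.Rk M X.O X.μ X.h X.u ∧
    ∃ (l : ℝ) (J : ℕ), KJ.Md M X.O X.μ (X.d * X.N) (J + 1) X.h X.W (X.B l J) X.u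

end Pool.Agent.Lib.RBR
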