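import Pool.Agent.Lib.RBR.Blue

/-! Project rbr: the theorem of Hörmander for the adjoint measures. -/

open scoped Classical Topology ContDiff ComplexOrder Matrix ENNReal
open Set MeasureTheory Complex Metric Filter

noncomputable section

namespace Pool.Agent.Lib.RBR

open Pool.Agent.Lib.SV (E nsq)
open Pool.Agent.Lib.HS32
open Pool.Agent.Lib.KH (OnK SmK lden)

namespace HQA

variable {n : ℕ} {M : Mf n}

theorem sub {O O' : Set M.X} {p : M.Ch → E n → Prop} (h : O' ⊆ O) (hp : OnK M O p) :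
    OnK M O' p := fun e he z hz ho => hp e he z hz (h ho)

theorem smul {O : Set M.X} {f : M.X → ℝ} (c : ℝ) (hf : SmK M O f) :
    SmK M O (fun y => c * f y) ∧
      OnK M O fun e z => M.hs (fun y => c * f y) e z = c • M.hs f e z := by
  refine ⟨fun e he z hz ho => contDiffAt_const.mul (hf e he z hz ho), fun e he z hz ho => ?_⟩
  have h1 : M.lc (fun y => c * f y) e = fun w => (c : ℂ) * M.lc f e w :=
    funext fun w => by simp [Mf.lc]
  have h2 : ContDiffAt ℝ ∞ (M.lc f e) z := cd_ofReal (hf e he z hz ho)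
  change hess (M.lc (fun y => c * f y) e) z = c • hess (M.lc f e) z
  rw [h1, hess_const_mul _ h2, Complex.coe_smul]

end HQA

open HQA in
theorem rHQA (hKHM : KH.St_KHM) (hKIT : KH.St_KIT) : St_HQA := by
  intro n M _ H p σ T d κ ε φ O y ψ hK A hT hC hO y0 hψ mψ
  have k6 := (hKIT n M H O hK.toMet hC.1).2.2.2.2.2
  have hp : O ⊆ {x | 0 < p x} := fun x hx => (hO hx).1
  have d0 : (0 : ℝ) < d := Nat.cast_pos.2 A.d0
  have yd : 0 ≤ y * d := mul_nonneg y0 d0.le
  obtain ⟨a1, a2⟩ := smul (-1) (sub hO A.sk)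
  obtain ⟨b1, b2⟩ := smul (-((1 : ℝ) / d + y)) (sub hp A.sT)
  obtain ⟨c1, c2⟩ := k6 _ _ a1 b1
  have h := hKHM n M H O (fun i => y * d * ε i) (fun i x => (-1 * Real.log (κ x) +
    -((1 : ℝ) / d + y) * Real.log (T x)) + (y * d * φ i x + ψ i x)) hK hC
    ⟨fun i => mul_nonneg yd (A.e0 i), by simpa using A.lim.const_mul (y * d), fun i =>
      (k6 _ _ c1 (k6 _ _ (smul (y * d) (sub hp (A.sm i))).1 (hψ i).1).1).1,
      fun i e he z hz ho => by
        obtain ⟨f1, f2⟩ := smul (y * d) (sub hp (A.sm i))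
        obtain ⟨g1, g2⟩ := k6 _ _ f1 (hψ i).1
        have q := ((A.pos i e he z hz (hp ho)).smul yd).add ((hψ i).2 e he z hz ho)
        refine (congrArg Matrix.PosSemidef ?_).mpr q
        have r := A.ric e he z hz (hO ho)
        have s : (y * d * (1 / d) : ℝ) = y := by field_simp
        beta_reduce at r ⊢
        rw [(k6 _ _ c1 g1).2 e he z hz ho, c2 e he z hz ho, g2 e he z hz ho, a2 e he z hz ho,
          b2 e he z hz ho, f2 e he z hz ho, ← r, smul_add (y * d), smul_sub (y * d), smul_smul,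
          smul_smul, s]
        module⟩
    fun i x hx => by
      have := mul_le_mul_of_nonneg_left (A.mono i x (hp hx)) yd
      have := mψ i x hx
      linarith
  refine (congrArg (KH.HqB M O) (withDensity_congr_ae ?_)).mp h
  refine (ae_restrict_mem hC.1.measurableSet).mono fun x hx => ?_
  have k0 := A.k0 x (hO hx)
  have t0 := hT x (hp hx)
  have e : ∀ a : ℝ, ENNReal.ofReal (Real.exp (-(-1 * Real.log (κ x) +
      -((1 : ℝ) / d + y) * Real.log (T x) + a))) =
      ENNReal.ofReal (κ x * T x ^ ((1 : ℝ) / d + y)) * ENNReal.ofReal (Real.exp (-a)) := fun a => by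
    rw [← ENNReal.ofReal_mul (by positivity), Real.rpow_def_of_pos t0]
    nth_rewrite 2 [← Real.exp_log k0]
    rw [← Real.exp_add, ← Real.exp_add]
    congr 2
    ring
  simp only [lden, e]
  exact ENNReal.liminf_const_mul_of_ne_top ENNReal.ofReal_ne_top

end Pool.Agent.Lib.RBR
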