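import Pool.Agent.Lib.RBR.Blue

/-! Project rbr, row MB: basic properties of the model. -/

open scoped Classical Topology ContDiff ENNReal
open Set MeasureTheory Complex Filter

noncomputable section

namespace Pool.Agent.Lib.RBR

open Pool.Agent.Lib.SV (nsq)
open Pool.Agent.Lib.HS32
open Pool.Agent.Lib.KH (SmK HoK)
open Pool.Agent.Lib.NV6.J (qt pv)

namespace MB

theorem cont {n : ℕ} {M : Mf n} {O : Set M.X} {f : M.X → ℝ}
    (h : SmK M O fun x => Real.log (f x)) (h0 : ∀ x ∈ O, 0 < f x) : ContinuousOn f O := by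
  refine ContinuousOn.congr (f := fun x => Real.exp (Real.log (f x))) (fun x hx => ?_)
    fun x hx => (Real.exp_log (h0 x hx)).symm
  have h1 := (h _ (Mf.ch_mem x) _ (Mf.ch_tgt x) (by rwa [Mf.ch_symm])).continuousAt
  refine (Real.continuous_exp.continuousAt.comp ((h1.comp
    ((M.ch x).continuousAt (Mf.mem_ch x))).congr ?_)).continuousWithinAt
  filter_upwards [(M.ch x).open_source.mem_nhds (Mf.mem_ch x)] with y hy
  simp only [Function.comp_apply, (M.ch x).left_inv hy]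

variable {r r₁ r₂ : ℕ} (e : Fin r ≃ Fin (r₁ + 1) × Fin (r₂ + 1)) (a : Fin (r₁ + 1) → ℂ)
  (b : Fin (r₂ + 1) → ℂ)

theorem nh : nsq (fun β => a (e β).1 * b (e β).2) = nsq a * nsq b := by
  rw [nsq, nsq, nsq, Finset.sum_mul_sum, ← Fintype.sum_prod_type']
  exact Fintype.sum_equiv e _ _ fun β => map_mul _ _ _

theorem nw : nsq (fun β => a (e β).1 ^ 2) = (r₂ + 1) * ∑ i, normSq (a i) ^ 2 := by
  rw [nsq, Fintype.sum_equiv e _ (fun γ => normSq (a γ.1) ^ 2) fun β => map_pow _ _ _,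
    Fintype.sum_prod_type, Finset.mul_sum]
  simp

theorem le_nsq {ι : Type} [Fintype ι] (v : ι → ℂ) (i : ι) : normSq (v i) ≤ nsq v :=
  Finset.single_le_sum (f := fun j => normSq (v j)) (fun _ _ => normSq_nonneg _) (Finset.mem_univ i)

theorem lo {ι : Type} [Fintype ι] (v : ι → ℂ) : ∑ i, normSq (v i) ^ 2 ≤ nsq v ^ 2 := by
  rw [sq, nsq, Finset.sum_mul]
  exact Finset.sum_le_sum fun i _ => by
    rw [sq]
    exact mul_le_mul_of_nonneg_left (le_nsq v i) (normSq_nonneg _)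

theorem up : nsq a ^ 2 ≤ (r₁ + 1) * ∑ i, normSq (a i) ^ 2 := by
  simpa [nsq] using sq_sum_le_card_mul_sum_sq (s := Finset.univ) (f := fun i => normSq (a i))

theorem ineq {α β S t c u v : ℝ} (hα : 0 < α) (hβ : 0 < β) (hu : 1 ≤ u) (hv : 1 ≤ v) (hc : 0 ≤ c)
    (ht : 0 ≤ t) (h1 : S ≤ α ^ 2) (h2 : α ^ 2 ≤ u * S) (h3 : t * α ≤ c * β) :
    v * S / (α * β) * β ≤ (v * (c + 1) + u) * α ∧ α ≤ (v * (c + 1) + u) * (v * S / (α * β) * β) ∧
      t * (v * S / (α * β)) ≤ v * (c + 1) + u := by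
  have hS : 0 ≤ S := nonneg_of_mul_nonneg_right ((sq_nonneg α).trans h2) (by linarith)
  have e : v * S / (α * β) * β = v * S / α := by field_simp
  have v0 : 0 ≤ v := by linarith
  have vc : 0 ≤ v * c := mul_nonneg v0 hc
  rw [e, div_le_iff₀ hα, ← mul_div_assoc, le_div_iff₀ hα, ← mul_div_assoc,
    div_le_iff₀ (mul_pos hα hβ)]
  have a2 := sq_nonneg α
  refine ⟨by nlinarith [mul_le_mul_of_nonneg_left h1 v0, mul_nonneg vc a2], ?_, ?_⟩
  · have : S ≤ v * S := le_mul_of_one_le_left hS hv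
    nlinarith [mul_nonneg (show 0 ≤ v * (c + 1) by positivity) (mul_nonneg v0 hS),
      mul_le_mul_of_nonneg_left this (show 0 ≤ u by linarith)]
  · have h4 := mul_le_mul_of_nonneg_left h1 (mul_nonneg ht v0)
    have h5 := mul_le_mul_of_nonneg_left h3 (mul_nonneg v0 hα.le)
    nlinarith [mul_nonneg (show 0 ≤ v + u by linarith) (mul_pos hα hβ).le]

end MB

open MB in
theorem rMB (hKIT : St_KIT) (hMSR : St_MSR) : St_MB := by
  intro n k r r₁ r₂ M _ X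
  obtain ⟨-, -, hT, hae, hne, -, -, -, hmul, hfam, -, -, -, -, hnz⟩ :=
    hKIT n k M X.H X.p X.σ X.z X.θ X.T X.m X.D X.C X.fr
  have ta := fun i => (X.ro.ta i).1
  have tb := fun j => (X.ro.tb j).1
  have fa := hfam _ X.a ta
  have fb := hfam _ X.b tb
  have tg := (hmul _ _ fa.1 fb.1).2
  obtain ⟨g1, hc, -⟩ := hnz _ tg.1 (tg.2 (fa.2.1 fun i => (X.ro.ta i).2)
    (fb.2.1 fun j => (X.ro.tb j).2))
  have hO : ∀ᵐ x ∂M.mu X.H, x ∈ X.O := by
    filter_upwards [hae, g1] with x h1 h2 using ⟨h1.1, h1.2, h2⟩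
  have hq : ContinuousOn (fun x => X.κ x * X.T x ^ ((1 : ℝ) / X.d)) X.O :=
    ((cont X.ad.sk X.ad.k0).mono fun x hx => ⟨hx.1, hx.2.1⟩).mul
      (((cont X.ad.sT hT).mono fun x hx => hx.1).rpow_const fun x hx => Or.inl (hT x hx.1).ne')
  obtain ⟨m1, -, -, m4, -, m6⟩ := hMSR n M X.H X.O _ _ 1 X.μ X.fr.kae.toMet hc.1 hq
    (fun x hx => mul_pos (X.ad.k0 x ⟨hx.1, hx.2.1⟩) (Real.rpow_pos_of_pos (hT x hx.1) _))
    (hq.aemeasurable hc.1.measurableSet).ennreal_ofReal ENNReal.one_ne_top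
    (Eventually.of_forall fun x _ => (one_mul _).ge) rfl
  have m5 : ∀ P : M.X → Prop, (∀ᵐ x ∂X.μ, P x) ↔ ∀ᵐ x ∂M.mu X.H, P x := fun P =>
    (m1 P).trans ⟨fun h => by filter_upwards [h, hO] with x h1 h2 using h1 h2,
      fun h => h.mono fun x h1 _ => h1⟩
  have th : ∀ β, Tm X.p (X.h β) := fun β => (hmul _ _ (ta _) (tb _)).2.1
  have na : ∀ x ∈ X.O, ∀ i, X.a i x ≠ 0 := fun x hx i =>
    Finset.prod_ne_zero_iff.1 (left_ne_zero_of_mul hx.2.2) i (Finset.mem_univ i)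
  have nb : ∀ x ∈ X.O, ∀ j, X.b j x ≠ 0 := fun x hx j =>
    Finset.prod_ne_zero_iff.1 (right_ne_zero_of_mul hx.2.2) j (Finset.mem_univ j)
  have pa : ∀ x ∈ X.O, 0 < nsq (X.a · x) := fun x hx =>
    (normSq_pos.2 (na x hx 0)).trans_le (le_nsq (X.a · x) 0)
  have pb : ∀ x ∈ X.O, 0 < nsq (X.b · x) := fun x hx =>
    (normSq_pos.2 (nb x hx 0)).trans_le (le_nsq (X.b · x) 0)
  have eh : ∀ x, nsq (X.h · x) = nsq (X.a · x) * nsq (X.b · x) := fun x =>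
    nh X.e (X.a · x) (X.b · x)
  have ew : ∀ x, nsq (X.W · x) = (r₂ + 1) * ∑ i, normSq (X.a i x) ^ 2 := fun x => nw X.e (X.a · x)
  have u1 : ∀ s : ℕ, (1 : ℝ) ≤ s + 1 := fun s => le_add_of_nonneg_left s.cast_nonneg
  have c0 := X.ro.c0
  have := ae_neBot.2 hne
  refine ⟨⟨hc.1, hO.exists, (m5 _).2 hO, m4⟩, ⟨fun β e he w hw hx => (th β).1 e he w hw hx.1,
    fun x hx => (eh x).symm ▸ mul_pos (pa x hx) (pb x hx)⟩, hc, hO, m5,
    fun f hf => m6 f hf.restrict, fun β => ⟨th β, fun e he w hw hx => ?_⟩,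
    fun x hx => ⟨⟨hx.1, hx.2.1⟩, na x hx, nb x hx, fun β => mul_ne_zero (na x hx _) (nb x hx _),
      fun β => pow_ne_zero _ (na x hx _), div_pos ?_ ((eh x).symm ▸ mul_pos (pa x hx) (pb x hx))⟩,
    eh, ⟨(r₂ + 1) * (X.c + 1) + (r₁ + 1), by positivity, fun x hx => ?_⟩,
    fun R ⟨x, hx, h⟩ => (m5 _).2 (hnz _ ((hfam _ X.h th).2.2.1 R) ⟨x, hx.1, h⟩).1⟩
  · exact ((ta (X.e β).1).1 e he w hw hx.1).mono fun y hy => hy.fun_pow 2
  · exact (normSq_pos.2 (pow_ne_zero 2 (na x hx _))).trans_le (le_nsq (X.W · x) (X.e.symm (0, 0)))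
  · obtain ⟨i1, i2, i3⟩ := ineq (pa x hx) (pb x hx) (u1 r₁) (u1 r₂) c0
      (pow_nonneg (hT x hx.1).le X.N) (lo (X.a · x)) (up (X.a · x)) (X.ro.r1 x hx.1)
    rw [qt, ew, eh]
    refine ⟨i1, i2, i3, fun β => ?_⟩
    have h1 : ((r₂ : ℝ) + 1) * ∑ i, normSq (X.a i x) ^ 2 ≤
        ((r₂ + 1) * (X.c + 1) + (r₁ + 1)) * nsq (X.a · x) ^ 2 :=
      mul_le_mul (by nlinarith [u1 r₁, u1 r₂]) (lo (X.a · x))
        (Finset.sum_nonneg fun _ _ => sq_nonneg _) (by positivity)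
    have h2 : normSq (X.h β x) ^ 2 ≤ normSq (X.W β x) * nsq (X.b · x) ^ 2 := by
      rw [map_mul, map_pow, mul_pow]
      exact mul_le_mul_of_nonneg_left (pow_le_pow_left₀ (normSq_nonneg _)
        (le_nsq (X.b · x) _) 2) (sq_nonneg _)
    refine (mul_le_mul h1 h2 (sq_nonneg _) (by positivity)).trans_eq ?_
    ring

end Pool.Agent.Lib.RBR
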