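import Pool.Agent.Lib.RBR.Blue
import Pool.Agent.Lib.KH.B_KIT
import Pool.Agent.Lib.KJ.B_INT

/-! Project rbr, row MIN: a negative power of the defect is integrable. -/

open scoped Classical Topology ContDiff ENNReal
open Set MeasureTheory Complex Metric Filter

noncomputable section

namespace Pool.Agent.Lib.RBR

open Pool.Agent.Lib.SV (E nsq)
open Pool.Agent.Lib.HS32
open Pool.Agent.Lib.KH (SmK HoK Jo)
open Pool.Agent.Lib.RB9 (Fin')
open Pool.Agent.Lib.KJ (Iv bt)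
open Pool.Agent.Lib.NV6.J (qt)

namespace MIN

variable {Y : Type} [MeasurableSpace Y] {μ : Measure Y}

/-- A finite small moment. -/
def Sm (μ : Measure Y) (g : Y → ℝ≥0∞) : Prop :=
  AEMeasurable g μ ∧ ∃ t > (0 : ℝ), ∫⁻ x, g x ^ t ∂μ ≠ ⊤

theorem low [IsFiniteMeasure μ] {g : Y → ℝ≥0∞} {a b : ℝ} (ha : 0 ≤ a) (hab : a ≤ b)
    (h : ∫⁻ x, g x ^ b ∂μ ≠ ⊤) : ∫⁻ x, g x ^ a ∂μ ≠ ⊤ := by
  have k : ∀ x, g x ^ a ≤ 1 + g x ^ b := fun x => by
    rcases le_total (g x) 1 with h1 | h1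
    · exact (ENNReal.rpow_le_one h1 ha).trans le_self_add
    · exact (ENNReal.rpow_le_rpow_of_exponent_le h1 hab).trans le_add_self
  refine ne_top_of_le_ne_top ?_ (lintegral_mono k)
  rw [lintegral_add_left measurable_const]
  exact ENNReal.add_ne_top.2 ⟨by simp, h⟩

theorem Sm.mul [IsFiniteMeasure μ] {f g : Y → ℝ≥0∞} (hf : Sm μ f) (hg : Sm μ g) :
    Sm μ fun x => f x * g x := by
  obtain ⟨mf, s, s0, hs⟩ := hf
  obtain ⟨mg, t, t0, ht⟩ := hg
  have m0 : 0 < min s t := lt_min s0 t0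
  refine ⟨mf.mul mg, min s t / 2, by positivity, ?_⟩
  have k : ∀ x, (f x * g x) ^ (min s t / 2) ≤ f x ^ min s t + g x ^ min s t := fun x => by
    have e : ∀ y : ℝ≥0∞, (y * y) ^ (min s t / 2) = y ^ min s t := fun y => by
      rw [ENNReal.mul_rpow_of_nonneg _ _ (by positivity),
        ← ENNReal.rpow_add_of_nonneg _ _ (by positivity) (by positivity), add_halves]
    rcases le_total (f x) (g x) with h1 | h1
    · refine le_trans ?_ le_add_self
      rw [← e]; gcongr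
    · refine le_trans ?_ le_self_add
      rw [← e]; gcongr
  refine ne_top_of_le_ne_top ?_ (lintegral_mono k)
  rw [lintegral_add_left' (mf.pow_const _)]
  exact ENNReal.add_ne_top.2 ⟨low m0.le (min_le_left _ _) hs, low m0.le (min_le_right _ _) ht⟩

theorem Sm.pow [IsFiniteMeasure μ] {f : Y → ℝ≥0∞} (hf : Sm μ f) {a : ℝ} (ha : 0 ≤ a) :
    Sm μ fun x => f x ^ a := by
  obtain ⟨mf, s, s0, hs⟩ := hf
  refine ⟨mf.pow_const _, s / (a + 1), by positivity, ?_⟩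
  simp only [← ENNReal.rpow_mul]
  refine low (by positivity) ?_ hs
  rw [← mul_div_assoc, div_le_iff₀ (by positivity)]
  nlinarith

/-- The moment of the limit of a sequence. -/
theorem fatou {u : ℕ → Y → ℝ} {v : Y → ℝ} {s A : ℝ} (s0 : 0 < s) (hu : ∀ i, AEMeasurable (u i) μ)
    (hv : ∀ᵐ x ∂μ, Tendsto (fun i => u i x) atTop (𝓝 (v x)))
    (hA : ∀ i, ∫⁻ x, ENNReal.ofReal (Real.exp (-(s * u i x))) ∂μ ≤ ENNReal.ofReal A) :
    Sm μ fun x => ENNReal.ofReal (Real.exp (-v x)) := by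
  have mv : AEMeasurable v μ := aemeasurable_of_tendsto_metrizable_ae' hu hv
  refine ⟨by fun_prop, s, s0, ne_top_of_le_ne_top (ENNReal.ofReal_ne_top (r := A)) ?_⟩
  have k : ∀ᵐ x ∂μ, ENNReal.ofReal (Real.exp (-v x)) ^ s =
      liminf (fun i => ENNReal.ofReal (Real.exp (-(s * u i x)))) atTop := hv.mono fun x hx => by
    have t : Tendsto (fun i => ENNReal.ofReal (Real.exp (-(s * u i x)))) atTop
        (𝓝 (ENNReal.ofReal (Real.exp (-(s * v x))))) :=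
      ENNReal.tendsto_ofReal ((Real.continuous_exp.tendsto _).comp (hx.const_mul s).neg)
    rw [t.liminf_eq, ENNReal.ofReal_rpow_of_pos (Real.exp_pos _), ← Real.exp_mul]
    congr 2; ring
  rw [lintegral_congr_ae k]
  refine (lintegral_liminf_le' fun i => ?_).trans (liminf_le_of_frequently_le' ?_)
  · have := hu i
    fun_prop
  · exact Frequently.of_forall hA

/-- The pointwise bound for the inverse of the defect. -/
theorem inv_le {w L l c q N p : ℝ} {J a : ℕ} (hl : 0 ≤ l) (hL : 0 ≤ L) (hq : 0 < q) (hN : 0 < N)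
    (hp : 0 < p) (hc : (1 + N) * p ^ a ≤ c) :
    (Real.exp (l * (w + L)) * q ^ (J + 2) / N ^ (J + 1))⁻¹ ≤
      c ^ (J + 1) * (Real.exp (-w) ^ l * q⁻¹ ^ ((J : ℝ) + 2) * p⁻¹ ^ ((a : ℝ) * (J + 1))) := by
  have h1 : N ≤ c * p⁻¹ ^ a := by
    rw [inv_pow, ← div_eq_mul_inv, le_div_iff₀ (by positivity)]
    nlinarith [pow_pos hp a]
  have h2 : (Real.exp (l * (w + L)))⁻¹ ≤ Real.exp (-w) ^ l := by
    rw [← Real.exp_neg, ← Real.exp_mul, Real.exp_le_exp]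
    nlinarith [mul_nonneg hl hL]
  have e1 : q⁻¹ ^ ((J : ℝ) + 2) = q⁻¹ ^ (J + 2) := by
    rw [← Real.rpow_natCast]; push_cast; rfl
  have e2 : p⁻¹ ^ ((a : ℝ) * (J + 1)) = (p⁻¹ ^ a) ^ (J + 1) := by
    rw [← pow_mul, ← Real.rpow_natCast]; push_cast; rfl
  have c0 : 0 ≤ c := le_trans (by positivity) hc
  rw [e1, e2, inv_div, div_eq_mul_inv, mul_inv, ← inv_pow]
  calc N ^ (J + 1) * ((Real.exp (l * (w + L)))⁻¹ * q⁻¹ ^ (J + 2))
      ≤ (c * p⁻¹ ^ a) ^ (J + 1) * (Real.exp (-w) ^ l * q⁻¹ ^ (J + 2)) := by gcongr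
    _ = _ := by rw [mul_pow]; ring

/-- The pointwise bound for the reference metric. -/
theorem ref_le {T q A : ℝ} {d N : ℕ} (hd : 0 < d) (hN : 0 < N) (hT : 0 < T) (hq : 0 < q)
    (h : T ^ N * q ≤ A) :
    T ^ ((1 : ℝ) / d) * q ^ ((1 : ℝ) / (d * N : ℕ)) ≤ A ^ ((1 : ℝ) / (d * N : ℕ)) := by
  have e : T ^ ((1 : ℝ) / d) = (T ^ N) ^ ((1 : ℝ) / (d * N : ℕ)) := by
    rw [← Real.rpow_natCast, ← Real.rpow_mul hT.le]
    congr 1
    have : (d : ℝ) ≠ 0 := by positivity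
    have : (N : ℝ) ≠ 0 := by positivity
    push_cast; field_simp
  rw [e, ← Real.mul_rpow (by positivity) hq.le]
  exact Real.rpow_le_rpow (by positivity) h (by positivity)

end MIN

open MIN in
theorem rMIN (hHOL : St_HOL) (hKIT : St_KIT) (hMB : St_MB) (hMW : St_MW) : St_MIN := by
  intro n k r r₁ r₂ M _ X l J hl hJ
  obtain ⟨ms, fr, -, aO, -, -, th, pO, -, ⟨A, A0, hA⟩, -⟩ := hMB n k r r₁ r₂ M X
  obtain ⟨op, cp, T0, a0, -, -, ⟨tp, tp0, htp⟩, -, kmul, kfam, -, -, -, -, knz⟩ :=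
    hKIT n k M X.H X.p X.σ X.z X.θ X.T X.m X.D X.C X.fr
  obtain ⟨-, hB⟩ := (hMW n k r r₁ r₂ M X).1 l J hl hJ
  have : IsFiniteMeasure (M.mu X.H) := (mMU n M X.H X.fr.kae.toMet).2.1
  have rO : (M.mu X.H).restrict X.O = M.mu X.H := Measure.restrict_eq_self_of_ae_mem aO
  have r0 : (M.mu X.H).restrict (O0 X.p X.σ) = M.mu X.H := Measure.restrict_eq_self_of_ae_mem a0
  have rp : (M.mu X.H).restrict {x | 0 < X.p x} = M.mu X.H :=
    Measure.restrict_eq_self_of_ae_mem (a0.mono fun x hx => hx.1)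
  have am : ∀ {F : Type} [TopologicalSpace F] [MeasurableSpace F] [BorelSpace F] {f : M.X → F},
      ContinuousOn f X.O → AEMeasurable f (M.mu X.H) := fun hf =>
    rO ▸ hf.aemeasurable ms.op.measurableSet
  have s0 : X.O ⊆ O0 X.p X.σ := fun x hx => (pO x hx).1
  have sp : X.O ⊆ {x | 0 < X.p x} := fun x hx => (pO x hx).1.1
  have ml : ∀ {f : M.X → ℝ} {O : Set M.X}, X.O ⊆ O → (∀ x ∈ O, 0 < f x) →
      SmK M O (fun x => Real.log (f x)) → AEMeasurable f (M.mu X.H) := fun hO h0 hf =>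
    am ((Real.continuous_exp.comp_continuousOn ((KH.KIT.cont hf).mono hO)).congr fun x hx =>
      (Real.exp_log (h0 x (hO hx))).symm)
  have mκ := ml s0 X.ad.k0 X.ad.sk
  have mT := ml sp T0 X.ad.sT
  have cz : ContinuousOn X.z X.O :=
    continuousOn_pi.2 fun i => (KJ.INT.cont (X.fr.tz i).1).mono sp
  obtain ⟨-, t2, n0⟩ := kmul _ _ (X.ro.ta 0).1 (X.ro.tb 0).1
  obtain ⟨-, -, hq⟩ := knz _ t2 (n0 (X.ro.ta 0).2 (X.ro.tb 0).2)
  obtain ⟨-, -, -, -, a, c, hc⟩ := kfam (Fin r) X.h fun β => (th β).1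
  obtain ⟨su, su0, Au, hu⟩ := X.ro.mom
  have e0 : ∀ i : ℕ, (1 / ((i : ℝ) + 1)) ∈ Ioc (0 : ℝ) 1 := fun i =>
    ⟨by positivity, by rw [div_le_one (by positivity)]; linarith [i.cast_nonneg (α := ℝ)]⟩
  have g1 : Sm (M.mu X.H) fun x => ENNReal.ofReal (Real.exp (-Ul X.U (X.z x))) :=
    fatou (u := fun i x => X.U (1 / ((i : ℝ) + 1)) (X.z x)) su0
      (fun i => am ((X.ro.up.sm _ (e0 i).1).continuous.comp_continuousOn cz))
      ((aO.and X.ro.fin).mono fun x hx => ((hB x hx.1).2 hx.2).2.2.1)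
      fun i => by simpa only [Jo, rp] using hu _ (e0 i)
  have g2 : Sm (M.mu X.H) fun x => (ENNReal.ofReal (normSq (X.a 0 x * X.b 0 x)))⁻¹ :=
    ⟨(am (continuous_normSq.comp_continuousOn ((KJ.INT.cont t2.1).mono sp))).ennreal_ofReal.inv, hq⟩
  have g3 : Sm (M.mu X.H) fun x => (ENNReal.ofReal (X.p x))⁻¹ :=
    ⟨cp.aemeasurable.ennreal_ofReal.inv, tp, tp0, htp⟩
  obtain ⟨mG, s, hs0, hs⟩ := ((g1.pow hl).mul (g2.pow (a := (J : ℝ) + 2) (by positivity))).mul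
    (g3.pow (a := (a : ℝ) * (J + 1)) (by positivity))
  obtain ⟨t, ht1, ht⟩ := X.ad.int
  have hκ : ∫⁻ x, ENNReal.ofReal (X.κ x) ^ t ∂M.mu X.H ≠ ⊤ := by
    rw [Jo, r0] at ht
    rwa [lintegral_congr_ae (a0.mono fun x hx => ENNReal.ofReal_rpow_of_pos (X.ad.k0 x hx))]
  have σ0 : 0 < min 1 (s * (t - 1) / (2 * t)) := lt_min one_pos (by
    have := sub_pos.2 ht1
    positivity)
  generalize hσ : min 1 (s * (t - 1) / (2 * t)) = σ at σ0
  have σ1 : σ ≤ 1 := hσ ▸ min_le_left _ _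
  have σ2 : σ * t < s * (t - 1) := by
    have h1 : σ ≤ s * (t - 1) / (2 * t) := hσ ▸ min_le_right _ _
    rw [le_div_iff₀ (by positivity)] at h1
    nlinarith [mul_pos σ0 (one_pos.trans ht1)]
  obtain ⟨t', ht', hI⟩ :=
    (hHOL _ (M.mu X.H) _ t mκ.ennreal_ofReal ht1 hκ).2 _ s σ mG hs0 hs σ0.le σ2
  have hI1 := (hHOL _ (M.mu X.H) _ t' (mκ.ennreal_ofReal.mul (mG.pow_const σ)) ht' hI).1
  refine ⟨σ, ⟨σ0, σ1⟩, ?_⟩
  rw [Iv, Mo.μ, mf, rO, lintegral_withDensity_eq_lintegral_mul_non_measurable₀ _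
    (by fun_prop) (Eventually.of_forall fun x => ENNReal.ofReal_lt_top)]
  refine ne_top_of_le_ne_top (ENNReal.mul_ne_top (ENNReal.ofReal_ne_top
    (r := A ^ ((1 : ℝ) / (X.d * X.N : ℕ)) * (c ^ (J + 1)) ^ σ)) hI1) ?_
  rw [← lintegral_const_mul' _ _ ENNReal.ofReal_ne_top]
  refine lintegral_mono_ae (aO.mono fun x hx => ?_)
  obtain ⟨h0, ha, hb, -, -, q0⟩ := pO x hx
  have κ0 := X.ad.k0 x h0
  have Tx := T0 x h0.1
  have p0 : 0 < X.p x := h0.1
  have n1 : 0 < normSq (X.a 0 x * X.b 0 x) := normSq_pos.2 (mul_ne_zero (ha 0) (hb 0))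
  have nz : 0 ≤ nsq (X.z x) := Finset.sum_nonneg fun i _ => normSq_nonneg _
  have b0 : 0 < bt X.h (J + 1) (X.B l J) x := div_pos (hB x hx).1 (pow_pos (fr.pos x hx) _)
  have i1 := inv_le (w := Ul X.U (X.z x)) (J := J) hl
    (mul_nonneg X.ro.up.c0 (Real.log_nonneg (le_add_of_nonneg_right nz))) n1 (fr.pos x hx) p0
    (hc x p0)
  have i2 := ref_le X.ad.d0 X.ro.N0 Tx q0 (hA x hx).2.2.1
  have c0 : 0 ≤ c := le_trans (by have := fr.pos x hx; positivity) (hc x p0)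
  have i3 := ((Real.rpow_neg b0.le σ).trans (Real.inv_rpow b0.le σ).symm).trans_le
    (Real.rpow_le_rpow (inv_nonneg.2 b0.le) i1 σ0.le)
  simp only [Pi.mul_apply]
  rw [← ENNReal.ofReal_inv_of_pos n1, ← ENNReal.ofReal_inv_of_pos p0,
    ENNReal.ofReal_rpow_of_pos (Real.exp_pos _), ENNReal.ofReal_rpow_of_pos (inv_pos.2 n1),
    ENNReal.ofReal_rpow_of_pos (inv_pos.2 p0), ← ENNReal.ofReal_mul (by positivity),
    ← ENNReal.ofReal_mul (by positivity), ← ENNReal.ofReal_mul (by positivity),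
    ENNReal.ofReal_rpow_of_pos (by positivity), ← ENNReal.ofReal_mul κ0.le,
    ← ENNReal.ofReal_mul (by positivity)]
  refine ENNReal.ofReal_le_ofReal ?_
  rw [Real.mul_rpow (by positivity) (by positivity)] at i3
  calc _ = X.κ x * (X.T x ^ ((1 : ℝ) / X.d) * qt X.W X.h x ^ ((1 : ℝ) / (X.d * X.N : ℕ))) *
        bt X.h (J + 1) (X.B l J) x ^ (-σ) := by ring
    _ ≤ X.κ x * A ^ ((1 : ℝ) / (X.d * X.N : ℕ)) * _ :=
        mul_le_mul (by gcongr) i3 (by positivity) (by positivity)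
    _ = _ := by ring

end Pool.Agent.Lib.RBR
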