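import Pool.Agent.Lib.RBR.Blue

/-! Row MHB: the theorem of Hörmander for the powers of the defect. -/

open scoped Classical Topology ContDiff ComplexOrder Matrix ENNReal
open Set MeasureTheory Complex Metric Filter

noncomputable section

namespace Pool.Agent.Lib.RBR

open Pool.Agent.Lib.SV (E nsq)
open Pool.Agent.Lib.HS32
open Pool.Agent.Lib.KH (OnK SmK HoK HqB lden)
open Pool.Agent.Lib.RB9 (Fin')
open Pool.Agent.Lib.KQ (HoV)
open Pool.Agent.Lib.KJ (PsK)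

namespace MHB

theorem nn {k : ℕ} (v : E k) : 0 ≤ nsq v := Finset.sum_nonneg fun _ _ => normSq_nonneg _

theorem sm_nsq {k : ℕ} : ContDiff ℝ ∞ (nsq : E k → ℝ) := by
  unfold nsq
  refine ContDiff.sum fun j _ => ?_
  have h0 : ContDiff ℝ ∞ fun v : E k => v j := contDiff_apply ℝ ℂ j
  have h1 : ContDiff ℝ ∞ fun v : E k => (v j).re := reCLM.contDiff.comp h0
  have h2 : ContDiff ℝ ∞ fun v : E k => (v j).im := imCLM.contDiff.comp h0
  simp only [normSq_apply]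
  exact (h1.mul h1).add (h2.mul h2)

theorem sm_log {k : ℕ} : ContDiff ℝ ∞ fun v : E k => Real.log (1 + nsq v) :=
  (contDiff_const.add sm_nsq).log fun v => (add_pos_of_pos_of_nonneg one_pos (nn v)).ne'

theorem val (a q s : ℝ) (J : ℕ) (hq : 0 < q) :
    (Real.exp a * q ^ J) ^ (-s) = Real.exp (-(s * (a + J * Real.log q))) := by
  have h : Real.exp a * q ^ J = Real.exp (a + J * Real.log q) := by
    rw [Real.exp_add, Real.exp_nat_mul, Real.exp_log hq]
  rw [h, ← Real.exp_mul]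
  congr 1
  ring

theorem lim {Y : Type} (ρ : ℕ → Y → ℝ) (x : Y) (a : ℝ)
    (h : Tendsto (fun i => ρ i x) atTop (𝓝 a)) : lden ρ x = ENNReal.ofReal (Real.exp (-a)) :=
  (ENNReal.tendsto_ofReal ((Real.continuous_exp.tendsto _).comp h.neg)).liminf_eq

end MHB

open MHB in
theorem rMHB (hKIT : St_KIT) (hCHK : St_CHK) (hHQA : St_HQA) (hMB : St_MB) (hMW : St_MW)
    (hKJ : KJ.St_KIT) : St_MHB := by
  intro n k r r₁ r₂ M _ X l J s hl hJ hs
  obtain ⟨hMs, -, hC, -, -, hI, -, hO, -⟩ := hMB n k r r₁ r₂ M X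
  obtain ⟨hB, -⟩ := hMW n k r r₁ r₂ M X
  obtain ⟨hBm, hBp⟩ := hB l J hl hJ
  have hT := (hKIT n k M X.H X.p X.σ X.z X.θ X.T X.m X.D X.C X.fr).2.2.1
  have ho : IsOpen X.O := hMs.op
  obtain ⟨-, k2, -, k4, -, k6, -⟩ := hKJ n M X.O ho
  have hp : ∀ x ∈ X.O, 0 < X.p x := fun x hx => (hO x hx).1.1
  have res : ∀ f : M.X → ℂ, HoK M {x | 0 < X.p x} f → HoK M X.O f :=
    fun f hf e he w hw hx => hf e he w hw (hp _ hx)
  have hz : HoV M X.O X.z := fun i => res _ (X.fr.tz i).1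
  obtain ⟨-, -, c3, -⟩ := hCHK n k M X.O X.z ho hz
  have h0 : HoK M X.O fun x => X.a 0 x * X.b 0 x :=
    (k2 _ _ (res _ (X.ro.ta 0).1.1) (res _ (X.ro.tb 0).1.1)).2.2.1
  have n0 : ∀ x ∈ X.O, X.a 0 x * X.b 0 x ≠ 0 := fun x hx =>
    mul_ne_zero ((hO x hx).2.1 0) ((hO x hx).2.2.1 0)
  have e0 : ∀ i : ℕ, (0 : ℝ) < 1 / ((i : ℝ) + 1) := fun i => by positivity
  set ψ : ℕ → M.X → ℝ := fun i x => s * (l * (X.U (1 / ((i : ℝ) + 1)) (X.z x) +
    X.c₁ * Real.log (1 + nsq (X.z x))) +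
      ((J + 2 : ℕ) : ℝ) * Real.log (normSq (X.a 0 x * X.b 0 x))) with hψ
  have ps : ∀ i, PsK M X.O (ψ i) := fun i => by
    have a1 := (c3 (fun w => X.U (1 / ((i : ℝ) + 1)) w + X.c₁ * Real.log (1 + nsq w))
      ((X.ro.up.sm _ (e0 i)).add (contDiff_const.mul sm_log))).2.2 (X.ro.up.psh _ (e0 i))
    have a2 := (k6 _ a1).2.2.1 l hl
    have a3 := (k6 _ ((k4 _ h0).2.2 n0)).2.2.1 ((J + 2 : ℕ) : ℝ) (Nat.cast_nonneg _)
    exact (k6 _ ((k6 _ a2).2.2.2.1 _ a3)).2.2.1 s hs.le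
  have mo : ∀ i, ∀ x ∈ X.O, ψ (i + 1) x ≤ ψ i x := fun i x _ => by
    have a1 := X.ro.up.mono _ _ (X.z x) (e0 (i + 1))
      (Nat.one_div_le_one_div (α := ℝ) (Nat.le_succ i))
    simp only [hψ]
    gcongr
  have H := hHQA n M X.H X.p X.σ X.T X.d X.κ X.ε X.φ X.O 0 ψ X.fr.kae X.ad hT hC
    (fun x hx => (hO x hx).1) le_rfl ps mo
  have hg : AEMeasurable (fun x => ENNReal.ofReal (X.B l J x ^ (-s))) (M.mu X.H) :=
    (hBm.pow_const _).ennreal_ofReal
  have E1 : X.μ.withDensity (fun x => ENNReal.ofReal (X.B l J x ^ (-s))) =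
      ((M.mu X.H).restrict X.O).withDensity fun x =>
        ENNReal.ofReal (X.κ x * X.T x ^ ((1 : ℝ) / X.d + 0)) *
          lden (fun i x => 0 * (X.d : ℝ) * X.φ i x + ψ i x) x := by
    ext A hA
    rw [withDensity_apply _ hA, withDensity_apply _ hA, ← lintegral_indicator hA,
      ← lintegral_indicator hA, hI _ (hg.indicator hA)]
    refine lintegral_congr_ae ?_
    filter_upwards [ae_restrict_mem ho.measurableSet, ae_restrict_of_ae X.ro.fin] with x hx hf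
    by_cases hxA : x ∈ A
    · have ht := ((hBp x hx).2 hf).2.2.1
      have t2 : Tendsto (fun i : ℕ => 0 * (X.d : ℝ) * X.φ i x + ψ i x) atTop
          (𝓝 (s * (l * (Ul X.U (X.z x) + X.c₁ * Real.log (1 + nsq (X.z x))) +
            ((J + 2 : ℕ) : ℝ) * Real.log (normSq (X.a 0 x * X.b 0 x))))) := by
        simp only [zero_mul, zero_add, hψ]
        exact (((ht.add_const _).const_mul l).add_const _).const_mul s
      rw [indicator_of_mem hxA, indicator_of_mem hxA, add_zero, lim _ x _ t2,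
        ← val _ _ s (J + 2) (normSq_pos.2 (n0 x hx))]
      rfl
    · rw [indicator_of_notMem hxA, indicator_of_notMem hxA, mul_zero]
  rw [E1]
  exact H

end Pool.Agent.Lib.RBR
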