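import Pool.Agent.Lib.RBR.Blue
import Pool.Agent.Lib.RB9.B_WGT
import Pool.Agent.Lib.FI.B_BAS
import Pool.Agent.Lib.GH76.Pshp

/-! Block ALP: an exponential moment of the potential. -/

open scoped Classical Topology ContDiff ComplexOrder Matrix ENNReal
open Set MeasureTheory Complex Metric Filter

noncomputable section

namespace Pool.Agent.Lib.RBR

open Pool.Agent.Lib.SV (E nsq)
open Pool.Agent.Lib.HS32
open Pool.Agent.Lib.FI (hr)
open Pool.Agent.Lib.KH (OnK SmK HoK Pol Jo)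
open Pool.Agent.Lib.RB9 (Pz Up Fin')
open Pool.Agent.Lib.RB9.WGT (hr_add hr_mul hr_const hr_congr hr_comp dr dr_psd nsq0)

namespace ALP

variable {n : ℕ} {M : Mf n} {H : M.Fam (Mat n)} {p φ : M.X → ℝ} {χ : ℝ → ℝ} {B C : ℝ}

theorem cdn {k : ℕ} : ContDiff ℝ ∞ fun w : E k => Real.log (1 + nsq w) := by
  have h : ContDiff ℝ ∞ (fun w : E k => nsq w) := ContDiff.sum fun j _ => by
    have h1 : ContDiff ℝ ∞ fun w : E k => (w j).re := reCLM.contDiff.comp (contDiff_apply ℝ ℂ j)
    have h2 : ContDiff ℝ ∞ fun w : E k => (w j).im := imCLM.contDiff.comp (contDiff_apply ℝ ℂ j)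
    exact (h1.mul h1).add (h2.mul h2)
  exact (contDiff_const.add h).log fun w => (add_pos_of_pos_of_nonneg one_pos (nsq0 w)).ne'

theorem logp (hp : Pol M H p) (hH : M.Met H) : ∃ C : ℝ, 0 ≤ C ∧ OnK M {x | 0 < p x} fun e w =>
    (C • H e w + hr (fun y => Real.log (p (e.symm y))) w).PosSemidef := by
  obtain ⟨C, hC⟩ := hp.cur
  refine ⟨max C 0, le_max_right _ _, fun e he w hw hx => ?_⟩
  have sp : ContDiffAt ℝ ∞ (fun y => p (e.symm y)) w := hp.sm e he w hw
  have h0 : 0 < p (e.symm w) := hx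
  have c : ContinuousAt (fun d : ℝ => (p (e.symm w) + d)⁻¹) 0 :=
    (continuousAt_const.add continuousAt_id).inv₀ (by simpa using h0.ne')
  have t : ContinuousAt (fun d : ℝ => C • H e w + ((p (e.symm w) + d)⁻¹ •
      hess (fun y => (p (e.symm y) : ℂ)) w - ((p (e.symm w) + d)⁻¹ ^ 2) •
        dd (fun y => (p (e.symm y) : ℂ)) (fun y => (p (e.symm y) : ℂ)) w)) 0 :=
    continuousAt_const.add ((c.smul continuousAt_const).sub ((c.pow 2).smul continuousAt_const))
  have h1 := FI.BAS.psd_lim (l := 𝓝[>] (0 : ℝ)) (t.tendsto.mono_left nhdsWithin_le_nhds)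
    (Filter.mem_of_superset (Ioc_mem_nhdsGT (one_pos (α := ℝ))) fun d hd => by
      have h2 : (C • H e w + hess (fun y => ((Real.log (p (e.symm y) + d) : ℝ) : ℂ)) w -
        0).PosSemidef := hC d hd e he w hw
      rw [sub_zero, FI.BAS.hlog sp d (add_pos h0 hd.1).ne'] at h2
      exact h2)
  rw [← FI.BAS.hlog sp 0 (by simpa using h0.ne')] at h1
  simp only [add_zero] at h1
  have h3 := h1.add ((hH.pos e he w hw).posSemidef.smul (sub_nonneg.2 (le_max_left C 0)))
  have e1 : max C 0 • H e w + hr (fun y => Real.log (p (e.symm y))) w =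
      C • H e w + hess (fun y => ((Real.log (p (e.symm y)) : ℝ) : ℂ)) w + (max C 0 - C) • H e w := by
    rw [hr]
    module
  exact (congrArg Matrix.PosSemidef e1).mpr h3

theorem cut (cp : Continuous p) (p0 : ∀ x, 0 ≤ p x) (hH : M.Met H) (hC : 0 ≤ C)
    (sχ : ContDiff ℝ ∞ χ) (z0 : ∀ t, t ≤ -1 → χ t = 0) (d1 : ∀ t, deriv χ t ∈ Icc (0 : ℝ) 1)
    (d2 : ∀ t, 0 ≤ deriv (deriv χ) t) (sφ : SmK M {x | 0 < p x} φ)
    (hφ : OnK M {x | 0 < p x} fun e w => (C • H e w + M.hs φ e w).PosSemidef)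
    (ub : ∀ x, 0 < p x → φ x ≤ B + Real.log (p x)) (L a : ℝ) :
    M.Sm (fun x => (if 0 < p x then χ (φ x + L) else 0) + a) ∧
      M.Le 0 (C • H + M.hs fun x => (if 0 < p x then χ (φ x + L) else 0) + a) := by
  have key : M.All fun e w =>
      ContDiffAt ℝ ∞ (fun y => (if 0 < p (e.symm y) then χ (φ (e.symm y) + L) else 0) + a) w ∧
      (C • H e w + hr (fun y =>
        (if 0 < p (e.symm y) then χ (φ (e.symm y) + L) else 0) + a) w).PosSemidef := by
    intro e he w hw
    have c : ContinuousAt (fun y => p (e.symm y)) w :=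
      cp.continuousAt.comp (e.continuousAt_symm hw)
    have pH := (hH.pos e he w hw).posSemidef
    by_cases h : 0 < p (e.symm w)
    · have ev : (fun y => (if 0 < p (e.symm y) then χ (φ (e.symm y) + L) else 0) + a) =ᶠ[𝓝 w]
          fun y => χ (φ (e.symm y) + L) + a :=
        (c.eventually (lt_mem_nhds h)).mono fun y hy => by simp only [if_pos hy]
      have s0 : ContDiffAt ℝ ∞ (fun y => φ (e.symm y)) w := sφ e he w hw h
      have s1 : ContDiffAt ℝ ∞ (fun y => φ (e.symm y) + L) w := s0.add contDiffAt_const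
      have s2 : ContDiffAt ℝ ∞ (fun y => χ (φ (e.symm y) + L)) w := sχ.contDiffAt.comp w s1
      refine ⟨(s2.add contDiffAt_const).congr_of_eventuallyEq ev, ?_⟩
      rw [hr_congr ev, hr_add s2 contDiffAt_const, hr_const, add_zero, hr_comp s1 sχ,
        hr_add s0 contDiffAt_const, hr_const, add_zero]
      have h1 : (C • H e w + hr (fun y => φ (e.symm y)) w).PosSemidef := hφ e he w hw h
      obtain ⟨t0, t1⟩ := d1 (φ (e.symm w) + L)
      have h2 := ((h1.smul t0).add (pH.smul (mul_nonneg (sub_nonneg.2 t1) hC))).add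
        ((dr_psd s1).smul (d2 (φ (e.symm w) + L)))
      refine (congrArg Matrix.PosSemidef ?_).mp h2
      module
    · have h0 : p (e.symm w) < Real.exp (-1 - L - B) :=
        ((p0 _).antisymm' (not_lt.1 h)).trans_lt (Real.exp_pos _)
      have ev : (fun y => (if 0 < p (e.symm y) then χ (φ (e.symm y) + L) else 0) + a) =ᶠ[𝓝 w]
          fun _ => a := (c.eventually (gt_mem_nhds h0)).mono fun y hy => by
        by_cases h1 : 0 < p (e.symm y)
        · have h2 := (Real.log_lt_iff_lt_exp h1).2 hy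
          have h3 := ub _ h1
          simp only [if_pos h1, z0 _ (show φ (e.symm y) + L ≤ -1 by linarith), zero_add]
        · simp only [if_neg h1, zero_add]
      refine ⟨contDiffAt_const.congr_of_eventuallyEq ev, ?_⟩
      rw [hr_congr ev, hr_const, add_zero]
      exact pH.smul hC
  refine ⟨fun e he w hw => (key e he w hw).1, fun e he w hw => ?_⟩
  exact (congrArg Matrix.PosSemidef (sub_zero _)).mpr (key e he w hw).2

theorem core [M.Cpt] (hCVX : RB9.St_CVX) (cp : Continuous p) (p0 : ∀ x, 0 ≤ p x) (hH : M.Met H)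
    (hC : 0 ≤ C) : ∃ α > (0 : ℝ), ∃ A : ℝ, ∀ (φ g : M.X → ℝ) (B m : ℝ) (x₀ : M.X),
      SmK M {x | 0 < p x} φ →
      (OnK M {x | 0 < p x} fun e w => (C • H e w + M.hs φ e w).PosSemidef) →
      (∀ x, 0 < p x → φ x ≤ B + Real.log (p x) ∧ φ x - B ≤ g x) → 0 < p x₀ → m ≤ φ x₀ →
      Jo M H {x | 0 < p x} (fun x => Real.exp (-(α * g x))) ≤
        ENNReal.ofReal (Real.exp (α * (B - m)) * A) := by
  obtain ⟨g₀, q₀, χ, ζ, S, -, -, -, sχ, -, hχ⟩ := hCVX
  obtain ⟨α, A, α0, -, hA⟩ := GH76.skoda M C hH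
  obtain ⟨-, -, -, -, hint, -⟩ := mMU n M H hH
  refine ⟨α, α0, A, fun φ g B m x₀ sφ hφ ub h0 hm => ?_⟩
  have k := cut cp p0 hH hC sχ (fun t => (hχ t).2.1.1) (fun t => (hχ t).2.1.2.2.2.1)
    (fun t => (hχ t).2.1.2.2.2.2) sφ hφ fun x hx => (ub x hx).1
  have big : ∀ x, 0 < p x → ∀ᶠ j : ℕ in atTop,
      (if 0 < p x then χ (φ x + j) else 0) + -(j : ℝ) = φ x := fun x hx =>
    (tendsto_natCast_atTop_atTop.eventually_ge_atTop (1 - φ x)).mono fun j hj => by
      rw [if_pos hx, (hχ _).2.1.2.1 (by linarith)]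
      ring
  have c : ∀ j : ℕ, Continuous fun x => Real.exp (-(α *
      ((if 0 < p x then χ (φ x + j) else 0) + -(j : ℝ) - B))) := fun j =>
    Real.continuous_exp.comp (continuous_const.mul ((k j _).1.continuous.sub continuous_const)).neg
  have mO : MeasurableSet {x | 0 < p x} := (isOpen_lt continuous_const cp).measurableSet
  refine le_trans (lintegral_mono_ae ((ae_restrict_mem mO).mono fun x hx => ?_))
    ((lintegral_liminf_le fun j => (c j).measurable.ennreal_ofReal).trans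
      (liminf_le_of_frequently_le' ((big x₀ h0).mono fun j hj => ?_).frequently))
  · refine le_liminf_of_le (by isBoundedDefault) ((big x hx).mono fun j hj => ?_)
    rw [hj]
    exact ENNReal.ofReal_le_ofReal (Real.exp_le_exp.2
      (neg_le_neg (mul_le_mul_of_nonneg_left (ub x hx).2 α0.le)))
  · obtain ⟨y, hy⟩ := (k j (-(j : ℝ))).1.exists_max
    obtain ⟨s1, s2⟩ := k j (-(if 0 < p y then χ (φ y + j) else 0))
    have k1 := hA _ s1 s2 (fun x => by linarith [hy x]) ⟨y, add_neg_cancel _⟩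
    refine (setLIntegral_le_lintegral _ _).trans ?_
    rw [← ofReal_integral_eq_lintegral_ofReal (hint _ _ (c j)) (.of_forall fun _ =>
      (Real.exp_pos _).le)]
    refine ENNReal.ofReal_le_ofReal (le_trans ?_ (mul_le_mul_of_nonneg_left k1 (Real.exp_pos _).le))
    rw [← integral_const_mul]
    refine integral_mono (hint _ _ (c j)) (hint _ _ (continuous_const.mul (Real.continuous_exp.comp
      (continuous_const.mul s1.continuous.neg)))) fun x => ?_
    have k2 := hy x₀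
    beta_reduce at k2 ⊢
    rw [hj] at k2
    rw [← Real.exp_add, Real.exp_le_exp]
    nlinarith

end ALP

open ALP in
theorem rALP (hKIT : St_KIT) (hCHK : St_CHK) (hCVX : RB9.St_CVX) : St_ALP := by
  intro n k M _ H p σ z θ T m D C U c₁ hF hU ⟨x₀, h0, A₀, hA₀⟩
  obtain ⟨op, cp, -, -, -, -, -, -, -, fam, -⟩ := hKIT n k M H p σ z θ T m D C hF
  obtain ⟨-, -, -, -, s, c, hc⟩ := fam (Fin k) (fun i x => z x i) hF.tz
  obtain ⟨C₁, C0, hC⟩ := logp hF.pol hF.kae.toMet
  obtain ⟨-, -, chk, -⟩ := hCHK n k M _ z op fun i => (hF.tz i).1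
  have b0 : 0 ≤ c₁ * s + 1 := add_nonneg (mul_nonneg hU.c0 s.cast_nonneg) zero_le_one
  obtain ⟨α, α0, A, hA⟩ := core hCVX cp hF.pol.nn hF.kae.toMet (mul_nonneg b0 C0)
  refine ⟨α, α0, _, fun e he => hA (fun x => (U e (z x) + c₁ * Real.log (1 + nsq (z x))) +
    (c₁ * s + 1) * Real.log (p x)) _ (c₁ * Real.log c) (A₀ + c₁ * Real.log (1 + nsq (z x₀)) +
      (c₁ * s + 1) * Real.log (p x₀)) x₀ ?_ ?_ (fun x hx => ?_) h0 (by linarith [hA₀ e he.1])⟩
  · obtain ⟨s1, -, -⟩ := chk _ ((hU.sm e he.1).add (contDiff_const.mul cdn))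
    exact fun d hd w hw hx => (s1 d hd w hw hx).add
      (contDiffAt_const.mul ((hF.pol.sm d hd w hw).log (ne_of_gt hx)))
  · obtain ⟨s1, -, s3⟩ := chk _ ((hU.sm e he.1).add (contDiff_const.mul cdn))
    intro d hd w hw hx
    have a1 : ContDiffAt ℝ ∞ (fun y => U e (z (d.symm y)) +
      c₁ * Real.log (1 + nsq (z (d.symm y)))) w := s1 d hd w hw hx
    have a2 : ContDiffAt ℝ ∞ (fun y => Real.log (p (d.symm y))) w :=
      (hF.pol.sm d hd w hw).log (ne_of_gt hx)
    have a3 : (hr (fun y => U e (z (d.symm y)) + c₁ * Real.log (1 + nsq (z (d.symm y)))) w).PosSemidef :=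
      (s3 (hU.psh e he.1)).2 d hd w hw hx
    have a4 := a3.add ((hC d hd w hw hx).smul b0)
    show (((c₁ * s + 1) * C₁) • H d w + hr (fun y => (U e (z (d.symm y)) +
      c₁ * Real.log (1 + nsq (z (d.symm y)))) + (c₁ * s + 1) * Real.log (p (d.symm y))) w).PosSemidef
    rw [hr_add a1 (contDiffAt_const.mul a2), hr_mul _ a2]
    refine (congrArg Matrix.PosSemidef ?_).mp a4
    module
  · have n0 : 0 < 1 + nsq (z x) := add_pos_of_pos_of_nonneg one_pos (nsq0 _)
    have h1 := Real.log_le_log (mul_pos n0 (pow_pos hx s)) (hc x hx)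
    rw [Real.log_mul n0.ne' (pow_pos hx s).ne', Real.log_pow] at h1
    have h2 := mul_le_mul_of_nonneg_left h1 hU.c0
    have h3 : 0 ≤ Real.log (1 + nsq (z x)) := Real.log_nonneg (le_add_of_nonneg_right (nsq0 _))
    have h4 := (hU.mono e 1 (z x) he.1 he.2).trans (hU.up _)
    have h5 : Real.log (p x) ≤ 0 := Real.log_nonpos hx.le (hF.p1 x)
    constructor <;> nlinarith

end Pool.Agent.Lib.RBR
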