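import Pool.Agent.Lib.RBR.Blue

/-! Project rbr: the cells on the manifold. -/

open scoped Classical Topology ContDiff ComplexOrder Matrix ENNReal
open Set MeasureTheory Complex Metric Filter

set_option linter.unusedVariables false

noncomputable section

namespace Pool.Agent.Lib.RBR

open Pool.Agent.Lib.SV (E nsq)
open Pool.Agent.Lib.HS32
open Pool.Agent.Lib.FI (dn hr ft Good Pot jr)
open Pool.Agent.Lib.KH (OnK SmK HoK)
open Pool.Agent.Lib.RB9 (Fi Fm pb)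
open Pool.Agent.Lib.KQ (Cel HoV hn)

namespace CEL

theorem nsq0 {ι : Type} [Fintype ι] (v : ι → ℂ) : 0 ≤ nsq v :=
  Finset.sum_nonneg fun _ _ => normSq_nonneg _

theorem le_nsq {k : ℕ} (v : E k) : ‖v‖ ^ 2 ≤ nsq v := by
  have h : ‖v‖ ≤ √(nsq v) := (pi_norm_le_iff_of_nonneg (Real.sqrt_nonneg _)).2 fun i => by
    refine Real.le_sqrt_of_sq_le ?_
    rw [← Complex.normSq_eq_norm_sq]
    exact Finset.single_le_sum (f := fun i => normSq (v i)) (fun _ _ => normSq_nonneg _)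
      (Finset.mem_univ i)
  exact (pow_le_pow_left₀ (norm_nonneg _) h 2).trans_eq (Real.sq_sqrt (nsq0 v))

theorem cnsq {k : ℕ} : Continuous (nsq : E k → ℝ) :=
  continuous_finsetSum _ fun i _ => continuous_normSq.comp (continuous_apply i)

theorem fd {n r : ℕ} (H : E n → E r) (z v : E n) : fderiv ℂ H z v = jr H z *ᵥ v := by
  have : jr H z = LinearMap.toMatrix' (fderiv ℂ H z : E n →ₗ[ℂ] E r) := by
    ext i j
    rw [LinearMap.toMatrix'_apply]
    rfl
  rw [this, LinearMap.toMatrix'_mulVec]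
  rfl

theorem gram {n m : ℕ} {X : Mat n} (P : Matrix (Fin m) (Fin n) ℂ) (hX : X.PosSemidef)
    (h : ∀ v, nq X v = nsq (P *ᵥ v)) : (Pᴴ * P - X).PosSemidef := by
  have hH : (Pᴴ * P - X).IsHermitian := (Matrix.isHermitian_conjTranspose_mul_self P).sub hX.1
  refine .of_dotProduct_mulVec_nonneg hH fun v => Complex.nonneg_iff.2
    ⟨le_of_eq ?_, (hH.im_star_dotProduct_mulVec_self v).symm⟩
  have h1 : (star v ⬝ᵥ (Pᴴ * P) *ᵥ v).re = nsq (P *ᵥ v) := by
    rw [← Matrix.mulVec_mulVec, Matrix.dotProduct_mulVec, Matrix.vecMul_conjTranspose, star_star,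
      dotProduct, re_sum]
    refine Finset.sum_congr rfl fun i _ => ?_
    rw [Pi.star_apply, Complex.star_def, ← normSq_eq_conj_mul_self, ofReal_re]
  rw [Matrix.sub_mulVec, dotProduct_sub, sub_re, h1, ← h v, nq, sub_self]

theorem split {n k q : ℕ} (J : Matrix (Fin k) (Fin n) ℂ) (B : Mat k) (c : Fin q → ℝ) (η : ℝ)
    (S : Fin q → Mat n) (hη : 0 ≤ η)
    (h : ∀ i, (Jᴴ * (c i • B + η • (1 : Mat k)) * J - S i).PosSemidef) :
    (Jᴴ * ((∑ i, c i) • B + ((q + 1 : ℝ) * η) • (1 : Mat k)) * J - ∑ i, S i).PosSemidef := by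
  have e : (∑ i, c i) • B + ((q + 1 : ℝ) * η) • (1 : Mat k) =
      ∑ i, (c i • B + η • (1 : Mat k)) + η • (1 : Mat k) := by
    rw [Finset.sum_add_distrib, ← Finset.sum_smul, ← Finset.sum_smul, add_assoc, ← add_smul,
      Finset.sum_const, Finset.card_univ, Fintype.card_fin, nsmul_eq_mul, add_one_mul]
  rw [e, Matrix.mul_add, Matrix.add_mul, Matrix.mul_sum, Matrix.sum_mul, add_sub_right_comm,
    ← Finset.sum_sub_distrib]
  exact (Matrix.posSemidef_sum _ fun i _ => h i).add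
    ((Matrix.PosSemidef.one.smul hη).conjTranspose_mul_mul_same J)

end CEL

theorem rCEL (hK : KQ.St_KIT) (hCHK : St_CHK) : St_CEL := by
  intro n k M _ H p O z θ T V r Q U N q P G d F A hO hOp hz hT hft hcov hG
  obtain ⟨zc, zh, -⟩ := hCHK n k M O z hO hz
  have fd : ∀ i, ∀ y ∈ G i, ∀ᶠ y' in 𝓝 y, DifferentiableAt ℂ (P i).f y' := fun i y hy =>
    Filter.mem_of_superset ((hG i).1.mem_nhds hy) fun y' hy' =>
      (P i).hol.differentiableAt ((P i).cv.oV.mem_nhds ((hG i).2.1 hy'))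
  have fc : ∀ i, ∀ y ∈ G i, ContinuousAt (fun y => nsq ((P i).f y)) y := fun i y hy =>
    CEL.cnsq.continuousAt.comp (fd i y hy).self_of_nhds.continuousAt
  obtain ⟨Ω, hΩ, o1, o2, o3⟩ : ∃ Ω : Set (E k), IsOpen Ω ∧ (∀ y, Good H p z r p V y → y ∈ Ω) ∧
      (∀ y ∈ Ω, ∃ i, y ∈ G i ∧ nsq ((P i).f y) < 1) ∧
      ∀ y ∈ Ω, ∀ i, y ∉ G i → ∀ᶠ y' in 𝓝 y, y' ∈ G i → 16 ≤ nsq ((P i).f y') := by
    refine ⟨{y | (∃ i, y ∈ G i ∧ nsq ((P i).f y) < 1) ∧
      ∀ i, y ∈ G i ∨ ∀ᶠ y' in 𝓝 y, y' ∈ G i → 16 ≤ nsq ((P i).f y')}, ?_, fun y hy => ⟨?_, fun i => ?_⟩,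
      fun y hy => hy.1, fun y hy i hi => (hy.2 i).resolve_left hi⟩
    · refine isOpen_iff_mem_nhds.2 fun y hy => ?_
      obtain ⟨⟨i, h1, h2⟩, h3⟩ := hy
      have h4 : ∀ᶠ y' in 𝓝 y, ∀ j, y' ∈ G j ∨
          ∀ᶠ y'' in 𝓝 y', y'' ∈ G j → 16 ≤ nsq ((P j).f y'') := eventually_all.2 fun j =>
        (h3 j).elim (fun h => Filter.mem_of_superset ((hG j).1.mem_nhds h) fun _ h' => Or.inl h')
          fun h => h.eventually_nhds.mono fun _ h' => Or.inr h'
      filter_upwards [h4, (hG i).1.mem_nhds h1, (fc i y h1).eventually (gt_mem_nhds h2)]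
        with y' a1 a2 a3
      exact ⟨⟨i, a2, a3⟩, a1⟩
    · obtain ⟨i, h1, h2⟩ := hcov y hy
      exact ⟨i, (hG i).2.2.1 y h1 hy, h2⟩
    · refine ((P i).sep y hy).imp (fun h => (hG i).2.2.1 y h hy) fun h => h.mono fun y' h1 h2 => ?_
      have h3 := h1 ((hG i).2.1 h2)
      have h4 := CEL.le_nsq ((P i).f y')
      nlinarith
  have oV : ∀ i, IsOpen (O ∩ z ⁻¹' (Ω ∩ G i)) := fun i =>
    zc.isOpen_inter_preimage hO (hΩ.inter (hG i).1)
  have hol : ∀ i, OnK M (O ∩ z ⁻¹' (Ω ∩ G i)) fun e w =>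
      HolN ((fun x => (P i).f (z x)) ∘ e.symm) w := fun i e he w hw hx => by
    have h1 := zh e he w hw hx.1
    filter_upwards [h1, h1.self_of_nhds.continuousAt.eventually (fd i _ hx.2.2)] with w' a1 a2
    exact a2.comp w' a1
  have hV : ∀ i, HoV M (O ∩ z ⁻¹' (Ω ∩ G i)) fun x => (P i).f (z x) := fun i l e he w hw hx =>
    (hol i e he w hw hx).mono fun w' h => differentiableAt_pi.1 h l
  have kit := fun i => (hK n M _ _ _ (oV i) (hV i)).2.2.1
  obtain ⟨s, s0, s1, s2⟩ : ∃ s : Fin q → M.Fam (Mat n),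
      (∀ i, M.All fun e w => (s i e w).PosSemidef) ∧
      (∀ i e w, e.symm w ∈ O ∩ z ⁻¹' (Ω ∩ G i) → nsq ((P i).f (z (e.symm w))) ≤ 9 →
        s i e w = hn M (fun x => (P i).f (z x)) e w) ∧
      ∀ i e w, ¬(e.symm w ∈ O ∩ z ⁻¹' (Ω ∩ G i) ∧ nsq ((P i).f (z (e.symm w))) ≤ 9) →
        s i e w = 0 := by
    refine ⟨fun i e w => if e.symm w ∈ O ∩ z ⁻¹' (Ω ∩ G i) ∧ nsq ((P i).f (z (e.symm w))) ≤ 9 then
      hn M (fun x => (P i).f (z x)) e w else 0, fun i e he w hw => ?_,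
      fun i e w h1 h2 => if_pos ⟨h1, h2⟩, fun i e w h => if_neg h⟩
    beta_reduce
    split_ifs with h
    · exact (kit i e he w hw h.1).1
    · exact .zero
  have A0 : ∀ i, 0 ≤ A i := fun i => (hG i).2.2.2.c0
  have A1 : ∀ i, A i ≤ ∑ j, A j := fun i =>
    Finset.single_le_sum (fun j _ => A0 j) (Finset.mem_univ i)
  refine ⟨Ω, fun e w => ∑ i, s i e w, ∑ i, (P i).c,
    { q := fun i => (P i).m, r := d, V := fun i => O ∩ z ⁻¹' (Ω ∩ G i),
      e := fun i x => (P i).f (z x), F := F, op := oV, sub := fun i x hx => ⟨hx.1, hx.2.1⟩,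
      he := hV, hF := fun i l e he w hw hx => (hG i).2.2.2.hol l e he w hw ⟨hOp hx.1, hx.2.2⟩,
      ne := fun i x hx h0 => ?_, cov := fun x hx => ?_, sep := fun i x hx hx' => ?_,
      cmp := ⟨(∑ j, A j) * ∑ j, A j, fun i j x hi hj => ?_⟩,
      s0 := fun e he w hw _ => Matrix.posSemidef_sum _ fun i _ => s0 i e he w hw,
      s1 := fun i e he w hw hx h9 => ?_ },
    hΩ, o1, fun y hy => ?_, Finset.sum_nonneg fun i _ => (P i).c0, fun i => ⟨rfl, fun _ => rfl⟩,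
    fun K hK hKΩ η hη => ?_⟩
  · have h1 := (hG i).2.2.2.lo x (hOp hx.1) hx.2.2 x ⟨hOp hx.1, rfl, rfl⟩
    have h2 : nsq (F i x) = 0 := by rw [h0]; simp [nsq]
    rw [h2, mul_zero] at h1
    exact absurd (pow_pos (hT x (hOp hx.1)) N) h1.not_gt
  · obtain ⟨i, h1, h2⟩ := o2 _ hx.2
    exact ⟨i, ⟨hx.1, hx.2, h1⟩, h2⟩
  · exact ((zc.continuousAt (hO.mem_nhds hx.1)).eventually
      (o3 _ hx.2 i fun h => hx' ⟨hx.1, hx.2, h⟩)).mono fun y h1 h2 => h1 h2.2.2
  · refine ((hG i).2.2.2.up x (hOp hi.1) hi.2.2 _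
      ((hG j).2.2.2.lo x (hOp hj.1) hj.2.2)).trans ?_
    rw [← mul_assoc]
    exact mul_le_mul_of_nonneg_right (mul_le_mul (A1 i) (A1 j) (A0 j) ((A0 i).trans (A1 i)))
      (CEL.nsq0 _)
  · rw [← s1 i e w hx h9, ← Finset.sum_erase_add _ _ (Finset.mem_univ i), add_sub_cancel_right]
    exact Matrix.posSemidef_sum _ fun j _ => s0 j e he w hw
  · obtain ⟨i, h1, -⟩ := o2 y hy
    exact mem_iUnion.2 ⟨i, h1⟩
  · have hη' : 0 < η / (q + 1) := by positivity
    have hKi : ∀ i, IsCompact {y | y ∈ K ∧ y ∈ G i ∧ nsq ((P i).f y) ≤ 9} := fun i => by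
      refine hK.of_isClosed_subset (isClosed_iff_frequently.2 fun y hy => ?_) fun y hy => hy.1
      have h1 : y ∈ K := isClosed_iff_frequently.1 hK.isClosed y (hy.mono fun _ h => h.1)
      have h2 : y ∈ G i := by
        by_contra h
        obtain ⟨y', a1, a2⟩ := (hy.and_eventually (o3 y (hKΩ h1) i h)).exists
        have := a2 a1.2.1
        have := a1.2.2
        linarith
      exact ⟨h1, h2, le_of_tendsto_of_frequently (fc i y h2) (hy.mono fun _ h => h.2.2)⟩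
    filter_upwards [eventually_all.2 fun i => (P i).cur _ (hKi i) (fun y hy => (hG i).2.1 hy.2.1)
      _ hη', self_mem_nhdsWithin] with ε h1 hε e he w hw hx
    have h2 := CEL.split (jr (z ∘ e.symm) w) (ft H p z r ε (z (e.symm w))) (fun i => (P i).c)
      (η / (q + 1)) (fun i => s i e w) hη'.le fun i => by
        by_cases h : e.symm w ∈ O ∩ z ⁻¹' (Ω ∩ G i) ∧ nsq ((P i).f (z (e.symm w))) ≤ 9
        · have b1 := kit i e he w hw h.1
          have b2 := CEL.gram (jr (P i).f (z (e.symm w)) * jr (z ∘ e.symm) w) b1.1 fun v => by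
            rw [b1.2.1 v, ← Matrix.mulVec_mulVec, ← CEL.fd, ← CEL.fd]
            exact congrArg (fun L : E n →L[ℂ] E (P i).m => nsq (L v)) (fderiv_comp w
              (fd i _ h.1.2.2).self_of_nhds (zh e he w hw hx.1).self_of_nhds)
          have b3 := ((h1 i _ ⟨hx.2, h.1.2.2, h.2⟩).conjTranspose_mul_mul_same
            (jr (z ∘ e.symm) w)).add b2
          rw [Matrix.mul_sub, Matrix.sub_mul, Matrix.conjTranspose_mul] at b3
          simp only [Matrix.mul_assoc, sub_add_sub_cancel] at b3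
          rw [s1 i e w h.1 h.2, Matrix.mul_assoc]
          exact b3
        · rw [s2 i e w h, sub_zero]
          exact (((hft ε _ hε).smul (P i).c0).add
            (Matrix.PosSemidef.one.smul hη'.le)).conjTranspose_mul_mul_same _
    rw [mul_div_cancel₀ _ (by positivity)] at h2
    exact h2

end Pool.Agent.Lib.RBR
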