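import Pool.Agent.Lib.RBR.Blue

/-! Project rbr: functions of the base read on the manifold. -/

open scoped Classical Topology ContDiff ComplexOrder Matrix ENNReal
open Set MeasureTheory Complex Metric Filter

set_option linter.unusedVariables false

noncomputable section

namespace Pool.Agent.Lib.RBR

open Pool.Agent.Lib.SV (E nsq)
open Pool.Agent.Lib.HS32
open Pool.Agent.Lib.FI (hr)
open Pool.Agent.Lib.KH (OnK SmK HoK)
open Pool.Agent.Lib.RB9 (pb)

/-- Functions of the base read on the manifold. -/
theorem rCHK (hCHR : FI.St_CHR) : St_CHK := by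
  intro n k M O z hO hz
  have h1 : OnK M O fun e w => HolN (z ∘ e.symm) w := fun e he w hw hx =>
    (eventually_all.2 fun i => hz i e he w hw hx).mono fun y hy => differentiableAt_pi.2 hy
  have h2 : ∀ (A : E k → Mat k) (e : M.Ch) (w : E n), (A (z (e.symm w))).PosSemidef →
      (pb z A e w).PosSemidef := fun A e w h => h.conjTranspose_mul_mul_same _
  refine ⟨fun x hx => ?_, h1, fun f hf => ?_, fun A => ⟨h2 A, fun B t e w => ?_⟩⟩
  · obtain ⟨e, he, hs⟩ := M.cov x
    have h3 := (h1 e he (e x) (e.map_source hs) (by rwa [e.left_inv hs])).self_of_nhds.continuousAt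
    refine ((h3.comp (e.continuousAt hs)).congr ?_).continuousWithinAt
    filter_upwards [e.open_source.mem_nhds hs] with y hy
    simp only [Function.comp_apply, e.left_inv hy]
  · have a1 : SmK M O fun x => f (z x) := fun e he w hw hx =>
      hf.contDiffAt.comp w (hCHR n k _ w (h1 e he w hw hx)).1
    have a2 : OnK M O fun e w => M.hs (fun x => f (z x)) e w = pb z (hr f) e w :=
      fun e he w hw hx => (hCHR n k _ w (h1 e he w hw hx)).2.2.2.2.2 (fun y => (f y : ℂ))
        (ofRealCLM.contDiff.comp hf).contDiffAt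
    refine ⟨a1, a2, fun hp => ⟨a1, fun e he w hw hx => ?_⟩⟩
    have a3 := h2 (hr f) e w (hp _)
    rw [← a2 e he w hw hx] at a3
    exact a3
  · simp only [pb, Matrix.mul_add, Matrix.add_mul, Matrix.mul_smul, Matrix.smul_mul]

end Pool.Agent.Lib.RBR
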