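import Pool.Agent.Lib.RBR.Blue

/-! Project rbr: the standing hypotheses hold. -/

open scoped Classical Topology ENNReal
open Set MeasureTheory Complex Filter

noncomputable section

namespace Pool.Agent.Lib.RBR

open Pool.Agent.Lib.HS32
open Pool.Agent.Lib.FI (dn hz)

theorem rCX (hVOL : FI.St_VOL) (hRAD : FI.St_RAD) (hBAS : FI.St_BAS) : St_CX := by
  intro n k M _ H p σ z θ T m D C h k0
  obtain ⟨fb, jc⟩ := h.fb k0
  obtain ⟨V, vol⟩ := hVOL n k M H p z C fb
  obtain ⟨r, Ψ, rad⟩ := hRAD k k0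
  obtain ⟨op, -, ch, -⟩ := hBAS n k M H p z C fb
  refine ⟨V, r, Ψ, fb, vol, rad, jc, vol.1.lt_of_ne' fun v0 => ?_⟩
  have := (mMU n M H fb.kae.toMet).2.2.1
  have cd : ContinuousOn (dn H z) {x | 0 < p x} := by
    have : ContinuousOn (hz H z) {x | 0 < p x} :=
      continuousOn_pi.2 fun i => continuousOn_pi.2 fun j => ch i j
    exact continuous_re.comp_continuousOn (continuous_id.matrix_det.comp_continuousOn this)
  have e := vol.2 (fun _ => 1) measurable_const
  simp only [v0, ENNReal.ofReal_zero, zero_mul, one_mul] at e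
  rw [lintegral_eq_zero_iff' (cd.aemeasurable op.measurableSet).ennreal_ofReal, EventuallyEq,
    ae_restrict_iff' op.measurableSet] at e
  refine (op.measure_pos (M.mu H) h.ne).ne' (measure_eq_zero_iff_ae_notMem.2 (e.mono ?_))
  exact fun x hx hp => absurd (ENNReal.ofReal_eq_zero.1 (hx hp)) ((jc.pos x).1 hp).2.not_ge

end Pool.Agent.Lib.RBR
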