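import Pool.Agent.Lib.RBR.Blue

/-! Project rbr: a lower bound for the limit density. -/

open scoped Topology ENNReal
open Set Filter

noncomputable section

namespace Pool.Agent.Lib.RBR

open Pool.Agent.Lib.SV (nsq nsq_nonneg)
open Pool.Agent.Lib.RB9 (wt)

theorem rDLB : St_DLB := by
  intro n k M p u z U v c₁ m m₁ l c C A s hU hv ⟨b, hb⟩ m0 ml hp
  obtain ⟨N, hN⟩ := exists_nat_ge (|m * b| + |c|)
  refine ⟨s * N, ENNReal.ofReal ((2 * A) ^ N * Real.exp C), ENNReal.ofReal_ne_top,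
    fun x hx he => ?_⟩
  have t : Tendsto (fun i : ℕ => 1 / ((i : ℝ) + 1)) atTop (𝓝[>] 0) :=
    tendsto_nhdsWithin_iff.2 ⟨tendsto_one_div_add_atTop_nhds_zero_nat,
      .of_forall fun i => mem_Ioi.2 Nat.one_div_pos_of_nat⟩
  obtain ⟨i, hi⟩ := (t.eventually he).exists
  have e0 : 0 < 1 / ((i : ℝ) + 1) := Nat.one_div_pos_of_nat
  have e1 : 1 / ((i : ℝ) + 1) ≤ 1 :=
    (div_le_one (by positivity)).2 (le_add_of_nonneg_left i.cast_nonneg)
  have q := nsq_nonneg (z x)
  have l0 : 0 ≤ Real.log (1 + nsq (z x)) := Real.log_nonneg (by linarith)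
  have l1 : Real.log (1 + nsq (z x)) ≤ Real.log (2 + nsq (z x)) :=
    Real.log_le_log (by linarith) (by linarith)
  have h1 : wt z (fun _ => 0) U v m l c (1 / ((i : ℝ) + 1)) x + u x ≤
      C + N * Real.log (2 + nsq (z x)) := by
    have a1 := mul_le_mul_of_nonneg_left ((hv _ _ (z x) e0 e1).trans (hb _)) m0
    have a2 := mul_nonneg (sub_nonneg.2 ml)
      (neg_nonneg.2 ((hU.mono _ _ (z x) e0 e1).trans ((hU.up _).trans (neg_nonpos.2 l0))))
    have a3 := mul_le_mul (le_abs_self c) l1 l0 (abs_nonneg c)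
    have a4 := mul_le_mul_of_nonneg_right (le_abs_self (m * b)) (l0.trans l1)
    have a5 := mul_le_mul_of_nonneg_right hN (l0.trans l1)
    rw [wt]
    linarith
  have h2 : (2 + nsq (z x)) * p x ^ s ≤ 2 * A := by
    nlinarith [(hp x hx).2, mul_nonneg q (pow_pos hx s).le]
  have h0 : 0 ≤ (2 + nsq (z x)) * p x ^ s := by positivity
  refine le_trans ?_ (mul_le_mul_right (mul_le_mul_left (le_iSup (fun i : ℕ => ENNReal.ofReal
    (Real.exp (-wt z (fun _ => 0) U v m l c (1 / ((i : ℝ) + 1)) x))) i) _) _)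
  rw [← ENNReal.ofReal_mul (Real.exp_pos _).le, ← ENNReal.ofReal_mul
    (mul_nonneg (pow_nonneg (h0.trans h2) N) (Real.exp_pos C).le), ← Real.exp_add, ← neg_add,
    Real.exp_neg]
  refine ENNReal.ofReal_le_ofReal ((le_mul_inv_iff₀ (Real.exp_pos _)).2
    ((mul_le_mul_of_nonneg_left (Real.exp_le_exp.2 h1) (pow_pos hx _).le).trans ?_))
  rw [Real.exp_add, Real.exp_nat_mul, Real.exp_log (by linarith), pow_mul, mul_comm (Real.exp C),
    ← mul_assoc, ← mul_pow, mul_comm (p x ^ s)]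
  exact mul_le_mul_of_nonneg_right (pow_le_pow_left₀ h0 h2 N) (Real.exp_pos C).le

end Pool.Agent.Lib.RBR
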