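import Pool.Agent.Lib.RBR.Blue

/-! Project rbr, row ENR: the families are enlarged. -/

open scoped Classical Topology ContDiff ComplexOrder Matrix ENNReal
open Set MeasureTheory Complex Metric Filter

noncomputable section

namespace Pool.Agent.Lib.RBR

open Pool.Agent.Lib.SV (E nsq)
open Pool.Agent.Lib.HS32

namespace ENR

/-- An enumeration that starts at a given element. -/
theorem enu (κ : Type) [Fintype κ] (k₀ : κ) : ∃ (s : ℕ) (e : Fin (s + 1) ≃ κ), e 0 = k₀ := by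
  obtain ⟨s, hs⟩ : ∃ s, Fintype.card κ = s + 1 :=
    Nat.exists_eq_succ_of_ne_zero (Fintype.card_pos_iff.2 ⟨k₀⟩).ne'
  let e₀ := (Fintype.equivFinOfCardEq hs).symm
  refine ⟨s, (Equiv.swap 0 (e₀.symm k₀)).trans e₀, ?_⟩
  rw [Equiv.trans_apply, Equiv.swap_apply_left, Equiv.apply_symm_apply]

/-- The norm of a product family. -/
theorem ten {ι κ τ : Type} [Fintype ι] [Fintype κ] [Fintype τ] (e : τ ≃ ι × κ) (a : ι → ℂ)
    (g : κ → ℂ) : nsq (fun t => a (e t).1 * g (e t).2) = nsq a * nsq g := by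
  unfold nsq
  rw [Finset.sum_mul_sum, ← Fintype.sum_prod_type']
  exact Fintype.sum_equiv e _ _ fun t => map_mul _ _ _

theorem one_le {ι : Type} [Fintype ι] (a : ι → ℂ) (i : ι) : normSq (a i) ≤ nsq a :=
  Finset.single_le_sum (f := fun j => normSq (a j)) (fun _ _ => normSq_nonneg _) (Finset.mem_univ i)

theorem nn {ι : Type} [Fintype ι] (a : ι → ℂ) : 0 ≤ nsq a :=
  Finset.sum_nonneg fun _ _ => normSq_nonneg _

end ENR

open ENR

theorem rENR (hKIT : St_KIT) : St_ENR := by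
  intro n k M _ H p σ z θ T m D C N U c₁ c r₁ r₂ a b F R
  obtain ⟨-, -, -, -, -, -, -, tc, tm, -⟩ := hKIT n k M H p σ z θ T m D C F
  obtain ⟨x₀, hx₀⟩ := F.ne
  obtain ⟨c₀, hc₀⟩ : ∃ c₀ : ℂ, Nz p fun x => θ x + c₀ :=
    ⟨1 - θ x₀, x₀, hx₀, by simp⟩
  let g : Fin k ⊕ Fin 3 → M.X → ℂ := Sum.elim (fun i x => z x i)
    ![fun _ => 1, fun x => θ x + c₀, fun x => a 0 x * b 0 x]
  have tg : ∀ i, Tm p (g i) ∧ Nz p (g i) := by
    rintro (i | i)
    · refine ⟨F.tz i, ?_⟩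
      obtain ⟨x, hx, h⟩ := F.ind (MvPolynomial.X i) (MvPolynomial.X_ne_zero i)
      exact ⟨x, hx, fun h0 => h ((MvPolynomial.eval_X i).trans h0)⟩
    · fin_cases i
      · exact ⟨tc 1, x₀, hx₀, one_ne_zero⟩
      · exact ⟨(tm _ _ F.tθ (tc c₀)).1, hc₀⟩
      · exact ⟨(tm _ _ (R.ta 0).1 (R.tb 0).1).2.1,
          (tm _ _ (R.ta 0).1 (R.tb 0).1).2.2 (R.ta 0).2 (R.tb 0).2⟩
  have eg : ∀ x, nsq (g · x) =
      nsq (z x) + (1 + normSq (θ x + c₀) + normSq (a 0 x * b 0 x)) := by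
    intro x
    unfold nsq
    rw [Fintype.sum_sum_type, Fin.sum_univ_three]
    exact congrArg (fun t => ∑ j, normSq (z x j) + (t + normSq (θ x + c₀) + normSq (a 0 x * b 0 x)))
      (map_one normSq)
  obtain ⟨s₁, e₁, h₁⟩ := enu (Fin (r₁ + 1) × (Fin k ⊕ Fin 3)) (0, .inr 0)
  obtain ⟨s₂, e₂, h₂⟩ := enu (Fin (r₂ + 1) × (Fin k ⊕ Fin 3)) (0, .inr 0)
  obtain ⟨a', ha⟩ : ∃ a' : Fin (s₁ + 1) → M.X → ℂ,
    ∀ t x, a' t x = a (e₁ t).1 x * g (e₁ t).2 x := ⟨fun t x => _, fun _ _ => rfl⟩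
  obtain ⟨b', hb⟩ : ∃ b' : Fin (s₂ + 1) → M.X → ℂ,
    ∀ t x, b' t x = b (e₂ t).1 x * g (e₂ t).2 x := ⟨fun t x => _, fun _ _ => rfl⟩
  have na : ∀ x, nsq (a' · x) = nsq (a · x) * nsq (g · x) := fun x =>
    (congrArg nsq (funext fun t => ha t x)).trans (ten e₁ (a · x) (g · x))
  have nb : ∀ x, nsq (b' · x) = nsq (b · x) * nsq (g · x) := fun x =>
    (congrArg nsq (funext fun t => hb t x)).trans (ten e₂ (b · x) (g · x))
  have a0 : ∀ x, a' 0 x = a 0 x := fun x => by rw [ha, h₁]; exact mul_one _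
  have b0 : ∀ x, b' 0 x = b 0 x := fun x => by rw [hb, h₂]; exact mul_one _
  have g0 : ∀ x, 0 ≤ nsq (g · x) := fun x => nn _
  have key : ∀ x t, t ≤ nsq (g · x) → t * normSq (a' 0 x * b' 0 x) ≤ nsq (a' · x) * nsq (b' · x) := by
    intro x t ht
    have g1 : 1 ≤ nsq (g · x) := by
      rw [eg]
      linarith [nn (z x), normSq_nonneg (θ x + c₀), normSq_nonneg (a 0 x * b 0 x)]
    have h : normSq (a 0 x * b 0 x) ≤ nsq (a · x) * nsq (b · x) := by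
      rw [map_mul]
      exact mul_le_mul (one_le (a · x) 0) (one_le (b · x) 0) (normSq_nonneg _) (nn _)
    rw [a0, b0, na, nb]
    calc t * normSq (a 0 x * b 0 x)
        ≤ (nsq (g · x) * nsq (g · x)) * (nsq (a · x) * nsq (b · x)) :=
          mul_le_mul (ht.trans (le_mul_of_one_le_left (g0 x) g1)) h (normSq_nonneg _)
            (mul_nonneg (g0 x) (g0 x))
      _ = _ := by ring
  refine ⟨s₁, s₂, a', b', ⟨R.N0, R.c0, R.up, fun t => ?_, fun t => ?_, R.fin, R.mom, R.tub,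
    fun x hx => ?_, fun γ Q s hQ hγ => ?_, fun f hf => ?_⟩, fun x _ => key x _ ?_, fun x _ => ?_,
    fun i => ⟨e₁.symm (0, .inl i), fun x _ => ?_⟩, e₁.symm (0, .inr 1), c₀, fun x _ => ?_⟩
  · rw [show a' t = fun x => a (e₁ t).1 x * g (e₁ t).2 x from funext (ha t)]
    exact ⟨(tm _ _ (R.ta _).1 (tg _).1).2.1, (tm _ _ (R.ta _).1 (tg _).1).2.2 (R.ta _).2 (tg _).2⟩
  · rw [show b' t = fun x => b (e₂ t).1 x * g (e₂ t).2 x from funext (hb t)]
    exact ⟨(tm _ _ (R.tb _).1 (tg _).1).2.1, (tm _ _ (R.tb _).1 (tg _).1).2.2 (R.tb _).2 (tg _).2⟩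
  · rw [na, nb, ← mul_assoc, ← mul_assoc]
    exact mul_le_mul_of_nonneg_right (R.r1 x hx) (g0 x)
  · obtain ⟨A₁, h⟩ := R.r2 γ Q s hQ hγ
    refine ⟨A₁, h.mono fun x hx A hA => ?_⟩
    rw [na, nb, mul_pow, mul_pow]
    have := mul_le_mul_of_nonneg_right (hx A hA) (pow_nonneg (g0 x) Q)
    calc _ = normSq (γ x) * nsq (b · x) ^ Q * Real.exp (s * c * A) * nsq (g · x) ^ Q := by ring
      _ ≤ _ := this
      _ = _ := by ring
  · obtain ⟨A, h⟩ := R.r3 f hf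
    refine ⟨A, h.mono fun x hx => ?_⟩
    rw [na, nb, ← mul_assoc A, ENNReal.ofReal_mul' (g0 x), ENNReal.ofReal_mul' (g0 x), ← mul_assoc]
    exact mul_le_mul_left hx _
  · rw [eg]
    linarith [normSq_nonneg (θ x + c₀), normSq_nonneg (a 0 x * b 0 x)]
  · rw [sq]
    refine key x _ ?_
    rw [eg, a0, b0]
    linarith [normSq_nonneg (θ x + c₀), nn (z x)]
  · rw [ha, a0, Equiv.apply_symm_apply]
    exact mul_comm _ _
  · rw [ha, a0, Equiv.apply_symm_apply]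
    exact mul_comm _ _

end Pool.Agent.Lib.RBR
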