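import Pool.Agent.Lib.RBR.Blue
import Pool.Agent.Lib.RB9.B_U0

/-! Project rbr, row FNV: the potential is finite almost everywhere. -/

open scoped Topology ENNReal
open Set MeasureTheory Complex Metric Filter

noncomputable section

namespace Pool.Agent.Lib.RBR

open Pool.Agent.Lib.SV (E nsq)

namespace FNV

theorem cpt (k : ℕ) (R : ℝ) : IsCompact {y : E k | nsq y ≤ R} := by
  have hc : Continuous fun y : E k => nsq y := by
    unfold nsq
    fun_prop
  refine (isCompact_closedBall 0 (|R| + 1)).of_isClosed_subset (isClosed_le hc continuous_const)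
    fun y hy => mem_closedBall_zero_iff.2 ((pi_norm_le_iff_of_nonneg (by positivity)).2 fun i => ?_)
  have h1 : normSq (y i) ≤ nsq y :=
    Finset.single_le_sum (f := fun j => normSq (y j)) (fun _ _ => normSq_nonneg _) (Finset.mem_univ i)
  have h2 : nsq y ≤ R := hy
  rw [Complex.normSq_eq_norm_sq] at h1
  nlinarith [le_abs_self R, abs_nonneg R, norm_nonneg (y i), sq_nonneg (‖y i‖ - 1)]

end FNV

theorem rFNV : St_FNV := by
  intro k T v hv
  have hc : ∀ e, 0 < e → Continuous (v e) := fun e he => (hv.sm e he).1.continuous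
  refine RB9.U0.fin hc hv.mono fun R => ?_
  obtain ⟨c, hlo⟩ := hv.lo R
  have hi : ∀ e, 0 < e → IntegrableOn (v e) {y : E k | nsq y ≤ R} := fun e he =>
    (hc e he).continuousOn.integrableOn_compact (FNV.cpt k R)
  refine ⟨ENNReal.ofReal ((∫ y in {y : E k | nsq y ≤ R}, v 1 y) + c), ENNReal.ofReal_ne_top,
    fun e he h1 => ?_⟩
  have i1 : IntegrableOn (fun y => v 1 y - v e y) {y : E k | nsq y ≤ R} :=
    (hi 1 one_pos).sub (hi e he)
  rw [← ofReal_integral_eq_lintegral_ofReal i1
    (Eventually.of_forall fun y => sub_nonneg.2 (hv.mono e 1 y he h1)),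
    integral_sub (hi 1 one_pos) (hi e he)]
  exact ENNReal.ofReal_le_ofReal (by linarith [hlo e he h1])

end Pool.Agent.Lib.RBR
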