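import Pool.Agent.Lib.RBR.Blue

/-! Project rbr, row K0: the reference metric without meromorphic functions. -/

open scoped Classical Topology ContDiff ComplexOrder Matrix ENNReal
open Set MeasureTheory Complex Metric Filter

noncomputable section

namespace Pool.Agent.Lib.RBR

open Pool.Agent.Lib.SV (E nsq)
open Pool.Agent.Lib.HS32
open Pool.Agent.Lib.KH (Jo)

theorem rK0 (hKIT : St_KIT) (hTB0 : St_TB0) (hLGR : RB9.St_LGR) : St_K0 := by
  intro n M _ H p σ z θ T m D C hF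
  obtain ⟨c, hc⟩ := hTB0 n M H p σ z θ T m D C hF
  obtain ⟨-, -, hT, hae, -, -, -, h1, -, -, hq, -⟩ := hKIT n 0 M H p σ z θ T m D C hF
  obtain ⟨-, l2, l3, -⟩ := hLGR 0 m hF.al.mon
  have := (mMU n M H hF.kae.toMet).2.1
  have n0 : ∀ y : E 0, nsq y = 0 := fun y => Finset.sum_empty
  have n1 : 0 ≤ nsq fun _ : Fin (0 + 1) => (1 : ℂ) := Finset.sum_nonneg fun _ _ => normSq_nonneg _
  have nz : Nz p fun _ => 1 := hF.ne.imp fun x hx => ⟨hx, one_ne_zero⟩
  have j : ∀ (O : Set M.X) (t : ℝ), Jo M H O (fun _ => Real.exp (-(t * 0))) ≤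
      ENNReal.ofReal (M.mu H univ).toReal := fun O t => by
    rw [Jo, ENNReal.ofReal_toReal (measure_ne_top _ _), mul_zero, neg_zero, Real.exp_zero,
      ENNReal.ofReal_one, setLIntegral_one]
    exact measure_mono (subset_univ _)
  refine ⟨max c 0, one_pos, le_max_right _ _, ⟨le_rfl, fun _ _ => contDiff_const, fun e _ y => ?_,
    fun _ _ _ _ _ => le_rfl, fun y => ?_, ae_of_all _ fun _ => ⟨0, fun _ _ => le_rfl⟩⟩,
    fun _ => ⟨h1 1, nz⟩, fun _ => ⟨h1 1, nz⟩, ae_of_all _ fun _ => ⟨0, fun _ _ => le_rfl⟩,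
    ⟨1, one_pos, _, fun _ _ => j _ 1⟩, fun _ _ t _ => ⟨1, one_pos, _, fun _ _ => j _ t⟩,
    fun x hx => ?_, fun γ Q s _ hγ => ?_, fun g hg => ?_⟩
  · rw [Subsingleton.elim (FI.hr _ y) 0]
    exact Matrix.PosSemidef.zero
  · rw [n0, add_zero, Real.log_one, neg_zero]
  · rw [pow_one]
    exact mul_le_mul_of_nonneg_right (le_max_of_le_left (hc x hx)) n1
  · obtain ⟨s', hs'⟩ := hq (1 * Q) s
    obtain ⟨P, R, hP, hR⟩ := hF.fn γ (hs' γ hγ).2
    obtain ⟨x₀, -, h0⟩ := hF.ind P hP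
    obtain ⟨b, a, -, ha⟩ := l2 R
    refine ⟨(a / ‖MvPolynomial.eval (z x₀) P‖) ^ 2, hae.mono fun x hx A hA => ?_⟩
    have h2 := ha _ _ (hF.al.rt x hx.1)
    rw [n0, add_zero, one_pow, mul_one, ← hR x hx.1, Subsingleton.elim (z x) (z x₀), norm_mul,
      ← le_div_iff₀' (norm_pos_iff.2 h0)] at h2
    refine (mul_le_of_le_one_right (mul_nonneg (normSq_nonneg _) (pow_nonneg n1 _))
      (Real.exp_le_one_iff.2 (mul_nonpos_of_nonneg_of_nonpos
        (mul_nonneg s.cast_nonneg (le_max_right _ _)) (hA 1 one_pos)))).trans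
      (mul_le_mul_of_nonneg_right ?_ (pow_nonneg n1 _))
    rw [normSq_eq_norm_sq]
    exact pow_le_pow_left₀ (norm_nonneg _) h2 2
  · refine ⟨∑ s ∈ (l3 0).toFinset, (g (0, s)).toReal, (hae.and hg).mono fun x hx => ?_⟩
    have h2 := hF.al.rt x hx.1.1
    have h3 := hx.2
    rw [Subsingleton.elim (z x) 0] at h2 h3 ⊢
    have h4 : g (0, θ x) ≠ ⊤ := fun h => by
      rw [h, ENNReal.mul_top (ENNReal.ofReal_pos.2 (hT x hx.1.1)).ne'] at h3
      exact ENNReal.one_ne_top (top_le_iff.1 h3)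
    rw [pow_one, ← ENNReal.ofReal_toReal h4, ← ENNReal.ofReal_mul ENNReal.toReal_nonneg]
    exact ENNReal.ofReal_le_ofReal (mul_le_mul_of_nonneg_right
      (Finset.single_le_sum (f := fun s => (g (0, s)).toReal) (fun _ _ => ENNReal.toReal_nonneg)
        ((l3 0).mem_toFinset.2 h2)) n1)

end Pool.Agent.Lib.RBR
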