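import Pool.Agent.Lib.RBR.Blue
import Pool.Agent.Lib.KH.B_KIT

/-! Project rbr, row LDN: the limit density of the potentials. -/

open scoped Classical Topology ContDiff ComplexOrder Matrix ENNReal
open Set MeasureTheory Complex Metric Filter

set_option linter.unusedVariables false

noncomputable section

namespace Pool.Agent.Lib.RBR

open Pool.Agent.Lib.HS32
open Pool.Agent.Lib.KH (lden)

theorem rLDN (hHOL : St_HOL) : St_LDN := by
  intro n M _ H p σ T d κ ε φ y hH ad hO ae y0
  have fin := (mMU n M H hH).2.1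
  have r1 : (M.mu H).restrict (O0 p σ) = M.mu H := Measure.restrict_eq_self_of_ae_mem ae
  have r2 : (M.mu H).restrict {x | 0 < p x} = M.mu H :=
    Measure.restrict_eq_self_of_ae_mem (ae.mono fun x hx => hx.1)
  have cm : ∀ f : M.X → ℝ, ContinuousOn f (O0 p σ) → AEMeasurable f (M.mu H) := fun f hf =>
    r1 ▸ hf.aemeasurable hO.measurableSet
  have mκ : AEMeasurable κ (M.mu H) :=
    (cm _ (Real.continuous_exp.comp_continuousOn (KH.KIT.cont ad.sk))).congr
      (ae.mono fun x hx => Real.exp_log (ad.k0 x hx))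
  have mφ : ∀ (t : ℝ) i, AEMeasurable (fun x => ENNReal.ofReal (Real.exp (-(t * φ i x))))
      (M.mu H) := fun t i => (cm _ (Real.continuous_exp.comp_continuousOn (continuousOn_const.mul
        ((KH.KIT.cont (ad.sm i)).mono fun x hx => hx.1)).neg)).ennreal_ofReal
  have ml : AEMeasurable (lden fun i x => y * φ i x) (M.mu H) :=
    ⟨_, Measurable.liminf fun i => (mφ y i).measurable_mk,
      (ae_all_iff.2 fun i => (mφ y i).ae_eq_mk).mono fun x hx =>
        congrArg (liminf · atTop) (funext hx)⟩
  have mo : ∀ s : ℝ, 0 < s → ∫⁻ x, lden (fun i x => y * φ i x) x ^ s ∂M.mu H ≠ ⊤ := fun s hs => by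
    rcases y0.eq_or_lt with rfl | h
    · simp [lden]
    obtain ⟨c, hc⟩ := ad.mom (y * s) (mul_pos h hs)
    have e : ∀ x, lden (fun i x => y * φ i x) x ^ s =
        liminf (fun i => ENNReal.ofReal (Real.exp (-(y * s * φ i x)))) atTop := fun x => by
      refine ((ENNReal.monotone_rpow_of_nonneg hs.le).map_liminf_of_continuousAt _
        ENNReal.continuous_rpow_const.continuousAt).trans (congrArg (liminf · atTop)
          (funext fun i => ?_))
      rw [Function.comp_apply, ENNReal.ofReal_rpow_of_pos (Real.exp_pos _), ← Real.exp_mul,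
        neg_mul, mul_right_comm]
    simp only [e]
    refine ne_top_of_le_ne_top ENNReal.ofReal_ne_top ((lintegral_liminf_le' (mφ _)).trans
      (liminf_le_of_frequently_le' (Frequently.of_forall fun i => ?_)) : _ ≤ ENNReal.ofReal c)
    rw [← r2]
    exact hc i
  refine ⟨mκ, ml, ?_, ?_⟩
  · obtain ⟨c, hc⟩ := ad.up
    refine ⟨Real.exp (-(y * c)), Real.exp_pos _, fun x hx => le_liminf_of_le (by isBoundedDefault)
      (Eventually.of_forall fun i => ENNReal.ofReal_le_ofReal (Real.exp_le_exp.2 (neg_le_neg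
        (mul_le_mul_of_nonneg_left ?_ y0))))⟩
    exact (antitone_nat_of_succ_le (f := fun i => φ i x) (fun i => ad.mono i x hx)
      (Nat.zero_le i)).trans (hc x hx)
  · obtain ⟨t, t1, ht⟩ := ad.int
    have t0 : 0 < t - 1 := sub_pos.2 t1
    have h1 : ∫⁻ x, ENNReal.ofReal (κ x) ^ t ∂M.mu H ≠ ⊤ := by
      rw [← r1, setLIntegral_congr_fun hO.measurableSet
        fun x hx => ENNReal.ofReal_rpow_of_pos (ad.k0 x hx)]
      exact ht
    have s0 : 0 < t / (t - 1) + 1 := by positivity
    have := (hHOL _ _ _ t mκ.ennreal_ofReal t1 h1).2 _ _ 1 ml s0 (mo _ s0) zero_le_one (by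
      rw [add_mul, div_mul_cancel₀ _ t0.ne']
      linarith)
    simpa only [ENNReal.rpow_one] using this

end Pool.Agent.Lib.RBR
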