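import Pool.Agent.Lib.RBR.Blue

/-! Project rbr, row MD. -/

open scoped Classical Topology ContDiff ComplexOrder Matrix ENNReal
open Set MeasureTheory Complex Metric Filter

set_option linter.unusedVariables false

noncomputable section

namespace Pool.Agent.Lib.RBR

open Pool.Agent.Lib.SV (E nsq nsq_nonneg)
open Pool.Agent.Lib.HS32

theorem rMD (hKIT : St_KIT) (hMB : St_MB) (hMW : St_MW) (hMSE : St_MSE) (hMR2 : St_MR2)
    (hMHB : St_MHB) (hMIN : St_MIN) (hMZO : St_MZO) (hMRK : St_MRK) : St_MD := by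
  intro n k r r₁ r₂ M _ X
  obtain ⟨ms, fr, -, aeO, ae, -, hol, ne, -, ⟨A, -, hA⟩, nul⟩ := hMB n k r r₁ r₂ M X
  obtain ⟨w1, w2, w3⟩ := hMW n k r r₁ r₂ M X
  obtain ⟨fd, l, l0, r2⟩ := hMR2 n k r r₁ r₂ M X
  have ac : X.μ ≪ M.mu X.H := fun S hS => by
    have := (ae fun x => x ∉ S).2 (measure_eq_zero_iff_ae_notMem.1 hS)
    exact measure_eq_zero_iff_ae_notMem.2 this
  constructor
  · intro c F hF
    obtain ⟨s, hs⟩ := hMSE n k r r₁ r₂ M X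
    obtain ⟨F', h1, h2⟩ := hs 1 c F hF
    obtain ⟨-, -, -, -, -, -, -, -, -, -, k11, -⟩ := hKIT n k M _ _ _ _ _ _ _ _ _ X.fr
    obtain ⟨s', h3⟩ := k11 (X.N * 1) (s * (c + 1))
    obtain ⟨e, P, Q, p1, p2, p3, p4⟩ := hMRK n k r r₁ r₂ M X F' (h3 F' h1).2
    exact ⟨e, P, Q, p1, p2, p3, fun x hx => h2 x hx ▸ p4 x hx⟩
  obtain ⟨J, hJ⟩ := exists_nat_ge (l * X.c₁)
  obtain ⟨b1, b2⟩ := w1 l J l0 hJ
  refine ⟨l, J, { ms, fr with
    d0 := Nat.mul_pos X.ad.d0 X.ro.N0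
    hW := fun β => (hol β).2
    hne := fun x hx => ⟨(ne x hx).2.2.2.1, (ne x hx).2.2.2.2.1⟩
    nul := nul
    mB := b1.mono_ac ac
    B0 := ms.ae.mono fun x hx => (b2 x hx).1
    rb := ⟨1, ?_⟩
    hb := fun s hs => hMHB n k r r₁ r₂ M X l J s l0 hJ hs.1
    int := hMIN n k r r₁ r₂ M X l J l0 hJ
    u0 := fun j => ⟨(w2 j).1.mono_ac ac, ms.ae.mono (w2 j).2⟩
    r1 := fun j hj => (w3 j hj).imp fun _ h => ms.ae.mono h
    r3 := ⟨A, fun x hx => (hA x hx).2.2.2⟩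
    zo := hMZO n k r r₁ r₂ M X
    fd := fun j c _ => fd j c
    r2 := r2 J hJ }⟩
  filter_upwards [ms.ae, (ae _).2 X.ro.fin] with x hx hf
  obtain ⟨u1, -, -, u2, -⟩ := (b2 x hx).2 hf
  exact u2.trans (Real.exp_le_one_iff.2 (mul_nonpos_of_nonneg_of_nonpos l0 u1))

end Pool.Agent.Lib.RBR
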