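import Pool.Agent.Lib.RBR.Blue

/-! Project rbr, row MR2: the sections are bounded by the reference metric. -/

open scoped Classical Topology ENNReal
open Set MeasureTheory Complex Filter

noncomputable section

namespace Pool.Agent.Lib.RBR

open Pool.Agent.Lib.SV (E nsq nsq_nonneg)
open Pool.Agent.Lib.HS32
open Pool.Agent.Lib.KJ (bt)
open Pool.Agent.Lib.NV6.J (qt)

theorem rMR2 (hKIT : St_KIT) (hMB : St_MB) (hMW : St_MW) (hMSE : St_MSE) : St_MR2 := by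
  intro n k r r₁ r₂ M _ X
  obtain ⟨s, hs⟩ := hMSE n k r r₁ r₂ M X
  obtain ⟨op, -, -, -, -, -, -, -, -, -, k1, -, k2, -⟩ := hKIT n k M _ _ _ _ _ _ _ _ _ X.fr
  obtain ⟨ms, -, -, b1, b2, -, -, b3, -, ⟨A, A0, b4⟩, -⟩ := hMB n k r r₁ r₂ M X
  refine ⟨fun j c => ?_, s * X.c, mul_nonneg s.cast_nonneg X.ro.c0, fun J hJ j c hj F hF => ?_⟩
  · obtain ⟨s', h1⟩ := k1 (X.N * j) (s * (c + 1))
    obtain ⟨V, v1, v2⟩ := k2 s'
    refine ⟨V.map (LinearMap.mulLeft ℂ (X.O.indicator 1)), inferInstance, fun F hF => ?_⟩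
    obtain ⟨G, g1, g2⟩ := hs j c F hF
    obtain ⟨⟨g3, C, g4⟩, -⟩ := h1 G g1
    refine ⟨{x | 0 < X.p x}.indicator G, (v2 _).2 ⟨⟨fun e he w hw h => ?_, C, fun x hx => ?_⟩,
      fun x hx => indicator_of_notMem (s := {x | 0 < X.p x}) hx _⟩, funext fun x => ?_⟩
    · filter_upwards [g3 e he w hw h,
        ((e.continuousAt_symm hw).eventually (op.eventually_mem h)).eventually_nhds] with v l1 l2
      exact l1.congr_of_eventuallyEq (l2.mono fun u l =>
        indicator_of_mem (s := {x | 0 < X.p x}) l _)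
    · rw [indicator_of_mem (s := {x | 0 < X.p x}) hx]
      exact g4 x hx
    · rw [LinearMap.mulLeft_apply, Pi.mul_apply]
      by_cases hx : x ∈ X.O
      · rw [indicator_of_mem hx, indicator_of_mem (s := {x | 0 < X.p x}) (b3 x hx).1.1, g2 x hx,
          Pi.one_apply, one_mul]
      · rw [indicator_of_notMem hx, zero_mul, hF.2.1 x hx]
  obtain ⟨G, g1, g2⟩ := hs j c F hF
  obtain ⟨A₁, h1⟩ := X.ro.r2 G j _ hj g1
  refine ⟨|A₁| * A ^ j, (b2 _).2 ?_⟩
  filter_upwards [h1, b1, X.ro.fin] with x l1 hx l2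
  obtain ⟨w0, w1⟩ := ((hMW n k r r₁ r₂ M X).1 _ J (mul_nonneg s.cast_nonneg X.ro.c0) hJ).2 x hx
  obtain ⟨-, w2, -, w3, w4⟩ := w1 l2
  have t0 : 0 ≤ bt X.h (J + 1) (X.B (s * X.c) J) x := div_nonneg w0.le (pow_nonneg (nsq_nonneg _) _)
  have pb : 0 < nsq (X.b · x) := Finset.sum_pos (fun i _ => normSq_pos.2 ((b3 x hx).2.2.1 i))
    Finset.univ_nonempty
  have q0 := (b3 x hx).2.2.2.2.2
  have l3 := (l1 _ w2).trans ((mul_le_mul_of_nonneg_right (le_abs_self _)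
    (pow_nonneg (nsq_nonneg _) _)).trans (mul_le_mul_of_nonneg_left
      (pow_le_pow_left₀ (nsq_nonneg _) (b4 x hx).2.1 j) (abs_nonneg _)))
  rw [g2 x hx, mul_right_comm, mul_pow, mul_pow, ← mul_assoc, ← mul_assoc,
    mul_le_mul_iff_left₀ (pow_pos pb j)] at l3
  refine le_trans ?_ (mul_le_mul_of_nonneg_right l3 (pow_nonneg (nsq_nonneg _) _))
  rw [mul_assoc]
  refine mul_le_mul_of_nonneg_left ?_ (normSq_nonneg _)
  refine ((pow_succ _ _).trans_le (mul_le_mul (pow_le_pow_left₀ t0 w4 c) w3 t0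
    (pow_nonneg (t0.trans w4) _))).trans_eq ?_
  rw [mul_pow, mul_right_comm, ← pow_succ, ← Real.exp_nat_mul]
  exact congrArg (fun t => Real.exp t * _) (by push_cast; ring)

end Pool.Agent.Lib.RBR
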