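import Pool.Agent.Lib.RBR.Blue

/-! Project rbr: tame functions are quotients of forms. -/

open scoped Classical Topology ContDiff ComplexOrder Matrix ENNReal
open Set MeasureTheory Complex Metric Filter

set_option linter.unusedVariables false

noncomputable section

namespace Pool.Agent.Lib.RBR

open Pool.Agent.Lib.SV (E nsq)
open Pool.Agent.Lib.HS32
open Pool.Agent.Lib.RB9 (Pz ev)
open Pool.Agent.Lib.NV6.J (qt pv)

namespace MRK

variable {Y : Type} {r : ℕ}

/-- After multiplication by a power of `h β` the function is a form. -/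
def Hm (O : Set Y) (h : Fin r → Y → ℂ) (β : Fin r) (f : Y → ℂ) : Prop :=
  ∃ (e : ℕ) (A : MvPolynomial (Fin r) ℂ), A.IsHomogeneous e ∧
    ∀ x ∈ O, pv h A x = h β x ^ e * f x

variable {O : Set Y} {h : Fin r → Y → ℂ} {β : Fin r}

theorem up {e : ℕ} {A : MvPolynomial (Fin r) ℂ} (hA : A.IsHomogeneous e) (β : Fin r) (d : ℕ) :
    (MvPolynomial.X β ^ d * A).IsHomogeneous (d + e) := by
  have h1 := (MvPolynomial.isHomogeneous_X ℂ β).pow d
  rw [one_mul] at h1
  exact h1.mul hA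

theorem two {f g : Y → ℂ} (hf : Hm O h β f) (hg : Hm O h β g) :
    ∃ (e : ℕ) (A B : MvPolynomial (Fin r) ℂ), A.IsHomogeneous e ∧ B.IsHomogeneous e ∧
      (∀ x ∈ O, pv h A x = h β x ^ e * f x) ∧ ∀ x ∈ O, pv h B x = h β x ^ e * g x := by
  obtain ⟨e, A, hA, hA'⟩ := hf
  obtain ⟨e', B, hB, hB'⟩ := hg
  refine ⟨e' + e, MvPolynomial.X β ^ e' * A, MvPolynomial.X β ^ e * B, up hA β e', ?_, ?_, ?_⟩
  · rw [add_comm]
    exact up hB β e
  · intro x hx
    have := hA' x hx
    unfold pv at this ⊢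
    rw [map_mul, map_pow, MvPolynomial.eval_X, this]
    ring
  · intro x hx
    have := hB' x hx
    unfold pv at this ⊢
    rw [map_mul, map_pow, MvPolynomial.eval_X, this]
    ring

theorem cst (c : ℂ) : Hm O h β fun _ => c := by
  refine ⟨0, MvPolynomial.C c, MvPolynomial.isHomogeneous_C _ c, fun x hx => ?_⟩
  unfold pv
  rw [MvPolynomial.eval_C, pow_zero, one_mul]

theorem add {f g : Y → ℂ} (hf : Hm O h β f) (hg : Hm O h β g) :
    Hm O h β fun x => f x + g x := by
  obtain ⟨e, A, B, hA, hB, hA', hB'⟩ := two hf hg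
  refine ⟨e, A + B, hA.add hB, fun x hx => ?_⟩
  have h1 := hA' x hx
  have h2 := hB' x hx
  unfold pv at h1 h2 ⊢
  rw [map_add, h1, h2]
  ring

theorem mul {f g : Y → ℂ} (hf : Hm O h β f) (hg : Hm O h β g) :
    Hm O h β fun x => f x * g x := by
  obtain ⟨e, A, hA, hA'⟩ := hf
  obtain ⟨e', B, hB, hB'⟩ := hg
  refine ⟨e + e', A * B, hA.mul hB, fun x hx => ?_⟩
  have h1 := hA' x hx
  have h2 := hB' x hx
  unfold pv at h1 h2 ⊢
  rw [map_mul, h1, h2]
  ring

theorem pow {f : Y → ℂ} (hf : Hm O h β f) (d : ℕ) : Hm O h β fun x => f x ^ d := by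
  induction d with
  | zero => simpa only [pow_zero] using cst (O := O) (h := h) (β := β) 1
  | succ d ih => simpa only [pow_succ] using mul ih hf

theorem quo {f : Y → ℂ} (γ : Fin r) (hf : ∀ x ∈ O, h γ x = h β x * f x) : Hm O h β f := by
  refine ⟨1, MvPolynomial.X γ, MvPolynomial.isHomogeneous_X ℂ γ, fun x hx => ?_⟩
  unfold pv
  rw [MvPolynomial.eval_X, pow_one]
  exact hf x hx

theorem mv {k : ℕ} {z : Y → E k} (hz : ∀ i, Hm O h β fun x => z x i)
    (Q : MvPolynomial (Fin k) ℂ) : Hm O h β fun x => MvPolynomial.eval (z x) Q := by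
  induction Q using MvPolynomial.induction_on with
  | C c => simpa only [MvPolynomial.eval_C] using cst (O := O) (h := h) (β := β) c
  | add P Q hP hQ => simpa only [map_add] using add hP hQ
  | mul_X P i hP => simpa only [map_mul, MvPolynomial.eval_X] using mul hP (hz i)

theorem pz {k : ℕ} {z : Y → E k} {θ : Y → ℂ} (hz : ∀ i, Hm O h β fun x => z x i)
    (hθ : Hm O h β θ) (R : Pz k) : Hm O h β fun x => ev R (z x) (θ x) := by
  unfold ev
  induction R using Polynomial.induction_on' with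
  | add P Q hP hQ => simpa only [Polynomial.eval₂_add] using add hP hQ
  | monomial d Q => simpa only [Polynomial.eval₂_monomial] using mul (mv hz Q) (pow hθ d)

end MRK

open MRK in
theorem rMRK (hKIT : St_KIT) (hMB : St_MB) : St_MRK := by
  intro n k r r₁ r₂ M _ X F hF
  obtain ⟨-, -, -, -, hne, -, -, -, -, hpoly, -, -, -, -, hlast⟩ :=
    hKIT n k M X.H X.p X.σ X.z X.θ X.T X.m X.D X.C X.fr
  obtain ⟨-, -, -, hae, -, -, -, hO, -⟩ := hMB n k r r₁ r₂ M X
  have hz : ∀ i, Hm X.O X.h (X.e.symm (0, 0)) fun x => X.z x i := by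
    intro i
    obtain ⟨i', hi⟩ := X.en.e3 i
    refine quo (X.e.symm (i', 0)) fun x hx => ?_
    simp only [Mo.h, hh, Equiv.apply_symm_apply]
    rw [hi x (hO x hx).1.1]
    ring
  have hθ : Hm X.O X.h (X.e.symm (0, 0)) X.θ := by
    obtain ⟨i', c, hi⟩ := X.en.e4
    have h1 : Hm X.O X.h (X.e.symm (0, 0)) fun x => X.θ x + c := by
      refine quo (X.e.symm (i', 0)) fun x hx => ?_
      simp only [Mo.h, hh, Equiv.apply_symm_apply]
      rw [hi x (hO x hx).1.1]
      ring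
    simpa only [add_neg_cancel_right] using add h1 (cst (-c))
  obtain ⟨Q, R, hQ, hQR⟩ := X.fr.fn F hF
  obtain ⟨e, A, B, hA, hB, hA', hB'⟩ := two (mv hz Q) (pz hz hθ R)
  refine ⟨e, A, B, hA, hB, ?_, fun x hx => ?_⟩
  · have hT := (hpoly (Fin k) (fun i x => X.z x i) X.fr.tz).2.2.1 Q
    have h1 := (hlast _ hT (X.fr.ind Q hQ)).1
    haveI : (ae (M.mu X.H)).NeBot := ae_neBot.2 hne
    obtain ⟨x, hx, hx'⟩ := (hae.and h1).exists
    refine ⟨x, hx, ?_⟩
    rw [hA' x hx]
    exact mul_ne_zero (pow_ne_zero _ ((hO x hx).2.2.2.1 _)) hx'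
  · rw [hA' x hx, hB' x hx, ← hQR x (hO x hx).1.1]
    ring

end Pool.Agent.Lib.RBR
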