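import Pool.Agent.Lib.RBR.Blue
import Pool.Agent.Lib.KH.B_KIT

/-! Row MSE: the sections extend. -/

open scoped Classical Topology ContDiff ComplexOrder Matrix ENNReal
open Set MeasureTheory Complex Metric Filter

noncomputable section

namespace Pool.Agent.Lib.RBR

open Pool.Agent.Lib.SV (E nsq)
open Pool.Agent.Lib.HS32
open Pool.Agent.Lib.KH (OnK SmK HoK Jo)

theorem rMSE (hKIT : St_KIT) (hMB : St_MB) : St_MSE := by
  intro n k r r₁ r₂ M _ X
  obtain ⟨-, -, T0, -, -, -, -, -, k9, k10, -, k12, -⟩ :=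
    hKIT n k M X.H X.p X.σ X.z X.θ X.T X.m X.D X.C X.fr
  obtain ⟨ms, fr, -, -, -, -, m7, m8, -⟩ := hMB n k r r₁ r₂ M X
  obtain ⟨s₀, rem⟩ := X.fr.rem
  obtain ⟨s₁, c₁, lo⟩ := X.ad.lo
  obtain ⟨-, -, -, -, s₂, c₂, up⟩ := k10 _ X.h fun β => (m7 β).1
  have ta := k10 _ X.a fun i => (X.ro.ta i).1
  have tb := k10 _ X.b fun i => (X.ro.tb i).1
  obtain ⟨-, g1, g2⟩ := k9 _ _ ta.1 tb.1
  have g3 := g2 (ta.2.1 fun i => (X.ro.ta i).2) (tb.2.1 fun i => (X.ro.tb i).2)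
  have hO := ms.op.measurableSet
  obtain ⟨k1, -⟩ := KH.bKIT n M X.H X.O X.fr.kae.toMet ms.op
  have cκ := (k1 ℝ (fun x => Real.log (X.κ x))
    fun e he w hw ho => X.ad.sk e he w hw (m8 _ ho).1).1
  have cT := (k1 ℝ (fun x => Real.log (X.T x))
    fun e he w hw ho => X.ad.sT e he w hw (m8 _ ho).1.1).1
  have cρ : ContinuousOn (fun x => X.κ x * X.T x ^ ((1 : ℝ) / X.d)) X.O :=
    ((Real.continuous_exp.comp_continuousOn cκ).congr fun x hx =>
      (Real.exp_log (X.ad.k0 x (m8 x hx).1)).symm).mul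
    (((Real.continuous_exp.comp_continuousOn cT).congr fun x hx =>
      (Real.exp_log (T0 x (m8 x hx).1.1)).symm).rpow_const
      fun x hx => Or.inl (T0 x (m8 x hx).1.1).ne')
  refine ⟨s₀ * (s₁ + s₂ + 1), fun j c F hF => ?_⟩
  obtain ⟨f1, -, f3⟩ := hF
  have f4 : Jo M X.H X.O (fun x => normSq (F x) * (X.T x ^ (X.N * j) * X.p x ^ (s₁ + s₂ * c))) ≠
      ⊤ := by
    unfold KJ.Iv Mo.μ mf at f3
    rw [lintegral_withDensity_eq_lintegral_mul_non_measurable₀ _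
      (cρ.aemeasurable hO).ennreal_ofReal (ae_of_all _ fun _ => ENNReal.ofReal_lt_top)] at f3
    refine ne_top_of_le_ne_top (ENNReal.mul_ne_top
      (ENNReal.ofReal_ne_top (r := c₁ * c₂ ^ c)) f3) ?_
    rw [← lintegral_const_mul' _ _ ENNReal.ofReal_ne_top]
    refine setLIntegral_mono' hO fun x hx => ?_
    have h0 := (m8 x hx).1
    have hp : 0 < X.p x := h0.1
    have hT := T0 x hp
    have hκ := X.ad.k0 x h0
    have hn := fr.pos x hx
    have a1 := lo x h0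
    have c0 : 0 ≤ c₁ := (pos_of_mul_pos_left ((pow_pos hp _).trans_le a1) hκ.le).le
    have a2 : X.p x ^ s₂ ≤ c₂ / nsq (X.h · x) := by
      rw [le_div_iff₀ hn]
      nlinarith [up x hp, pow_pos hp s₂]
    have a3 := pow_le_pow_left₀ (pow_pos hp _).le a2 c
    have c3 : 0 ≤ c₂ := le_trans (by positivity) (up x hp)
    have e : X.T x ^ (X.N * j) = X.T x ^ ((1 : ℝ) / X.d) * X.u j x := by
      rw [Mo.u, uu, ← Real.rpow_add hT, ← Real.rpow_natCast, add_sub_cancel, Nat.cast_mul]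
    rw [Pi.mul_apply, ← ENNReal.ofReal_mul (by positivity),
      ← ENNReal.ofReal_mul (mul_nonneg c0 (pow_nonneg c3 _))]
    refine ENNReal.ofReal_le_ofReal ?_
    have a4 := mul_le_mul a1 a3 (by positivity) (mul_nonneg c0 hκ.le)
    have a5 := mul_le_mul_of_nonneg_left a4
      (mul_nonneg (normSq_nonneg (F x)) (pow_pos hT (X.N * j)).le)
    refine le_trans (le_of_eq ?_) (a5.trans (le_of_eq ?_))
    · beta_reduce
      rw [pow_add, pow_mul (X.p x)]
      ring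
    · beta_reduce
      rw [e, div_pow]
      ring
  obtain ⟨F', b1, b2⟩ := rem _ g1 g3 _ _ F f1 f4
  refine ⟨F', k12 _ _ _ _ ?_ b1, b2⟩
  rw [mul_assoc]
  exact Nat.mul_le_mul_left _ (by nlinarith [Nat.zero_le (s₁ * c), Nat.zero_le s₂, Nat.zero_le c])

end Pool.Agent.Lib.RBR
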