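import Pool.Agent.Lib.RBR.Blue

/-! Project rbr, row MSR: measures with a density that is bounded below. -/

open scoped Classical Topology ContDiff ComplexOrder Matrix ENNReal
open Set MeasureTheory Metric Filter

noncomputable section

namespace Pool.Agent.Lib.RBR

open Pool.Agent.Lib.SV (E)
open Pool.Agent.Lib.HS32 Pool.Agent.Lib.HS32.Mf

namespace MSR

/-- The measure of Lebesgue is locally bounded by the volume. -/
theorem leb {n : ℕ} {M : Mf n} [M.Cpt] {H : M.Fam (Mat n)} (hH : M.Met H) {x : M.X} {N : Set M.X}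
    (hN : N ∈ 𝓝 x) : ∃ c : ℝ≥0∞, c ≠ ⊤ ∧ ∃ W ∈ 𝓝 (M.ch x x), ∀ f : M.X → ℝ≥0∞,
      ∫⁻ z in W, f ((M.ch x).symm z) ≤ c * ∫⁻ y in N, f y ∂M.mu H := by
  have c0 := pd_det_re (hH.ev_pos x)
  have ct : ContinuousAt (fun w => (H (M.ch x) w).det.re) (M.ch x x) :=
    (Complex.continuous_re.comp (continuous_id.matrix_det)).continuousAt.comp
      (hH.sm _ (ch_mem x) _ (ch_tgt x)).continuousAt
  have h1 : (M.ch x).symm ⁻¹' N ∈ 𝓝 (M.ch x x) :=
    ((M.ch x).continuousAt_symm (ch_tgt x)).preimage_mem_nhds (by rwa [ch_symm])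
  obtain ⟨R, R0, hR⟩ := Metric.eventually_nhds_iff_ball.1 ((ct.eventually_const_le
    (half_lt_self c0)).and (Eventually.and h1 ((M.ch x).open_target.mem_nhds (ch_tgt x))))
  have c1 := (ENNReal.ofReal_pos.2 (half_pos c0)).ne'
  refine ⟨_, ENNReal.inv_ne_top.2 c1, _, ball_mem_nhds _ R0, fun f => ?_⟩
  refine le_trans ?_ (mul_le_mul' le_rfl ((((mMU n M H hH).2.2.2.2.2.1 _ (ch_mem x) _
    measurableSet_ball fun w hw => (hR w hw).2.2).2.1 f).ge.trans
      (lintegral_mono_set (image_subset_iff.2 fun w hw => (hR w hw).2.1))))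
  rw [← lintegral_const_mul' _ _ (ENNReal.inv_ne_top.2 c1)]
  refine setLIntegral_mono' measurableSet_ball fun w hw => ?_
  refine le_trans ?_ (mul_le_mul' le_rfl (mul_le_mul' (ENNReal.ofReal_le_ofReal (hR w hw).1) le_rfl))
  exact (ENNReal.inv_mul_cancel_left c1 ENNReal.ofReal_ne_top).ge

end MSR

theorem rMSR : St_MSR := by
  intro n M _ H O q ρ c ν hH hO hq q0 hρ c0 hc hν
  have := (mMU n M H hH).2.2.1
  have a1 : ∀ P : M.X → Prop, (∀ᵐ x ∂ν, P x) ↔ ∀ᵐ x ∂M.mu H, x ∈ O → P x := fun P => by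
    rw [hν, ae_withDensity_iff' hρ, ae_restrict_iff' hO.measurableSet]
    refine eventually_congr (hc.mono fun x hx => forall_congr' fun ho => imp_iff_right fun h => ?_)
    have := hx ho
    rw [h, mul_zero] at this
    exact this.not_gt (ENNReal.ofReal_pos.2 (q0 x ho))
  have a2 : ∀ x ∈ O, ∃ c' : ℝ≥0∞, c' ≠ ⊤ ∧ ∃ N ∈ 𝓝 x, (M.mu H).restrict N ≤ c' • ν := by
    intro x hx
    have oN := hq.isOpen_inter_preimage hO (isOpen_Ioi (a := q x / 2))
    have c1 := (ENNReal.ofReal_pos.2 (half_pos (q0 x hx))).ne'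
    have c2 := ENNReal.mul_ne_top (ENNReal.inv_ne_top.2 c1) c0
    refine ⟨_, c2, _, oN.mem_nhds ⟨hx, half_lt_self (q0 x hx)⟩, ?_⟩
    rw [hν, ← withDensity_smul' _ _ c2, ← Measure.restrict_restrict_of_subset inter_subset_left,
      ← withDensity_indicator_one oN.measurableSet]
    refine withDensity_mono ((ae_restrict_of_ae hc).mono fun y hy => ?_)
    refine indicator_apply_le' (fun h => ?_) fun _ => zero_le
    rw [Pi.smul_apply, smul_eq_mul, mul_assoc]
    exact (ENNReal.inv_mul_cancel c1 ENNReal.ofReal_ne_top).ge.trans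
      (mul_le_mul' le_rfl ((ENNReal.ofReal_le_ofReal (le_of_lt h.2)).trans (hy h.1)))
  have a3 : ∀ P : M.X → Prop, (∀ᵐ x ∂ν, P x) → ∀ᵐ x ∂(M.mu H).restrict O, P x := fun P h =>
    (ae_restrict_iff' hO.measurableSet).2 ((a1 P).1 h)
  refine ⟨a1, a2, fun O' _ s x hx => ?_, fun f hf h => Measure.eqOn_open_of_ae_eq (a3 _ h) hO hf
    continuousOn_const, fun f g hf hg h x hx => sup_eq_right.1 (Measure.eqOn_open_of_ae_eq
      ((a3 _ h).mono fun y hy => sup_eq_right.2 hy) hO (hf.sup hg) hg hx), fun f hf => ?_⟩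
  · obtain ⟨c', c1, N, hN, h⟩ := a2 x (s hx)
    obtain ⟨c'', c2, W, hW, h'⟩ := MSR.leb hH hN
    refine ⟨_, ch_mem x, mem_ch x, _, ENNReal.mul_ne_top c2 c1, W, hW, fun f _ => ?_⟩
    refine (h' fun y => ENNReal.ofReal (f y)).trans ?_
    rw [mul_assoc]
    exact mul_le_mul' le_rfl ((lintegral_mono' h le_rfl).trans_eq (lintegral_smul_measure _ _))
  · rw [hν, lintegral_withDensity_eq_lintegral_mul₀ hρ hf]
    rfl

end Pool.Agent.Lib.RBR
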