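import Pool.Agent.Lib.RBR.Blue

/-! Project rbr: the defect and the weights. -/

open scoped Classical Topology ContDiff ComplexOrder Matrix ENNReal
open Set MeasureTheory Complex Metric Filter

noncomputable section

namespace Pool.Agent.Lib.RBR

open Pool.Agent.Lib.SV (E nsq)
open Pool.Agent.Lib.HS32
open Pool.Agent.Lib.KH (OnK SmK HoK)
open Pool.Agent.Lib.RB9 (Up Fin')
open Pool.Agent.Lib.KJ (bt)
open Pool.Agent.Lib.NV6.J (qt pv)

namespace MW

variable {n k : ℕ} {M : Mf n}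

theorem con {F : Type} [TopologicalSpace F] {O : Set M.X} {f : M.X → F}
    (h : OnK M O fun e w => ContinuousAt (f ∘ e.symm) w) : ContinuousOn f O := fun x hx => by
  obtain ⟨e, he, hs⟩ := M.cov x
  exact (((h e he _ (e.map_source hs) (by rwa [e.left_inv hs])).comp (e.continuousAt hs)).congr
    ((e.eventually_left_inverse hs).mono fun y hy => congrArg f hy)).continuousWithinAt

theorem hoc {O : Set M.X} {f : M.X → ℂ} (h : HoK M O f) : ContinuousOn f O :=
  con fun e he w hw ho => (h e he w hw ho).self_of_nhds.continuousAt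

theorem n0 {ι : Type} [Fintype ι] (v : ι → ℂ) : 0 ≤ nsq v :=
  Finset.sum_nonneg fun _ _ => normSq_nonneg _

theorem lim {U : ℝ → E k → ℝ} {c₁ : ℝ} (hU : Up U c₁) {y : E k} (hy : Fin' U y) :
    Ul U y ≤ 0 ∧ (∀ e, 0 < e → Ul U y ≤ U e y) ∧
      Tendsto (fun i : ℕ => U (1 / ((i : ℝ) + 1)) y) atTop (𝓝 (Ul U y)) := by
  obtain ⟨A, hA⟩ := hy
  have hb : BddBelow (range fun i : ℕ => U (1 / ((i : ℝ) + 1)) y) :=
    ⟨A, by rintro _ ⟨i, rfl⟩; exact hA _ Nat.one_div_pos_of_nat⟩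
  have h2 : ∀ e, 0 < e → Ul U y ≤ U e y := fun e he => by
    obtain ⟨i, hi⟩ := exists_nat_one_div_lt he
    exact (ciInf_le hb i).trans (hU.mono _ _ y Nat.one_div_pos_of_nat hi.le)
  refine ⟨((h2 1 one_pos).trans (hU.up y)).trans (neg_nonpos.2 (Real.log_nonneg ?_)), h2,
    tendsto_atTop_ciInf (fun i j hij => hU.mono _ _ y Nat.one_div_pos_of_nat
      (Nat.one_div_le_one_div hij)) hb⟩
  linarith [n0 y]

theorem key {l c₁ u s h q : ℝ} {J : ℕ} (hJ : l * c₁ ≤ J) (hs : 0 ≤ s) (hh : 0 ≤ h) (hq : 0 < q)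
    (e1 : (1 + s) * h ≤ q) :
    Real.exp (l * (u + c₁ * Real.log (1 + s))) * h ^ (J + 2) / q ^ (J + 1) ≤
      Real.exp (l * u) * (h ^ 2 / q) := by
  have h1 : Real.exp (l * (c₁ * Real.log (1 + s))) ≤ (1 + s) ^ J := by
    rw [← mul_assoc, mul_comm, ← Real.rpow_def_of_pos (by linarith), ← Real.rpow_natCast]
    exact Real.rpow_le_rpow_of_exponent_le (by linarith) hJ
  have h2 : (1 + s) ^ J * h ^ J ≤ q ^ J := by
    rw [← mul_pow]
    exact pow_le_pow_left₀ (by positivity) e1 J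
  rw [mul_add, Real.exp_add, mul_assoc, mul_div_assoc]
  refine mul_le_mul_of_nonneg_left ?_ (Real.exp_pos _).le
  rw [div_le_div_iff₀ (pow_pos hq _) hq]
  calc Real.exp (l * (c₁ * Real.log (1 + s))) * h ^ (J + 2) * q
      ≤ (1 + s) ^ J * h ^ (J + 2) * q := by gcongr
    _ = (1 + s) ^ J * h ^ J * (h ^ 2 * q) := by ring
    _ ≤ q ^ J * (h ^ 2 * q) := by gcongr
    _ = h ^ 2 * q ^ (J + 1) := by ring

theorem pw {T q A : ℝ} {d N j : ℕ} (hd : 0 < d) (hN : 0 < N) (hj : 0 < j) (hT : 0 < T) (hq : 0 < q)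
    (h : T ^ N * q ≤ A) : T ^ ((N : ℝ) * j - 1 / d) ≤
      A ^ ((j : ℝ) - 1 / (d * N : ℕ)) * q ^ ((1 : ℝ) / (d * N : ℕ) - j) := by
  have d1 : (1 : ℝ) ≤ d := by exact_mod_cast hd
  have N1 : (1 : ℝ) ≤ N := by exact_mod_cast hN
  have j1 : (1 : ℝ) ≤ j := by exact_mod_cast hj
  have hy : (0 : ℝ) ≤ (j : ℝ) - 1 / (d * N : ℕ) := by
    have : (1 : ℝ) / (d * N : ℕ) ≤ 1 := by
      rw [div_le_one (by positivity)]
      push_cast
      nlinarith
    linarith
  have e : (N : ℝ) * j - 1 / d = N * ((j : ℝ) - 1 / (d * N : ℕ)) := by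
    push_cast
    field_simp
  have hA : 0 ≤ A := (by positivity : 0 ≤ T ^ N * q).trans h
  rw [e, Real.rpow_mul hT.le, Real.rpow_natCast, ← neg_sub (j : ℝ), Real.rpow_neg hq.le,
    ← div_eq_mul_inv, ← Real.div_rpow hA hq.le]
  exact Real.rpow_le_rpow (by positivity) ((le_div_iff₀ hq).2 h) hy

end MW

open MW in
theorem rMW (hKIT : St_KIT) (hMB : St_MB) : St_MW := by
  intro n k r r₁ r₂ M _ X
  obtain ⟨hMs, hFr, -, hae, -, -, -, hx, hn, ⟨A, -, hA⟩, -⟩ := hMB n k r r₁ r₂ M X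
  obtain ⟨-, -, hT, -⟩ := hKIT n k M _ _ _ _ _ _ _ _ _ X.fr
  have sub : X.O ⊆ {x | 0 < X.p x} := fun x h => (hx x h).1.1
  have aem : ∀ {f : M.X → ℝ}, ContinuousOn f X.O → AEMeasurable f (M.mu X.H) := fun hf => by
    rw [← Measure.restrict_eq_self_of_ae_mem hae]
    exact hf.aemeasurable hMs.op.measurableSet
  have cz : ContinuousOn X.z X.O :=
    continuousOn_pi.2 fun i => (hoc (X.fr.tz i).1).mono sub
  have cT : ContinuousOn X.T X.O :=
    ((Real.continuous_exp.comp_continuousOn (con fun e he w hw ho =>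
      (X.ad.sT e he w hw ho).continuousAt)).mono sub).congr fun x h =>
        (Real.exp_log (hT x (sub h))).symm
  refine ⟨fun l J hl hJ => ⟨?_, fun x h => ⟨?_, fun hf => ?_⟩⟩, fun j => ⟨?_, fun x h =>
    Real.rpow_pos_of_pos (hT x (sub h)) _⟩, fun j hj => ⟨_, fun x h =>
      pw X.ad.d0 X.ro.N0 hj (hT x (sub h)) (hx x h).2.2.2.2.2 (hA x h).2.2.1⟩⟩
  · have m1 : AEMeasurable (fun x => Ul X.U (X.z x)) (M.mu X.H) := AEMeasurable.iInf fun i =>
      aem ((X.ro.up.sm _ Nat.one_div_pos_of_nat).continuous.comp_continuousOn cz)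
    have m2 : AEMeasurable (fun x => nsq (X.z x)) (M.mu X.H) :=
      aem (continuousOn_finsetSum _ fun i _ =>
        Complex.continuous_normSq.comp_continuousOn ((hoc (X.fr.tz i).1).mono sub))
    have m3 : AEMeasurable (fun x => normSq (X.a 0 x * X.b 0 x)) (M.mu X.H) :=
      aem (Complex.continuous_normSq.comp_continuousOn
        (((hoc (X.ro.ta 0).1.1).mul (hoc (X.ro.tb 0).1.1)).mono sub))
    exact (Real.measurable_exp.comp_aemeasurable ((m1.add ((Real.measurable_log.comp_aemeasurable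
      (m2.const_add 1)).const_mul _)).const_mul l)).mul (m3.pow_const _)
  · exact mul_pos (Real.exp_pos _) (pow_pos (normSq_pos.2
      (mul_ne_zero ((hx x h).2.1 0) ((hx x h).2.2.1 0))) _)
  · obtain ⟨h1, h2, h3⟩ := lim X.ro.up hf
    have hq := hFr.pos x h
    have e1 := X.en.e1 x (sub h)
    have e2 := X.en.e2 x (sub h)
    rw [← hn x] at e1 e2
    have h0 := normSq_nonneg (X.a 0 x * X.b 0 x)
    have hk := key (u := Ul X.U (X.z x)) hJ (n0 (X.z x)) h0 hq e1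
    have e3 : normSq (X.a 0 x * X.b 0 x) ≤ nsq (X.h · x) := by nlinarith [n0 (X.z x)]
    refine ⟨h1, h2, h3, hk.trans (mul_le_of_le_one_right (Real.exp_pos _).le
      ((div_le_one hq).2 e2)), hk.trans (mul_le_mul_of_nonneg_left ?_ (Real.exp_pos _).le)⟩
    rw [div_le_iff₀ hq, ← sq]
    exact pow_le_pow_left₀ h0 e3 2
  · exact (aem cT).pow_const _

end Pool.Agent.Lib.RBR
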