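import Pool.Agent.Lib.RBR.Blue

/-! Project rbr, row MZO: the measures of every level on the model. -/

open scoped ENNReal ComplexOrder
open Set MeasureTheory Filter

noncomputable section

namespace Pool.Agent.Lib.RBR

open Pool.Agent.Lib.HS32
open Pool.Agent.Lib.KH (lden)
open Pool.Agent.Lib.NV6.J (qt)

namespace MZO

theorem le {Y : Type} [MeasurableSpace Y] {μ : Measure Y} {f : Y → ℝ≥0∞} (hf : AEMeasurable f μ)
    (g : Y → ℝ≥0∞) : ∫⁻ x, g x ∂μ.withDensity f ≤ ∫⁻ x, f x * g x ∂μ := by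
  rw [withDensity_congr_ae hf.ae_eq_mk]
  refine (lintegral_withDensity_le_lintegral_mul μ hf.measurable_mk g).trans
    (lintegral_congr_ae ?_).le
  filter_upwards [hf.ae_eq_mk] with x hx
  rw [Pi.mul_apply, hx]

end MZO

theorem rMZO (hHOL : St_HOL) (hKIT : St_KIT) (hHQA : St_HQA) (hLDN : St_LDN) (hMB : St_MB)
    (hMW : St_MW) : St_MZO := by
  intro n k r r₁ r₂ M _ X j hj
  have hH := X.fr.kae.toMet
  have : IsFiniteMeasure (M.mu X.H) := (mMU n M X.H hH).2.1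
  obtain ⟨-, -, T0, a0, -, c0, -⟩ := hKIT n k M X.H X.p X.σ X.z X.θ X.T X.m X.D X.C X.fr
  obtain ⟨-, -, cO, aO, aP, -, -, hO, -, ⟨A, A0, hA⟩, -⟩ := hMB n k r r₁ r₂ M X
  obtain ⟨-, hu, -⟩ := hMW n k r r₁ r₂ M X
  obtain ⟨y, hy⟩ : ∃ y : ℝ, y = (X.N : ℝ) * j - 1 / X.d := ⟨_, rfl⟩
  have y0 : 0 ≤ y := by
    have h1 : (1 : ℝ) ≤ (X.N * j : ℕ) := Nat.one_le_cast.2 (Nat.mul_pos X.ro.N0 hj)
    have h2 : (1 : ℝ) / X.d ≤ 1 := div_le_one_of_le₀ (Nat.one_le_cast.2 X.ad.d0) (by positivity)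
    rw [Nat.cast_mul] at h1
    linarith
  have eu : ∀ x, X.u j x = X.T x ^ y := fun x => by rw [hy]; rfl
  obtain ⟨mκ, mL, ⟨c, c1, c2⟩, t, t1, t2⟩ := hLDN n M X.H X.p X.σ X.T X.d X.κ X.ε X.φ (y * X.d) hH
    X.ad c0.1 a0 (by positivity)
  have hq := hHQA n M X.H X.p X.σ X.T X.d X.κ X.ε X.φ X.O y (fun _ _ => 0) X.fr.kae X.ad T0 cO
    (fun x hx => (hO x hx).1) y0
    (fun _ => ⟨fun _ _ _ _ _ => contDiffAt_const, fun e _ z _ _ =>
      (congrArg Matrix.PosSemidef (hess_const _)).mpr Matrix.PosSemidef.zero⟩) fun _ _ _ => le_rfl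
  simp only [add_zero] at hq
  generalize lden (fun i x => y * X.d * X.φ i x) = L at mL c2 t2 hq
  have mO := cO.1.measurableSet
  have m1 : AEMeasurable (fun x => ENNReal.ofReal (X.κ x * X.T x ^ ((1 : ℝ) / X.d)))
      ((M.mu X.H).restrict X.O) := (mκ.restrict.mul (((X.fr.al.tc.mono fun x hx =>
        (hO x hx).1.1).aemeasurable mO).pow_const _)).ennreal_ofReal
  have m2 : AEMeasurable (fun x => ENNReal.ofReal (X.u j x) * L x) (M.mu X.H) :=
    (hu j).1.ennreal_ofReal.mul mL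
  have k0 := fun x hx => (X.ad.k0 x (hO x hx).1).le
  have t0 := fun x hx => T0 x (hO x hx).1.1
  have e1 : ∀ x ∈ X.O, ENNReal.ofReal (X.κ x * X.T x ^ ((1 : ℝ) / X.d)) *
      (ENNReal.ofReal (X.u j x) * L x) =
      ENNReal.ofReal (X.κ x * X.T x ^ ((1 : ℝ) / X.d + y)) * L x := fun x hx => by
    rw [← mul_assoc, ← ENNReal.ofReal_mul' ((hu j).2 x hx).le, eu, Real.rpow_add (t0 x hx),
      mul_assoc]
  have e2 : X.μ.withDensity (fun x => ENNReal.ofReal (X.u j x) * L x) =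
      ((M.mu X.H).restrict X.O).withDensity fun x =>
        ENNReal.ofReal (X.κ x * X.T x ^ ((1 : ℝ) / X.d + y)) * L x :=
    (withDensity_mul₀ m1 m2.restrict).symm.trans
      (withDensity_congr_ae ((ae_restrict_mem mO).mono e1))
  refine ⟨fun x => ENNReal.ofReal (X.u j x) * L x, m2.mono_ac
    ((withDensity_absolutelyContinuous _ _).trans Measure.absolutelyContinuous_restrict),
    e2 ▸ hq, ⟨c, c1, (aP _).2 (aO.mono fun x hx => ?_)⟩, ?_⟩
  · rw [mul_comm, ENNReal.ofReal_mul' c1.le]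
    exact mul_le_mul' le_rfl (c2 x (hO x hx).1.1)
  rw [e2]
  have h1 := (hHOL _ (M.mu X.H) _ t (mκ.ennreal_ofReal.mul mL) t1 t2).1
  refine ne_top_of_le_ne_top (ENNReal.mul_ne_top (ENNReal.ofReal_ne_top (r := A ^ j)) h1)
    ((MZO.le ((m1.mul m2.restrict).congr ((ae_restrict_mem mO).mono e1)) _).trans ?_)
  rw [← lintegral_const_mul' _ _ ENNReal.ofReal_ne_top]
  refine (setLIntegral_mono' mO fun x hx => ?_).trans (setLIntegral_le_lintegral X.O _)
  have q0 := (hO x hx).2.2.2.2.2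
  have e3 : X.T x ^ ((1 : ℝ) / X.d + y) = (X.T x ^ X.N) ^ j := by
    rw [← pow_mul, ← Real.rpow_natCast, hy, Nat.cast_mul, add_sub_cancel]
  beta_reduce
  rw [Pi.mul_apply, mul_right_comm, ← mul_assoc, ← ENNReal.ofReal_mul' (by positivity),
    ← ENNReal.ofReal_mul (by positivity), e3, mul_assoc, ← mul_pow, mul_comm (A ^ j)]
  exact mul_le_mul' (ENNReal.ofReal_le_ofReal (mul_le_mul_of_nonneg_left (pow_le_pow_left₀
    (mul_pos (pow_pos (t0 x hx) _) q0).le (hA x hx).2.2.1 j) (k0 x hx))) le_rfl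

end Pool.Agent.Lib.RBR
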