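import Pool.Agent.Lib.RBR.Blue
import Pool.Agent.Lib.KQ.B_PK
import Pool.Agent.Lib.FI.B_FS

/-! Project rbr, row PKR: the two families. -/

open scoped Classical Topology ContDiff ComplexOrder Matrix ENNReal
open Set MeasureTheory Complex Metric Filter

set_option linter.unusedVariables false

noncomputable section

namespace Pool.Agent.Lib.RBR

open Pool.Agent.Lib.SV (E nsq)
open Pool.Agent.Lib.HS32
open Pool.Agent.Lib.FI (dn hr ft Good Pot)
open Pool.Agent.Lib.KH (OnK SmK HoK HqB Pol Jo Cmp lden)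
open Pool.Agent.Lib.RB9 (Pz ev Up Fin' Fi Fm Fa Cx Wd den pb)
open Pool.Agent.Lib.KQ (Cel HoV HqS Lo)
open Pool.Agent.Lib.KQ (ka Nm)

namespace PKR

variable {n k : ℕ} {M : Mf n}

theorem n0 {q : ℕ} (y : E q) : 0 ≤ nsq y := Finset.sum_nonneg fun _ _ => normSq_nonneg _

theorem lg0 {q : ℕ} (y : E q) : 0 ≤ Real.log (1 + nsq y) := Real.log_nonneg (by linarith [n0 y])

theorem sp (t : ℝ) : 0 ≤ Real.log (1 + Real.exp t) ∧ t ≤ Real.log (1 + Real.exp t) ∧
    ∀ b, 0 ≤ b → t ≤ b → Real.log (1 + Real.exp t) ≤ 1 + b := by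
  have h := Real.exp_pos t
  refine ⟨Real.log_nonneg (by linarith), (Real.le_log_iff_exp_le (by linarith)).2 (by linarith),
    fun b b0 hb => (Real.log_le_iff_le_exp (by linarith)).2 ?_⟩
  have h1 := Real.exp_le_exp.2 hb
  have h2 := Real.one_le_exp b0
  have h3 := Real.add_one_le_exp (1 : ℝ)
  rw [Real.exp_add]
  nlinarith

theorem cns {O : Set M.X} {z : M.X → E k} (cz : ContinuousOn z O) :
    ContinuousOn (fun x => Real.log (1 + nsq (z x))) O :=
  (continuousOn_const.add (continuousOn_finsetSum _ fun i _ =>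
    Complex.continuous_normSq.comp_continuousOn ((continuous_apply i).comp_continuousOn cz))).log
    fun x _ => (add_pos_of_pos_of_nonneg one_pos (n0 (z x))).ne'

theorem mden {O : Set M.X} {μ : Measure M.X} {z : M.X → E k} {U v : ℝ → E k → ℝ} (hO : IsOpen O)
    (cz : ContinuousOn z O) (hU : ∀ e, 0 < e → ContDiff ℝ ∞ (U e))
    (hv : ∀ e, 0 < e → ContDiff ℝ ∞ (v e)) (m l c : ℝ) :
    AEMeasurable (den z (fun _ => 0) U v m l c) (μ.restrict O) :=
  AEMeasurable.iSup fun i => (ENNReal.continuous_ofReal.comp_continuousOn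
    (Real.continuous_exp.comp_continuousOn (ContinuousOn.neg (((continuousOn_const.add
      (continuousOn_const.mul ((hv _ Nat.one_div_pos_of_nat).continuous.comp_continuousOn cz))).add
      (continuousOn_const.mul ((hU _ Nat.one_div_pos_of_nat).continuous.comp_continuousOn cz))).add
      (continuousOn_const.mul (cns cz)))))).aemeasurable hO.measurableSet

theorem ule {U : ℝ → E k → ℝ} {c₁ : ℝ} (h : Up U c₁) :
    ∀ᶠ e in 𝓝[>] (0 : ℝ), 0 < e ∧ ∀ y, U e y ≤ -Real.log (1 + nsq y) := by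
  filter_upwards [Ioc_mem_nhdsGT (zero_lt_one (α := ℝ))] with e he
  exact ⟨he.1, fun y => (h.mono e 1 y he.1 he.2).trans (h.up y)⟩

theorem psi {U v : ℝ → E k → ℝ} {c₁ m l c : ℝ} (h : Up U c₁)
    (vs : ∀ e, 0 < e → ContDiff ℝ ∞ (v e) ∧ ∀ y, (hr (v e) y).PosSemidef) (hm : 0 ≤ m)
    (hl : 0 ≤ l) (hc : l * c₁ ≤ c) (e : ℝ) (he : 0 < e) :
    ContDiff ℝ ∞ (fun y => m * v e y + l * U e y + c * Real.log (1 + nsq y)) ∧ ∀ y,
      (hr (fun y => m * v e y + l * U e y + c * Real.log (1 + nsq y)) y).PosSemidef := by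
  have fs := fun y : E k => FI.bFS k 1 0 y one_pos
  simp only [sub_zero] at fs
  have s1 : ContDiff ℝ ∞ fun y : E k => Real.log (1 + nsq y) := contDiff_iff_contDiffAt.2 fun y =>
    (fs y).1
  have s2 := (h.sm e he).add (contDiff_const (c := c₁).mul s1)
  have cc : ∀ {f : E k → ℝ}, ContDiff ℝ ∞ f → ∀ y, ContDiffAt ℝ ∞ (fun w => (f w : ℂ)) y :=
    fun hf y => (ofRealCLM.contDiff.comp hf).contDiffAt
  refine ⟨((contDiff_const.mul (vs e he).1).add (contDiff_const.mul (h.sm e he))).add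
    (contDiff_const.mul s1), fun y => ?_⟩
  refine (congrArg Matrix.PosSemidef ?_).mp (((((vs e he).2 y).smul hm).add
    ((h.psh e he y).smul hl)).add ((fs y).2.1.posSemidef.smul (sub_nonneg.2 hc)))
  simp only [hr, ← Complex.coe_smul]
  rw [← hess_const_mul _ (cc (vs e he).1 y), ← hess_const_mul _ (cc s2 y),
    ← hess_const_mul _ (cc s1 y), ← hess_add (contDiffAt_const.mul (cc (vs e he).1 y))
      (contDiffAt_const.mul (cc s2 y)), ← hess_add ((contDiffAt_const.mul (cc (vs e he).1 y)).add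
      (contDiffAt_const.mul (cc s2 y))) (contDiffAt_const.mul (cc s1 y))]
  refine hess_congr (Eventually.of_forall fun w => ?_)
  push_cast
  ring

end PKR

open PKR in
theorem rPKR (hKIT : St_KIT) (hCHK : St_CHK) (hMSR : St_MSR) (hTUB : St_TUB) (hHQS : St_HQS)
    (hDLB : St_DLB) (hPK : KQ.St_PK) : St_PKR := by
  intro n k M _ H p σ z θ T m D C V r Ψ N q U v Ω S w c₁ c c' c'' Γ hF hC hZ hN hW hP hG
  obtain ⟨oO, cp, T0, ae, mu0, cmp, -, kc, -, kf, kb, -, kV, -, -⟩ := hKIT n k M H p σ z θ T m D C hF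
  have hH := hF.kae.toMet
  have o0 : IsOpen (O0 p σ) := cmp.1
  have hz : HoV M (O0 p σ) z := fun i e he y hy k => (hF.tz i).1 e he y hy k.1
  obtain ⟨cz, hz', -, pbk⟩ := hCHK n k M _ z o0 hz
  have o1 : IsOpen (O0 p σ ∩ z ⁻¹' Ω) := cz.isOpen_inter_preimage o0 hP.op
  obtain ⟨a, m', m0, h⟩ := hPK n M (O0 p σ) _ S _ Γ w c'' k z hF.n0 hW hz
  obtain ⟨ϖ, mϖ, hq, ⟨s₁, B₁, B₁t, lϖ⟩, t, t1, iϖ⟩ := hZ (a * N + 1) (Nat.succ_pos _)
  obtain ⟨a₀, c₀, low⟩ := hF.low
  obtain ⟨sz, Az, hAz⟩ := (kf _ (fun i x => z x i) hF.tz).2.2.2.2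
  obtain ⟨s₀, rem⟩ := hF.rem
  have g0 := hG.c0
  have u0 := hP.up.c0
  set u : M.X → ℝ := fun x =>
    (a + 1) * Real.log (1 + Real.exp (w x)) + (n + 1) * Real.log (1 + nsq (z x)) with hu
  set m₁ : ℝ := (a + 1) * c' + (n + 1) with hm₁
  set l : ℝ := 5 * m₁ + 1 with hl
  set C₁ : ℝ := (a + 1) * (1 + c') with hC₁
  have m1 : 0 ≤ m₁ := by positivity
  have up : ∀ x, 0 ≤ u x := fun x => by
    have := (sp (w x)).1
    have := lg0 (z x)
    positivity
  have ub : ∀ K, IsCompact K → K ⊆ Ω → ∀ᶠ e in 𝓝[>] (0 : ℝ), ∀ x ∈ O0 p σ ∩ z ⁻¹' K,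
      u x + m₁ * U e (z x) ≤ C₁ := fun K hK hs => by
    filter_upwards [hG.ub K hK hs, ule hP.up] with e h1 h2 x hx
    have h3 := h2.2 (z x)
    have h4 := lg0 (z x)
    have h5 := (sp (w x)).2.2 (c' - c' * U e (z x)) (by nlinarith) (by linarith [h1 x hx.1 hx.2])
    have h6 : (0 : ℝ) ≤ a + 1 := by positivity
    have h7 : (0 : ℝ) ≤ n + 1 := by positivity
    simp only [hu, hm₁, hC₁]
    nlinarith [mul_le_mul_of_nonneg_left h5 h6, mul_le_mul_of_nonneg_left h3 h7]
  have cT : ContinuousOn T (O0 p σ) := hF.al.tc.mono fun _ hx => hx.1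
  set ρ₀ : M.X → ℝ≥0∞ := fun x => ENNReal.ofReal (T x ^ (a * N + 1)) * ϖ x with hρ₀
  have mρ : AEMeasurable ρ₀ ((M.mu H).restrict (O0 p σ)) :=
    ((cT.pow _).aemeasurable o0.measurableSet).ennreal_ofReal.mul mϖ.restrict
  have lρ : ∀ᵐ x ∂M.mu H, x ∈ O0 p σ → ENNReal.ofReal (p x ^ (a₀ * (a * N + 1) + s₁)) ≤
      (ENNReal.ofReal (|c₀| ^ (a * N + 1)) * B₁) * ρ₀ x := lϖ.mono fun x hx h0 => by
    rw [pow_add, ENNReal.ofReal_mul (pow_nonneg h0.1.le _), mul_mul_mul_comm,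
      ← ENNReal.ofReal_mul (pow_nonneg (abs_nonneg c₀) _), ← mul_pow, pow_mul]
    exact mul_le_mul' (ENNReal.ofReal_le_ofReal (pow_le_pow_left₀ (pow_nonneg h0.1.le _)
      ((low x h0.1).trans (mul_le_mul_of_nonneg_right (le_abs_self _) (T0 x h0.1).le)) _)) hx
  have bt : ENNReal.ofReal (|c₀| ^ (a * N + 1)) * B₁ ≠ ⊤ := ENNReal.mul_ne_top ENNReal.ofReal_ne_top B₁t
  obtain ⟨k1, k2, -⟩ := hMSR n M H _ (fun x => p x ^ _) ρ₀ _ _ hH o0 (cp.pow _).continuousOn
    (fun x hx => pow_pos hx.1 _) mρ bt lρ rfl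
  have hWd : Wd H (O0 p σ) (((M.mu H).restrict (O0 p σ)).withDensity ρ₀) z Ω U v c₁ (fun _ => 0)
      (m' • S) (m' * c) m₁ C₁ := by
    refine ⟨hH, o0, hq, (k1 _).2 (hP.fin.mono fun x hx h0 => ⟨h0, hx.1⟩), k2, hz', hP.op, hP.up,
      hP.sub, hP.vs, hP.vm, hP.vu, ⟨mul_nonneg m0 hP.c0, m1, by positivity⟩,
      fun _ _ _ _ _ => contDiffAt_const, fun _ _ => by simp only [neg_nonpos]; positivity,
      fun e he y hy k => (Γ.s0 e he y hy k).smul m0, fun K hK hs η η0 => ?_, fun K hK hs => ?_⟩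
    · filter_upwards [hP.cur K hK hs (η / (m' + 1)) (by positivity)] with e h1 d hd y hy k
      have h2 := ((h1 d hd y hy k).smul m0).add ((pbk fun _ => (η / (m' + 1)) • (1 : Mat _)).1 d y
        (Matrix.PosSemidef.one.smul (by positivity)))
      have e0 : M.hs (fun _ => (0 : ℝ)) d y = 0 := hess_const _
      have e1 : η = m' * (η / (m' + 1)) + η / (m' + 1) := by field_simp
      refine (congrArg Matrix.PosSemidef ?_).mp h2
      rw [e0]
      nth_rewrite 3 [e1]
      simp only [pb, Pi.smul_apply, Matrix.mul_add, Matrix.add_mul, Matrix.mul_smul,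
        Matrix.smul_mul]
      module
    · exact (ub K hK hs).mono fun e h1 x hx => by linarith [h1 x hx, up x]
  have hS := hHQS n k M H _ _ z Ω U v c₁ _ _ m₁ C₁ l (l * c₁ + 2) u hWd up ub le_rfl le_rfl
  have md := mden (μ := M.mu H) o0 cz hP.up.sm (fun e he => (hP.vs e he).1) (m' * c) l (l * c₁ + 2)
  set dd := den z (fun _ => 0) U v (m' * c) l (l * c₁ + 2) with hdd
  rw [← withDensity_mul₀ mρ md] at hS
  obtain ⟨s₂, B₂, B₂t, lb⟩ := hDLB n k M p u z U v c₁ (m' * c) m₁ l (l * c₁ + 2) C₁ Az sz hP.up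
    hP.vm hP.vu (mul_nonneg m0 hP.c0) (by linarith) fun x hx => ⟨hF.p1 x, hAz x hx⟩
  have lν : ∀ᵐ x ∂M.mu H, x ∈ O0 p σ → z x ∈ Ω ∧
      ENNReal.ofReal (p x ^ (a₀ * (a * N + 1) + s₁ + s₂)) ≤ (ENNReal.ofReal (|c₀| ^ (a * N + 1)) *
        B₁ * B₂) * ((ρ₀ * dd) x * ENNReal.ofReal (Real.exp (-u x))) := by
    filter_upwards [lρ, hP.fin] with x h1 h2 h0
    have h3 := hP.sub _ h2.1
    refine ⟨h3, ?_⟩
    rw [pow_add, ENNReal.ofReal_mul (pow_nonneg h0.1.le _), Pi.mul_apply, mul_assoc (ρ₀ x),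
      mul_mul_mul_comm]
    exact mul_le_mul' (h1 h0) (lb x h0.1 ((ub {z x} isCompact_singleton
      (singleton_subset_iff.2 h3)).mono fun e h4 => h4 x ⟨h0, rfl⟩))
  have bt' := ENNReal.mul_ne_top bt B₂t
  obtain ⟨j1, -, j3, j4, -, j6⟩ := hMSR n M H _ (fun x => p x ^ _) (ρ₀ * dd) _ _ hH o0
    (cp.pow _).continuousOn (fun x hx => pow_pos hx.1 _) (mρ.mul md) bt'
    (lν.mono fun x hx h0 => (hx h0).2.trans (mul_le_mul_right (mul_le_of_le_one_right'
      (ENNReal.ofReal_le_one.2 (Real.exp_le_one_iff.2 (neg_nonpos.2 (up x))))) _)) rfl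
  obtain ⟨W, fW, mW⟩ := kV (s₀ * (a₀ * (a * N + 1) + s₁ + s₂ + 1))
  have hW' : ∀ G ∈ W, HoK M (O0 p σ) G := fun G hG' e he y hy k => ((mW G).1 hG').1.1 e he y hy k.1
  have kau : ∀ b ∈ Icc a (a + 1), ∀ x, ka n w z b x ≤ u x := fun b hb x => by
    have h1 : (b : ℝ) ≤ a + 1 := by exact_mod_cast hb.2
    have h2 := sp (w x)
    have h3 : (0 : ℝ) ≤ b := Nat.cast_nonneg b
    simp only [ka, hu]
    nlinarith [mul_le_mul_of_nonneg_left h2.2.1 h3, mul_le_mul_of_nonneg_right h1 h2.1]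
  have ae' : ∀ᵐ x ∂M.mu H, x ∈ O0 p σ ∧ z x ∈ Ω := by
    filter_upwards [ae, lν] with x h0 hx using ⟨h0, (hx h0).1⟩
  have inj : ∀ G ∈ W, (∀ᵐ x ∂((M.mu H).restrict (O0 p σ)).withDensity (ρ₀ * dd), G x = 0) →
      G = 0 := fun G hG' g0 => by
    obtain ⟨-, -, -, i4, -⟩ := hMSR n M H _ (fun _ => 1) (fun _ => 1) 1 _ hH oO continuousOn_const
      (fun _ _ => one_pos) aemeasurable_const ENNReal.one_ne_top (.of_forall fun _ _ => by simp) rfl
    have h1 := (j1 _).1 g0
    funext x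
    by_cases k : 0 < p x
    · refine i4 G (KQ.PK.cont ((mW G).1 hG').1.1) ?_ x k
      refine (withDensity_absolutelyContinuous _ _).ae_le (ae_restrict_of_ae ?_)
      filter_upwards [h1, ae] with y h2 h3 using h2 h3
    · exact ((mW G).1 hG').2 x k
  have eO : Oz p σ (fun _ => 1) = O0 p σ := Set.ext fun x =>
    ⟨fun k => ⟨k.1, k.2.1⟩, fun k => ⟨k.1, k.2, one_ne_zero⟩⟩
  have mka : ∀ b, AEMeasurable (ka n w z b) ((M.mu H).restrict (O0 p σ)) := fun b =>
    KQ.PK.aem o1 (ae_restrict_of_ae ae') (KQ.PK.cka hW.sm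
      (fun i e he y hy k => hz i e he y hy k.1) b)
  have fd : ∀ b ∈ Icc a (a + 1), KQ.Fd M (O0 p σ)
      (((M.mu H).restrict (O0 p σ)).withDensity (ρ₀ * dd)) W (ka n w z b) := fun b hb F hF' fin => by
    have mF := (KQ.PK.cont hF').aemeasurable (μ := M.mu H) o0.measurableSet
    have mI : AEMeasurable (fun x => ENNReal.ofReal (normSq (F x) * Real.exp (-ka n w z b x)))
        ((M.mu H).restrict (O0 p σ)) := ((Complex.continuous_normSq.measurable.comp_aemeasurable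
      mF).mul (Real.measurable_exp.comp_aemeasurable (mka b).neg)).ennreal_ofReal
    rw [Nm, j6 _ mI] at fin
    obtain ⟨x₀, hx₀⟩ := hF.ne
    obtain ⟨F', f1, f2⟩ := rem (fun _ => 1) (kc 1) ⟨x₀, hx₀, one_ne_zero⟩ 0
      (a₀ * (a * N + 1) + s₁ + s₂) F (eO ▸ hF') (by
      rw [eO]
      refine ne_top_of_le_ne_top (ENNReal.mul_ne_top bt' fin) ?_
      rw [← lintegral_const_mul' _ _ bt']
      refine lintegral_mono_ae ((ae_restrict_iff' o0.measurableSet).2 (lν.mono fun x hx h0 => ?_))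
      beta_reduce
      rw [pow_zero, one_mul, ENNReal.ofReal_mul (normSq_nonneg _),
        ENNReal.ofReal_mul (normSq_nonneg _), mul_left_comm ((ρ₀ * dd) x), mul_left_comm]
      exact mul_le_mul_right ((hx h0).2.trans (mul_le_mul_right (mul_le_mul_right
        (ENNReal.ofReal_le_ofReal (Real.exp_le_exp.2 (neg_le_neg (kau b hb x)))) _) _)) _)
    refine ⟨fun x => if 0 < p x then F' x else 0, (mW _).2 ⟨⟨fun e he y hy k => ?_,
      f1.2.imp fun A hA x hx => by simp only [if_pos hx]; exact hA x hx⟩, fun x hx => if_neg hx⟩,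
      fun x hx => (if_pos hx.1).trans (f2 x (eO ▸ hx))⟩
    have ev : ∀ᶠ y' in 𝓝 y, e.symm y' ∈ {x | 0 < p x} :=
      (e.continuousAt_symm hy).eventually (oO.mem_nhds k)
    filter_upwards [f1.1 e he y hy k, ev.eventually_nhds] with y' h1 h2
    exact h1.congr_of_eventuallyEq (h2.mono fun y'' h3 => if_pos h3)
  have tub : ∃ x₀ ∈ O0 p σ ∩ z ⁻¹' Ω, ∃ r > (0 : ℝ), ∫⁻ x in {x | nsq (z x - z x₀) ≤ r ^ 2},
      ENNReal.ofReal (Real.exp (-(a * w x)))
        ∂((M.mu H).restrict (O0 p σ)).withDensity (ρ₀ * dd) ≠ ⊤ := by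
    have : NeZero (M.mu H) := ⟨mu0⟩
    obtain ⟨x₀, ⟨x1, x2⟩, x3, x4⟩ := (ae'.and hP.fin).exists
    have l0 : 0 ≤ l := by positivity
    have mc := mul_nonneg m0 hP.c0
    have c3 : 0 ≤ l * c₁ + 2 := by positivity
    obtain ⟨ρ, ρ0, hρ⟩ := hTUB n k M H p σ z θ T m D C V r Ψ
      (fun e y => m' * c * v e y + l * U e y + (l * c₁ + 2) * Real.log (1 + nsq y)) (z x₀) ϖ t hF hC
      (psi hP.up hP.vs mc l0 (by linarith)) (fun e e' y h1 h2 => by
        linarith [mul_le_mul_of_nonneg_left (hP.vm e e' y h1 h2) mc,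
          mul_le_mul_of_nonneg_left (hP.up.mono e e' y h1 h2) l0]) (by
        obtain ⟨A, hA⟩ := x3
        obtain ⟨A', hA'⟩ := x4
        exact ⟨m' * c * A' + l * A, fun e he => by
          linarith [mul_le_mul_of_nonneg_left (hA' e he) mc, mul_le_mul_of_nonneg_left (hA e he) l0,
            mul_nonneg c3 (lg0 (z x₀))]⟩) mϖ t1 iϖ
    obtain ⟨δ, δ0, hδ⟩ := nhds_basis_closedBall.mem_iff.1
      (inter_mem (hP.op.mem_nhds x2) (ball_mem_nhds _ ρ0))
    obtain ⟨e, e1, e0, -⟩ := ((hG.ub _ (isCompact_closedBall (z x₀) δ)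
      (hδ.trans inter_subset_left)).and (ule hP.up)).exists
    obtain ⟨A, hA⟩ := (isCompact_closedBall (z x₀) δ).exists_bound_of_continuousOn
      (hP.up.sm e e0).continuous.continuousOn
    have hb : ∀ x, nsq (z x - z x₀) ≤ δ ^ 2 → z x ∈ closedBall (z x₀) δ := fun x hx => by
      rw [mem_closedBall, dist_eq_norm, pi_norm_le_iff_of_nonneg δ0.le]
      intro i
      refine (pow_le_pow_iff_left₀ (norm_nonneg _) δ0.le two_ne_zero).1 (le_trans ?_ hx)
      rw [← Complex.normSq_eq_norm_sq]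
      exact Finset.single_le_sum (f := fun i => normSq ((z x - z x₀) i))
        (fun _ _ => normSq_nonneg _) (Finset.mem_univ i)
    refine ⟨x₀, ⟨x1, x2⟩, δ, δ0, ?_⟩
    have mz : AEMeasurable z ((M.mu H).restrict (O0 p σ)) := cz.aemeasurable o0.measurableSet
    have mw : AEMeasurable w ((M.mu H).restrict (O0 p σ)) :=
      KQ.PK.aem o1 (ae_restrict_of_ae ae') (KH.KIT.cont hW.sm)
    have oB : IsOpen {x | 0 < p x ∧ z x ∈ ball (z x₀) ρ} :=
      (hCHK n k M _ z oO fun i => (hF.tz i).1).1.isOpen_inter_preimage oO isOpen_ball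
    set K : ℝ := c' ^ a * (1 + c' * Real.exp (c' + c' * A)) with hK
    refine ne_top_of_le_ne_top (ENNReal.mul_ne_top (ENNReal.ofReal_ne_top (r := K)) hρ) ?_
    rw [← lintegral_const_mul' _ _ ENNReal.ofReal_ne_top, ← lintegral_indicator oB.measurableSet]
    have mI : AEMeasurable (fun x => (closedBall (z x₀) δ).indicator (fun _ => (1 : ℝ≥0∞)) (z x) *
        ENNReal.ofReal (Real.exp (-(a * w x)))) ((M.mu H).restrict (O0 p σ)) :=
      ((measurable_const.indicator measurableSet_closedBall).comp_aemeasurable mz).mul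
        (Real.measurable_exp.comp_aemeasurable (mw.const_mul _).neg).ennreal_ofReal
    calc _ ≤ ∫⁻ x, (closedBall (z x₀) δ).indicator (fun _ => (1 : ℝ≥0∞)) (z x) *
          ENNReal.ofReal (Real.exp (-(a * w x)))
          ∂((M.mu H).restrict (O0 p σ)).withDensity (ρ₀ * dd) := by
          have mS : NullMeasurableSet {x | nsq (z x - z x₀) ≤ δ ^ 2}
              (((M.mu H).restrict (O0 p σ)).withDensity (ρ₀ * dd)) :=
            nullMeasurableSet_le (((continuous_finsetSum _ fun i _ => Complex.continuous_normSq.comp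
              ((continuous_apply i).comp (continuous_id.sub continuous_const))).measurable
              (f := fun y : E k => nsq (y - z x₀))).comp_aemeasurable
              (mz.mono_ac (withDensity_absolutelyContinuous _ _))) aemeasurable_const
          refine (lintegral_mono_ae ((ae_restrict_iff'₀ mS).2 (.of_forall fun x hx => ?_))).trans
            (setLIntegral_le_lintegral _ _)
          rw [indicator_of_mem (hb x hx), one_mul]
      _ ≤ _ := by
          rw [j6 _ mI]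
          refine (lintegral_mono_ae ((ae_restrict_iff' o0.measurableSet).2
            (.of_forall fun x h0 => ?_))).trans (setLIntegral_le_lintegral _ _)
          by_cases hx : z x ∈ closedBall (z x₀) δ
          swap
          · rw [indicator_of_notMem hx, zero_mul, mul_zero]
            exact zero_le
          rw [indicator_of_mem hx, one_mul, indicator_of_mem (show x ∈ {x | 0 < p x ∧
            z x ∈ ball (z x₀) ρ} from ⟨h0.1, (hδ hx).2⟩)]
          have e2 : dd x = ⨆ i : ℕ, ENNReal.ofReal (Real.exp (-(m' * c * v (1 / ((i : ℝ) + 1)) (z x) +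
              l * U (1 / ((i : ℝ) + 1)) (z x) + (l * c₁ + 2) * Real.log (1 + nsq (z x))))) := by
            simp only [hdd, den, RB9.wt, zero_add]
          rw [← e2, Pi.mul_apply, hρ₀, mul_assoc, mul_assoc, mul_comm (dd x), ← mul_assoc (ϖ x),
            mul_comm (ϖ x), mul_assoc, ← mul_assoc,
            ← ENNReal.ofReal_mul (pow_nonneg (T0 x h0.1).le _)]
          refine mul_le_mul_left (ENNReal.ofReal_le_ofReal ?_) _
          have q1 := hG.lo x h0 (hδ hx).1
          have q2 := e1 x h0 hx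
          have q3 := (abs_le.1 (hA _ hx)).1
          have q4 : Real.exp (w x) ≤ Real.exp (c' + c' * A) :=
            Real.exp_le_exp.2 (by nlinarith [mul_le_mul_of_nonneg_left q3 g0])
          have q0 := T0 x h0.1
          have q5 : T x ≤ 1 + c' * Real.exp (c' + c' * A) := by
            have q6 := q1.trans (mul_le_mul_of_nonneg_left q4 g0)
            rcases le_total (T x) 1 with q7 | q7
            · have := pow_pos q0 N
              linarith
            · linarith [le_self_pow₀ q7 hN.ne']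
          have q8 : T x ^ (a * N) * Real.exp (-(a * w x)) ≤ c' ^ a := by
            rw [mul_comm a N, pow_mul, Real.exp_neg, Real.exp_nat_mul, ← div_eq_mul_inv,
              div_le_iff₀ (by positivity), ← mul_pow]
            exact pow_le_pow_left₀ (by positivity) q1 _
          rw [pow_succ, mul_right_comm]
          exact mul_le_mul q8 q5 q0.le (by positivity)
  obtain ⟨r₁, r₂, α, β, B, h1, h2, h3⟩ := h _ W u 1 ⟨o0, o1, inter_subset_left,
    (j1 _).2 (lν.mono fun x hx h0 => ⟨h0, (hx h0).1⟩), j3 _ o1 inter_subset_left, fW, hW', inj⟩ hS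
    ENNReal.one_ne_top (fun b hb => ⟨fd b hb, 0, fun x _ => by linarith [kau b hb x]⟩) tub
  have e : ∀ G, G ∈ W ∧ G ≠ 0 → Tm p G ∧ Nz p G := fun G hG' => by
    obtain ⟨s', hs'⟩ := kb 0 (s₀ * (a₀ * (a * N + 1) + s₁ + s₂ + 1))
    refine ⟨(hs' G ((mW G).1 hG'.1).1).2, ?_⟩
    obtain ⟨x, hx⟩ := Function.ne_iff.1 hG'.2
    exact ⟨x, by_contra fun k => hx (((mW G).1 hG'.1).2 x k), hx⟩
  exact ⟨r₁, r₂, α, β, B, fun i => e _ (h1 i), fun i => e _ (h2 i), fun x x1 x2 => h3 x ⟨x1, x2⟩⟩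

end Pool.Agent.Lib.RBR
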