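import Pool.Agent.Lib.RBR.Blue

/-! Project rbr, row PRE: the weight, the cells and the potentials. -/

open scoped Topology
open Set MeasureTheory Filter

namespace Pool.Agent.Lib.RBR

open Pool.Agent.Lib.RB9 (Loc Fin')
open Pool.Agent.Lib.KQ (HoV)

theorem rPRE (hKIT : St_KIT) (hCEL : St_CEL) (hWG : St_WG) (hFNV : St_FNV) (hCY : CY.St_CY)
    (hT9U : RB9.St_T9U) (hFAM : RB9.St_FAM) (hNUL : RB9.St_NUL) (hGOO : FI.St_GOO)
    (hPOT : FI.St_POT) (hWT : KQ.St_WT) : St_PRE := by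
  intro n k M _ H p σ z θ T m D C V r Ψ fr cx
  obtain ⟨-, -, T0, ae0, -, cm, -⟩ := hKIT n k M H p σ z θ T m D C fr
  choose Q Qn Ql using fr.loc
  obtain ⟨q, P, cov⟩ := hCY n k M H p z C V r Ψ Q ⟨cx.fb, cx.vol, cx.rad, cx.jc⟩ Qn
  have L : ∀ i j, Nonempty (Loc p θ T ((P i).cv.b j).W ((P i).cv.b j).B) := fun i j => by
    obtain ⟨x, hx⟩ := (P i).sub j
    exact Ql x _ _ ((P i).cv.b j).oW hx ((P i).cv.b j).cB ((P i).cv.b j).BW
  obtain ⟨s₀, g₀⟩ := (hGOO n k M H p z C V r Ψ p cx.fb cx.vol cx.rad cx.jc).1.exists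
  obtain ⟨i₀, h₀, -⟩ := cov s₀ g₀
  obtain ⟨U, c₁, c₂, up, dm⟩ := hT9U n k M H p z C V r Ψ θ T m D _ (P i₀).cv
    (fun j => (L i₀ j).some) s₀ cx fr.al h₀ g₀
  obtain ⟨N, N0, hN⟩ : ∃ N : ℕ, 0 < N ∧ ∀ i j l, 1 ≤ l → l ≤ ((P i).cv.b j).r → l ∣ N :=
    ⟨_, Nat.factorial_pos (∑ i, ∑ j, ((P i).cv.b j).r), fun i j l h1 h2 =>
      Nat.dvd_factorial h1 (h2.trans ((Finset.single_le_sum (f := fun j => ((P i).cv.b j).r)
        (fun _ _ => Nat.zero_le _) (Finset.mem_univ j)).trans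
        (Finset.single_le_sum (f := fun i => ∑ j, ((P i).cv.b j).r) (fun _ _ => Nat.zero_le _)
          (Finset.mem_univ i))))⟩
  choose G Go GV Gg d F A fm fa using fun i => hFAM n k M H p z C V r Ψ θ T m D U c₁ c₂ _ (P i).cv
    (fun j => (L i j).some) N cx fr.al up dm N0 (hN i)
  obtain ⟨v, pot, psd, -⟩ := hPOT n k M H p z C r Ψ cx.fb cx.rad
  have hz : HoV M (O0 p σ) z := fun i e he w hw hx => (fr.tz i).1 e he w hw hx.1
  obtain ⟨Ω, S, c, Γ, oΩ, gΩ, ΩG, c0, ΓV, cur⟩ := hCEL n k M H p (O0 p σ) z θ T V r Q U N q P G d F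
    A cm.1 (fun _ h => h.1) hz T0 psd cov fun i => ⟨Go i, GV i, Gg i, fm i⟩
  obtain ⟨w, c'', wt⟩ := hWT n M _ S (Fin q) Γ (isOpen_iff_forall_mem_open.2 fun x hx =>
    (Γ.cov x hx).elim fun i h => ⟨_, Γ.sub i, Γ.op i, h.1⟩)
  obtain ⟨c', wg⟩ := hWG n k M H p (O0 p σ) z θ T U c₁ N q G d F A Ω w c'' up wt.c0
    (fun _ h => h.1) ΩG fun i => ⟨Go i, fm i, fa i, fun x hx hΩ hG => by
      have := wt.cmp i x ((ΓV i).1 ▸ ⟨hx, hΩ, hG⟩)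
      rwa [(ΓV i).2] at this⟩
  refine ⟨N, q, U, v, Ω, S, w, c₁, c, c', c'', Γ, N0, wt, ⟨c0, up, ?_, oΩ,
    fun y hy => gΩ y (dm.good y hy), fun e he => ⟨(pot.sm e he).1, fun y => ?_⟩, pot.mono, pot.up,
    fun K hK KΩ η η0 => ?_⟩, wg⟩
  · filter_upwards [ae0, (hNUL n k M H p z C V r Ψ cx).1 (fun y => Fin' U y ∧ Fin' v y)
      (up.fin.and (hFNV k _ v pot))] with x h1 h2 using h2 h1.1
  · rw [(pot.sm e he).2]
    exact psd e y he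
  · filter_upwards [cur K hK KΩ η η0, self_mem_nhdsWithin] with e h he
    simpa only [(pot.sm e he).2] using h

end Pool.Agent.Lib.RBR
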