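import Pool.Agent.Lib.RBR.Blue

/-! Project rbr, row R: the theorem on the reference metric. -/

open scoped Classical Topology ContDiff ComplexOrder Matrix ENNReal
open Set MeasureTheory Complex Metric Filter

set_option linter.unusedVariables false

noncomputable section

namespace Pool.Agent.Lib.RBR

open Pool.Agent.Lib.SV (E nsq)
open Pool.Agent.Lib.HS32
open Pool.Agent.Lib.FI (dn hr ft Good Pot)
open Pool.Agent.Lib.KH (OnK SmK HoK HqB Pol Jo Cmp lden)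
open Pool.Agent.Lib.RB9 (Pz ev Up Fin' Fi Fm Fa Cx Wd den pb)
open Pool.Agent.Lib.KQ (Cel HoV HqS Lo)

theorem rR (hCX : St_CX) (hPRE : St_PRE) (hPKR : St_PKR) (hRO : St_RO) (hK0 : St_K0)
    (hENR : St_ENR) (hZO : St_ZO) : St_R := by
  intro n k M _ H p σ z θ T m D C d κ ε φ hF hA
  suffices h : ∃ (N : ℕ) (U : ℝ → E k → ℝ) (c₁ c : ℝ) (r₁ r₂ : ℕ) (a : Fin (r₁ + 1) → M.X → ℂ)
      (b : Fin (r₂ + 1) → M.X → ℂ), Ro H p z θ T N U c₁ c a b by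
    obtain ⟨N, U, c₁, c, r₁, r₂, a, b, h⟩ := h
    obtain ⟨s₁, s₂, a', b', h'⟩ := hENR n k M H p σ z θ T m D C N U c₁ c r₁ r₂ a b hF h
    exact ⟨N, U, c₁, c, s₁, s₂, a', b', h'⟩
  rcases Nat.eq_zero_or_pos k with rfl | hk
  · obtain ⟨c, h⟩ := hK0 n M H p σ z θ T m D C hF
    exact ⟨_, _, _, _, _, _, _, _, h⟩
  obtain ⟨V, r, Ψ, hC⟩ := hCX n k M H p σ z θ T m D C hF hk
  obtain ⟨N, q, U, v, Ω, S, w, c₁, c, c', c'', Γ, hN, hW, hP, hG⟩ :=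
    hPRE n k M H p σ z θ T m D C V r Ψ hF hC
  obtain ⟨r₁, r₂, a, b, B, ha, hb, h⟩ := hPKR n k M H p σ z θ T m D C V r Ψ N q U v Ω S w c₁ c c'
    c'' Γ hF hC (hZO n k M H p σ z θ T m D C d κ ε φ hF hA) hN hW hP hG
  obtain ⟨c₂, h⟩ := hRO n k M H p σ z θ T m D C V r Ψ N U v Ω S w c₁ c c' B r₁ r₂ a b hF hC hN hP
    hG ha hb h
  exact ⟨_, _, _, _, _, _, _, _, h⟩

end Pool.Agent.Lib.RBR
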