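import Pool.Agent.Lib.RBR.Blue
import Pool.Agent.Lib.RB9.B_WGT
import Pool.Agent.Lib.FI.B_RAD
import Pool.Agent.Lib.FI.B_CNV

/-! Project rbr, row RO: the reference metric. -/

open scoped Classical Topology ContDiff ComplexOrder Matrix ENNReal
open Set MeasureTheory Complex Metric Filter

noncomputable section

namespace Pool.Agent.Lib.RBR

open Pool.Agent.Lib.SV (E nsq)
open Pool.Agent.Lib.HS32
open Pool.Agent.Lib.FI (hr)
open Pool.Agent.Lib.KH (Jo)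
open Pool.Agent.Lib.RB9 (Pz Up Fin' Fi Cx)

namespace RO

theorem n0 {ι : Type} [Fintype ι] (v : ι → ℂ) : 0 ≤ nsq v :=
  Finset.sum_nonneg fun _ _ => normSq_nonneg _

theorem tub (hTUB : St_TUB) {n k : ℕ} {M : Mf n} [M.Cpt] {H : M.Fam (Mat n)} {p σ : M.X → ℝ}
    {z : M.X → E k} {θ : M.X → ℂ} {T : M.X → ℝ} {m : Pz k} {D : MvPolynomial (Fin k) ℂ} {C V : ℝ}
    {r Ψ : E k → ℝ} {U : ℝ → E k → ℝ} {c₁ : ℝ} (hF : Frm H p σ z θ T m D C) (hX : Cx H p z C V r Ψ)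
    (hU : Up U c₁) (hO : IsOpen {x | 0 < p x}) (hz : ContinuousOn z {x | 0 < p x}) (y : E k)
    (hy : Fin' U y) (t : ℝ) (ht : t > 0) : ∃ ρ > (0 : ℝ), ∃ A : ℝ, ∀ e ∈ Ioc (0 : ℝ) 1,
      Jo M H {x | 0 < p x ∧ z x ∈ ball y ρ} (fun x => Real.exp (-(t * U e (z x)))) ≤
        ENNReal.ofReal A := by
  have : IsFiniteMeasure (M.mu H) := (mMU n M H hF.kae.toMet).2.1
  have hl : ContDiff ℝ ∞ fun w : E k => Real.log (1 + nsq w) :=
    (contDiff_const.add FI.RAD.cdN).log fun w => (add_pos_of_pos_of_nonneg one_pos (n0 w)).ne'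
  have hs : ∀ e, 0 < e → ContDiff ℝ ∞ fun w => U e w + c₁ * Real.log (1 + nsq w) :=
    fun e he => (hU.sm e he).add (contDiff_const.mul hl)
  obtain ⟨ρ, hρ, h⟩ := hTUB n k M H p σ z θ T m D C V r Ψ
    (fun e w => t * (U e w + c₁ * Real.log (1 + nsq w))) y (fun _ => 1) 2 hF hX
    (fun e he => ⟨contDiff_const.mul (hs e he), fun w => by
      rw [RB9.WGT.hr_mul t (hs e he).contDiffAt]
      exact (hU.psh e he w).smul ht.le⟩)
    (fun e e' w he h => mul_le_mul_of_nonneg_left (add_le_add (hU.mono e e' w he h) le_rfl) ht.le)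
    (hy.elim fun A hA => ⟨t * (A + c₁ * Real.log (1 + nsq y)), fun e he =>
      mul_le_mul_of_nonneg_left (add_le_add (hA e he) le_rfl) ht.le⟩)
    aemeasurable_const one_lt_two (by simp)
  have hm : MeasurableSet {x | 0 < p x ∧ z x ∈ ball y ρ} :=
    (hz.isOpen_inter_preimage hO isOpen_ball).measurableSet
  set L := Real.exp (t * (c₁ * Real.log (1 + k * (‖y‖ + ρ) ^ 2)))
  have h' := ENNReal.ofReal_toReal (ENNReal.mul_ne_top (ENNReal.ofReal_ne_top (r := L)) h)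
  refine ⟨ρ, hρ, _, fun e he => le_of_le_of_eq ?_ h'.symm⟩
  rw [← lintegral_const_mul' _ _ ENNReal.ofReal_ne_top]
  obtain ⟨i, hi⟩ := exists_nat_one_div_lt he.1
  refine setLIntegral_mono' hm fun x hx => ?_
  rw [one_mul]
  refine le_trans ?_ (mul_le_mul_right (le_iSup _ i) _)
  rw [← ENNReal.ofReal_mul (Real.exp_pos _).le, ← Real.exp_add]
  refine ENNReal.ofReal_le_ofReal (Real.exp_le_exp.2 ?_)
  have h1 := hU.mono _ e (z x) Nat.one_div_pos_of_nat hi.le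
  have h2 : ‖z x‖ ≤ ‖y‖ + ρ := (norm_le_norm_add_norm_sub' _ y).trans
    (add_le_add le_rfl (mem_ball_iff_norm.1 hx.2).le)
  have h3 : Real.log (1 + nsq (z x)) ≤ Real.log (1 + k * (‖y‖ + ρ) ^ 2) :=
    Real.log_le_log (add_pos_of_pos_of_nonneg one_pos (n0 _)) (add_le_add le_rfl
      ((FI.CNV.nsq_le _).trans (mul_le_mul_of_nonneg_left
        (pow_le_pow_left₀ (norm_nonneg _) h2 2) (Nat.cast_nonneg k))))
  have h4 := mul_le_mul_of_nonneg_left (mul_le_mul_of_nonneg_left h3 hU.c0) ht.le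
  have h5 := mul_le_mul_of_nonneg_left h1 ht.le
  linarith

end RO

open RO in
theorem rRO (hKIT : St_KIT) (hCHK : St_CHK) (hMSR : St_MSR) (hTUB : St_TUB) (hALP : St_ALP) :
    St_RO := by
  intro n k M _ H p σ z θ T m D C V r Ψ N U v Ω S w c₁ c c' B₀ r₁ r₂ a b hF hX hN hP hW ha hb h₀
  obtain ⟨k1, -, k3, k4, k5, -, -, -, -, k10, k11, -, -, k14, -⟩ := hKIT n k M H p σ z θ T m D C hF
  obtain ⟨B, B1, hB⟩ : ∃ B : ℝ, 1 ≤ B ∧ ∀ x ∈ O0 p σ, z x ∈ Ω →
      Real.exp (w x) * nsq (a · x) ≤ B * nsq (b · x) ∧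
      nsq (b · x) ≤ B * (Real.exp (w x) * nsq (a · x)) := ⟨max B₀ 1, le_max_right _ _, fun x h h' =>
    ⟨(h₀ x h h').1.trans (mul_le_mul_of_nonneg_right (le_max_left _ _) (n0 _)),
      (h₀ x h h').2.trans (mul_le_mul_of_nonneg_right (le_max_left _ _)
        (mul_nonneg (Real.exp_pos _).le (n0 _)))⟩⟩
  have B0 : 0 ≤ B := zero_le_one.trans B1
  have hae : ∀ᵐ x ∂M.mu H, x ∈ O0 p σ ∧ z x ∈ Ω ∧ Fin' U (z x) := by
    filter_upwards [k4, hP.fin] with x h1 h2 using ⟨h1, hP.sub _ h2.1, h2.1⟩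
  have := ae_neBot.2 k5
  refine ⟨c' * B, hN, mul_nonneg hW.c0 B0, hP.up, ha, hb, hae.mono fun x h => h.2.2,
    hALP n k M H p σ z θ T m D C U c₁ hF hP.up (hae.exists.imp fun x h => ⟨h.1.1, h.2.2⟩),
    tub hTUB hF hX hP.up k1 (hCHK n k M _ z k1 fun i => (hF.tz i).1).1, ?_, fun γ Q s hQ hγ => ?_,
    fun g hg => ?_⟩
  · obtain ⟨m1, -, -, -, m5, -⟩ := hMSR n M H {x | 0 < p x} (fun _ => 1) (fun _ => 1) 1 _
      hF.kae.toMet k1 continuousOn_const (fun _ _ => one_pos) aemeasurable_const ENNReal.one_ne_top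
      (Eventually.of_forall fun _ _ => by simp) rfl
    refine m5 _ _ ((hF.al.tc.pow N).mul (k10 _ a fun i => (ha i).1).2.2.2.1)
      (continuousOn_const.mul (k10 _ b fun i => (hb i).1).2.2.2.1)
      ((m1 _).2 (hae.mono fun x h _ => ?_))
    refine (mul_le_mul_of_nonneg_right (hW.lo x h.1 h.2.1) (n0 _)).trans ?_
    rw [mul_assoc, mul_assoc]
    exact mul_le_mul_of_nonneg_left (hB x h.1 h.2.1).1 hW.c0
  · obtain ⟨A₁, h1⟩ := hW.r2 γ Q s hQ hγ
    obtain ⟨s', h2⟩ := k11 (N * Q) s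
    refine ⟨B ^ Q * A₁, ?_⟩
    filter_upwards [hae, k14 γ (h2 γ hγ).2] with x h hf A hA
    have h3 := h1 x h.1 h.2.1 hf A hA
    have h4 : A ≤ 0 := ((hA 1 one_pos).trans (hP.up.up _)).trans
      (neg_nonpos.2 (Real.log_nonneg (le_add_of_nonneg_right (n0 _))))
    have h5 : Real.exp (s * (c' * B) * A) ≤ Real.exp (s * c' * A) :=
      Real.exp_le_exp.2 (mul_le_mul_of_nonpos_right (mul_le_mul_of_nonneg_left
        (le_mul_of_one_le_right hW.c0 B1) (Nat.cast_nonneg s)) h4)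
    have h6 := pow_le_pow_left₀ (n0 _) (hB x h.1 h.2.1).2 Q
    have h7 := n0 (a · x)
    calc _ ≤ normSq (γ x) * (B * (Real.exp (w x) * nsq (a · x))) ^ Q * Real.exp (s * c' * A) :=
          mul_le_mul (mul_le_mul_of_nonneg_left h6 (normSq_nonneg _)) h5 (Real.exp_pos _).le
            (mul_nonneg (normSq_nonneg _) (by positivity))
      _ = B ^ Q * (normSq (γ x) * Real.exp (w x) ^ Q * Real.exp (s * c' * A)) * nsq (a · x) ^ Q := by
          ring
      _ ≤ _ := mul_le_mul_of_nonneg_right (mul_le_mul_of_nonneg_left h3 (pow_nonneg B0 Q))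
          (pow_nonneg h7 Q)
  · refine ⟨B * c', ?_⟩
    filter_upwards [hae, hg, hW.r3 _ (ae_iff.1 hg)] with x h h1 h2
    have hT := k3 x h.1.1
    have hG : g (z x, θ x) ≠ ⊤ := fun e => by
      rw [e, ENNReal.mul_top (ENNReal.ofReal_pos.2 hT).ne'] at h1
      exact absurd h1 (by simp)
    obtain ⟨G, G0, e⟩ : ∃ G : ℝ, 0 ≤ G ∧ g (z x, θ x) = ENNReal.ofReal G :=
      ⟨_, ENNReal.toReal_nonneg, (ENNReal.ofReal_toReal hG).symm⟩
    rw [e, ← ENNReal.ofReal_pow G0, ← ENNReal.ofReal_mul (pow_nonneg G0 N)]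
    refine ENNReal.ofReal_le_ofReal ?_
    have h7 := n0 (a · x)
    have c0 := hW.c0
    rcases G0.eq_or_lt with rfl | G1
    · rw [zero_pow hN.ne', zero_mul]
      positivity
    have h3 := h2 h.1 h.2.1 (G⁻¹ ^ N) (by positivity) fun x' hx' hn => by
      have h4 : ENNReal.ofReal (T x') * g (z x', θ x') ≤ 1 := not_not.1 hn
      rw [hx'.2.1, hx'.2.2, e, ← ENNReal.ofReal_mul (hF.al.t0 _), ENNReal.ofReal_le_one] at h4
      exact pow_le_pow_left₀ (hF.al.t0 _) (by rwa [← one_div, le_div_iff₀ G1]) N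
    calc _ ≤ G ^ N * (B * (c' * G⁻¹ ^ N * nsq (a · x))) :=
          mul_le_mul_of_nonneg_left ((hB x h.1 h.2.1).2.trans (mul_le_mul_of_nonneg_left
            (mul_le_mul_of_nonneg_right h3 h7) B0)) (pow_nonneg G0 N)
      _ = (G * G⁻¹) ^ N * (B * c' * nsq (a · x)) := by ring
      _ = _ := by rw [mul_inv_cancel₀ G1.ne', one_pow, one_mul]

end Pool.Agent.Lib.RBR
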