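import Pool.Agent.Lib.RBR.Blue
import Pool.Agent.Lib.RB9.B_PSM
import Pool.Agent.Lib.GH76.Pshp

/-! Project rbr, row SKD: the theorem of Skoda at a point where the limit is finite. -/

open scoped Classical Topology ContDiff ComplexOrder Matrix ENNReal
open Set MeasureTheory Complex Metric Filter

noncomputable section

namespace Pool.Agent.Lib.RBR

open Pool.Agent.Lib.SV (E)
open Pool.Agent.Lib.HS32 Pool.Agent.Lib.HS66

namespace SKD

variable {k : ℕ}

theorem aff (a : E k) (ρ : ℝ) (z : E k) :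
    HasFDerivAt (fun y : E k => a + ρ • y) (ρ • ContinuousLinearMap.id ℝ (E k)) z :=
  ((hasFDerivAt_id z).const_smul ρ).const_add a

theorem lv_aff {u : E k → ℝ} (hu : ContDiff ℝ ∞ u) (a : E k) (ρ l B : ℝ) (z v : E k) :
    lv (fun y => l * (u (a + ρ • y) - B)) z v = l * ρ ^ 2 * lv u (a + ρ • z) v := by
  have e : fderiv ℝ (fun y => l * (u (a + ρ • y) - B)) =
      fun y => (l * ρ) • fderiv ℝ u (a + ρ • y) := funext fun y => by
    refine ((((hu.differentiable (by simp) _).hasFDerivAt.comp y (aff a ρ y)).sub_const B).const_mul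
      l).fderiv.trans ?_
    ext w
    simp [mul_assoc]
  have d : DifferentiableAt ℝ (fderiv ℝ u) (a + ρ • z) :=
    (hu.fderiv_right (m := ∞) (by simp)).differentiable (by simp) _
  have e2 : fderiv ℝ (fun y => (l * ρ) • fderiv ℝ u (a + ρ • y)) z = _ :=
    ((d.hasFDerivAt.comp z (aff a ρ z)).fun_const_smul (l * ρ)).fderiv
  rw [lv, lv, e, e2]
  simp only [smul_apply, ContinuousLinearMap.comp_apply,
    ContinuousLinearMap.id_apply, map_smul, smul_eq_mul]
  ring

theorem one : ∃ α C : ℝ, 0 < α ∧ ∀ w : E k → ℝ, ContDiff ℝ ∞ w → (∀ z v, 0 ≤ lv w z v) →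
    (∀ z, ‖z‖ ≤ 5 → w z ≤ 0) → -w 0 ≤ 1 →
    ∫⁻ z in ball (0 : E k) 1, ENNReal.ofReal (Real.exp (α * -w z)) ≤ ENNReal.ofReal C := by
  obtain ⟨g, c, c0, hg, hc⟩ := RB9.PSM.ker (k := k) (r := 5) (by norm_num)
  obtain ⟨α, C, α0, -, hS⟩ := GH76.skoda_loc (n := k) (A := 0) (L := c) le_rfl c0.le
  refine ⟨α, C, α0, fun w hw hl h0 h1 => ?_⟩
  have w0 := hw.continuous
  rw [← ofReal_integral_eq_lintegral_ofReal (((by fun_prop : Continuous fun z =>
    Real.exp (α * -w z)).continuousOn.integrableOn_compact (isCompact_closedBall 0 1)).mono_set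
      ball_subset_closedBall) (ae_of_all _ fun z => (Real.exp_pos _).le)]
  refine ENNReal.ofReal_le_ofReal (hS w (fun z hz => ⟨cd_le hw.contDiffAt 2,
    h0 z ((mem_closedBall_zero_iff.1 hz).trans (by norm_num)), fun v => by simpa using hl z v⟩) ?_)
  have h3 := hg.submean (w := w) (x := 0) le_rfl (by norm_num) fun z _ =>
    ⟨cd_le hw.contDiffAt 2, fun v => by simpa using hl z v⟩
  have i1 : Integrable fun t => g t • w (0 - t) := hg.int_smul (by fun_prop)
  have i2 : Integrable (fun z => g (0 - z) * -w z) volume :=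
    (i1.comp_sub_left 0).neg.congr (.of_forall fun z => by simp)
  rw [← integral_sub_left_eq_self _ volume 0] at h3
  simp only [sub_sub_cancel, smul_eq_mul] at h3
  have h5 : ∫ z in closedBall (0 : E k) 4, c⁻¹ * -w z ≤ ∫ z, g (0 - z) * -w z := by
    refine (setIntegral_mono_on ((w0.continuousOn.integrableOn_compact
      (isCompact_closedBall 0 4)).neg.const_mul _) i2.integrableOn measurableSet_closedBall
      fun z hz => ?_).trans (setIntegral_le_integral i2 (.of_forall fun z => ?_))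
    · have := mem_closedBall_zero_iff.1 hz
      exact mul_le_mul_of_nonneg_right (hc _ (by rw [zero_sub, norm_neg]; linarith))
        (neg_nonneg.2 (h0 z (by linarith)))
    · by_cases h : g (0 - z) = 0
      · simp only [h, zero_mul, Pi.zero_apply, le_refl]
      · exact mul_nonneg (hg.nn _) (neg_nonneg.2 (h0 z (by simpa using hg.supp _ h)))
  simp only [mul_neg, integral_neg, integral_const_mul] at h5 ⊢
  rw [← mul_neg, inv_mul_le_iff₀ c0] at h5
  nlinarith

end SKD

open SKD in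
theorem rSKD : St_SKD := by
  intro k ψ y₀ t hψ hm ⟨A, hA⟩ t0
  obtain ⟨α, C, α0, hS⟩ := one (k := k)
  have bd : BddBelow ((fun e => ψ e y₀) '' Ioi 0) := ⟨A, by
    rintro _ ⟨e, he, rfl⟩
    exact hA e he⟩
  obtain ⟨_, ⟨e₀, e0, rfl⟩, h1⟩ := exists_lt_of_csInf_lt (nonempty_Ioi.image fun e => ψ e y₀)
    (lt_add_of_pos_right _ (div_pos α0 t0))
  have h2 := fun e (he : 0 < e) => csInf_le bd ⟨e, he, rfl⟩
  generalize sInf ((fun e => ψ e y₀) '' Ioi 0) = m at h1 h2
  obtain ⟨δ, δ0, hδ⟩ := Metric.eventually_nhds_iff_ball.1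
    ((hψ e₀ e0).1.continuous.continuousAt.eventually_lt continuousAt_const h1)
  obtain ⟨ρ, rfl⟩ : ∃ ρ, δ = 6 * ρ := ⟨δ / 6, by ring⟩
  have ρ0 : 0 < ρ := by linarith
  have p0 : ∀ i : ℕ, 0 < 1 / ((i : ℝ) + 1) := fun i => by positivity
  have an : ∀ e e' y, 0 < e → e ≤ e' → ENNReal.ofReal (Real.exp (-(t * ψ e' y))) ≤
      ENNReal.ofReal (Real.exp (-(t * ψ e y))) := fun e e' y h h' => ENNReal.ofReal_le_ofReal
    (Real.exp_le_exp.2 (neg_le_neg (mul_le_mul_of_nonneg_left (hm e e' y h h') t0.le)))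
  refine ⟨ρ, ρ0, ?_⟩
  rw [lintegral_iSup (fun i => by
    have := (hψ _ (p0 i)).1.continuous
    exact (by fun_prop : Continuous fun y => Real.exp (-(t * ψ (1 / ((i : ℝ) + 1)) y))
      ).measurable.ennreal_ofReal) fun i j h y => an _ _ y (p0 j) (Nat.one_div_le_one_div h)]
  refine ne_top_of_le_ne_top (ENNReal.mul_ne_top (ENNReal.ofReal_ne_top
    (r := |(ρ • ContinuousLinearMap.id ℝ (E k)).det|)) (ENNReal.mul_ne_top (ENNReal.ofReal_ne_top
    (r := Real.exp (-(t * (m + α / t))))) (ENNReal.ofReal_ne_top (r := C)))) (iSup_le fun i => ?_)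
  obtain ⟨e, he, k1, k2⟩ : ∃ e, 0 < e ∧ e ≤ 1 / ((i : ℝ) + 1) ∧ e ≤ e₀ :=
    ⟨_, lt_min (p0 i) e0, min_le_left _ _, min_le_right _ _⟩
  have sub : ball y₀ ρ ⊆ (fun y : E k => y₀ + ρ • y) '' ball 0 1 := fun y hy =>
    ⟨ρ⁻¹ • (y - y₀), by
      rw [mem_ball_zero_iff, norm_smul, norm_inv, Real.norm_of_nonneg ρ0.le, inv_mul_lt_iff₀ ρ0,
        mul_one]
      exact mem_ball_iff_norm.1 hy, by simp [smul_inv_smul₀ ρ0.ne']⟩
  refine ((lintegral_mono fun y => an e _ y he k1).trans (lintegral_mono_set sub)).trans ?_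
  rw [lintegral_image_eq_lintegral_abs_det_fderiv_mul volume measurableSet_ball
    (fun y _ => (aff y₀ ρ y).hasFDerivWithinAt)
    (fun a _ b _ h => smul_right_injective _ ρ0.ne' (add_left_cancel h)),
    lintegral_const_mul' _ _ ENNReal.ofReal_ne_top]
  have s := (hψ e he).1
  have q0 : 0 < t / α := div_pos t0 α0
  refine mul_le_mul_right (le_trans (le_of_eq ?_) (mul_le_mul_right
    (hS (fun y => t / α * (ψ e (y₀ + ρ • y) - (m + α / t))) (by fun_prop) (fun z v => ?_)
      (fun z hz => ?_) ?_) _)) _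
  · rw [← lintegral_const_mul' _ _ ENNReal.ofReal_ne_top]
    refine lintegral_congr fun y => ?_
    rw [← ENNReal.ofReal_mul (Real.exp_pos _).le, ← Real.exp_add]
    refine congrArg (fun x => ENNReal.ofReal (Real.exp x)) ?_
    field_simp
    ring
  · have := (Complex.le_def.1 (((hψ e he).2 (y₀ + ρ • z)).dotProduct_mulVec_nonneg v)).1
    rw [FI.hr, BPSH.hess_lv s.contDiffAt, ofReal_re, zero_re] at this
    rw [lv_aff s]
    exact mul_nonneg (by positivity) (by linarith)
  · refine mul_nonpos_of_nonneg_of_nonpos q0.le (sub_nonpos.2 ((hm e e₀ _ he k2).trans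
      (hδ _ ?_).le))
    rw [mem_ball_iff_norm, add_sub_cancel_left, norm_smul, Real.norm_of_nonneg ρ0.le]
    nlinarith
  · have := mul_le_mul_of_nonneg_left (h2 e he) q0.le
    have e1 : t / α * (α / t) = 1 := by field_simp
    simp only [smul_zero, add_zero]
    nlinarith

end Pool.Agent.Lib.RBR
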