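import Pool.Agent.Lib.RBR.Blue

/-! Without meromorphic functions the section is bounded. -/

open scoped Classical Topology ContDiff ComplexOrder Matrix ENNReal
open Set MeasureTheory Complex Metric Filter

noncomputable section

namespace Pool.Agent.Lib.RBR

open Pool.Agent.Lib.SV (E nsq)
open Pool.Agent.Lib.HS32 Pool.Agent.Lib.HS32.Mf

namespace TB0

theorem pt90 {q t : ℂ} {c p T K : ℝ} {κ a j : ℕ} (hc : 0 ≤ c) (hT : 0 ≤ T)
    (h1 : normSq q ^ κ ≤ c * p) (h2 : normSq t ≤ c * T) (h3 : T ^ j * p ^ a ≤ K) :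
    ‖q * t‖ ^ j * ‖q‖ ^ (κ * a) ≤ (c ^ j * c ^ a * K + 1) * ‖q‖ ^ j := by
  have a1 : (‖t‖ ^ j * ‖q‖ ^ (κ * a)) ^ 2 ≤ c ^ j * c ^ a * K :=
    calc (‖t‖ ^ j * ‖q‖ ^ (κ * a)) ^ 2 = normSq t ^ j * (normSq q ^ κ) ^ a := by
          rw [normSq_eq_norm_sq, normSq_eq_norm_sq]; ring
      _ ≤ (c * T) ^ j * (c * p) ^ a := mul_le_mul (pow_le_pow_left₀ (normSq_nonneg _) h2 j)
          (pow_le_pow_left₀ (pow_nonneg (normSq_nonneg _) _) h1 a)
          (pow_nonneg (pow_nonneg (normSq_nonneg _) _) _) (pow_nonneg (mul_nonneg hc hT) _)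
      _ = c ^ j * c ^ a * (T ^ j * p ^ a) := by ring
      _ ≤ _ := mul_le_mul_of_nonneg_left h3 (by positivity)
  have a2 : ‖t‖ ^ j * ‖q‖ ^ (κ * a) ≤ c ^ j * c ^ a * K + 1 := by
    nlinarith [sq_nonneg (‖t‖ ^ j * ‖q‖ ^ (κ * a) - 1), sq_nonneg (‖t‖ ^ j * ‖q‖ ^ (κ * a))]
  calc ‖q * t‖ ^ j * ‖q‖ ^ (κ * a) = ‖t‖ ^ j * ‖q‖ ^ (κ * a) * ‖q‖ ^ j := by
        rw [norm_mul, mul_pow]; ring
    _ ≤ _ := mul_le_mul_of_nonneg_right a2 (by positivity)

end TB0

open TB0 in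
theorem rTB0 (hDV1 : RB9.St_DV1) : St_TB0 := by
  intro n M _ H p σ z θ T m D C F
  obtain ⟨a, ha⟩ := F.al.ai
  have ai : ∀ j₀ : ℕ, ∃ j, j₀ ≤ j ∧ ∃ K : ℝ, ∀ x, 0 < p x → T x ^ j * p x ^ a ≤ K := fun j₀ => by
    obtain ⟨j, hj, P, b, c, hP, h⟩ := ha j₀
    obtain ⟨x₁, -, h1⟩ := F.ind P hP
    refine ⟨j, hj, c / normSq (MvPolynomial.eval (z x₁) P), fun x hx => ?_⟩
    have := h x hx
    rw [show nsq (z x) = 0 from Finset.sum_of_isEmpty _, add_zero, one_pow, mul_one,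
      Subsingleton.elim (z x) (z x₁)] at this
    rw [le_div_iff₀ (normSq_pos.2 h1), mul_right_comm]
    exact this
  have loc : ∀ x₀, ∃ S ∈ 𝓝 x₀, ∃ c, ∀ x ∈ S, 0 < p x → T x ≤ c := fun x₀ => by
    obtain ⟨W₀, hW, hL⟩ := F.loc x₀
    have he := ch_mem x₀
    have h0 := mem_ch x₀
    generalize M.ch x₀ = e at he h0
    obtain ⟨R, R0, hR⟩ := Metric.mem_nhds_iff.1 (inter_mem
      (e.open_target.mem_nhds (e.map_source h0)) (e.tendsto_symm h0 hW))
    have s1 : closedBall (e x₀) (R / 2) ⊆ ball (e x₀) R := closedBall_subset_ball (half_lt_self R0)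
    have iW : ∀ y ∈ ball (e x₀) R, e.symm y ∈ e.source ∩ e ⁻¹' ball (e x₀) R := fun y hy =>
      ⟨e.map_target (hR hy).1, by rwa [mem_preimage, e.right_inv (hR hy).1]⟩
    obtain ⟨L⟩ := hL (e.source ∩ e ⁻¹' ball (e x₀) R) (e.symm '' closedBall (e x₀) (R / 2))
      (e.isOpen_inter_preimage isOpen_ball) (fun x hx => e.left_inv hx.1 ▸ (hR hx.2).2)
      ((isCompact_closedBall _ _).image_of_continuousOn
        (e.continuousOn_symm.mono fun y hy => (hR (s1 hy)).1))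
      (forall_mem_image.2 fun y hy => iW y (s1 hy))
    have hd : ∀ {f : M.X → ℂ}, KH.HoK M (e.source ∩ e ⁻¹' ball (e x₀) R) f →
        DifferentiableOn ℂ (f ∘ e.symm) (ball (e x₀) (R / 2)) := fun h y hy =>
      (h e he y (hR (s1 (ball_subset_closedBall hy))).1
        (iW y (s1 (ball_subset_closedBall hy)))).self_of_nhds.differentiableWithinAt
    have s2 : closedBall (e x₀) (R / 4) ⊆ ball (e x₀) (R / 2) := closedBall_subset_ball (by linarith)
    have bd : ∀ i, ∃ A : ℝ, ∀ y ∈ closedBall (e x₀) (R / 4), L.q i (e.symm y) ≠ 0 →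
        0 < p (e.symm y) → ‖L.t (e.symm y)‖ ≤ A := fun i => by
      by_cases hq : ∃ y ∈ ball (e x₀) (R / 2), (L.q i ∘ e.symm) y ≠ 0
      swap
      · exact ⟨0, fun y hy h => (hq ⟨y, s2 hy, h⟩).elim⟩
      obtain ⟨u, hu, eu⟩ := hDV1 n _ _ _ _ (L.κ * a) (hd (L.hol i).1) (hd (L.hol i).2.2) hq
        fun j₀ => by
          obtain ⟨j, hj, K, hK⟩ := ai j₀
          refine ⟨j, hj, L.c ^ j * L.c ^ a * K + 1, fun y hy h => ?_⟩
          have b := mem_image_of_mem e.symm (ball_subset_closedBall hy)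
          have l := L.le i _ b
          have p0 : 0 < p (e.symm y) :=
            pos_of_mul_pos_right ((pow_pos (normSq_pos.2 h) _).trans_le l) L.c0
          rw [Function.comp_apply, Function.comp_apply,
            (L.eq i _ (iW y (s1 (ball_subset_closedBall hy))) p0).2]
          exact pt90 L.c0 (F.al.t0 _) l (L.cmp _ b p0).1 (hK _ p0)
      obtain ⟨A, hA⟩ := (isCompact_closedBall _ _).exists_bound_of_continuousOn
        (hu.continuousOn.mono s2)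
      refine ⟨A, fun y hy h p0 => le_of_eq_of_le (congrArg _ (mul_left_cancel₀ h ?_)) (hA y hy)⟩
      exact (L.eq i _ (iW y (s1 (ball_subset_closedBall (s2 hy)))) p0).2.symm.trans
        ((eu y (s2 hy)).trans (mul_comm _ _))
    choose A hA using bd
    refine ⟨e.source ∩ e ⁻¹' closedBall (e x₀) (R / 4), inter_mem (e.open_source.mem_nhds h0)
      (e.continuousAt h0 (closedBall_mem_nhds _ (by positivity))), L.c * ∑ i, A i ^ 2,
      fun x hx p0 => ?_⟩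
    have b : x ∈ e.symm '' closedBall (e x₀) (R / 2) :=
      ⟨e x, ball_subset_closedBall (s2 hx.2), e.left_inv hx.1⟩
    obtain ⟨i, hi⟩ := L.ne x b p0
    have h := hA i (e x) hx.2
    rw [e.left_inv hx.1] at h
    refine (L.cmp x b p0).2.trans (mul_le_mul_of_nonneg_left ?_ L.c0)
    rw [normSq_eq_norm_sq]
    exact (pow_le_pow_left₀ (norm_nonneg _) (h hi p0) 2).trans
      (Finset.single_le_sum (f := fun i => A i ^ 2) (fun _ _ => sq_nonneg _) (Finset.mem_univ i))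
  obtain ⟨c, hc⟩ := isCompact_univ.induction_on (p := fun S => ∃ c, ∀ x ∈ S, 0 < p x → T x ≤ c)
    ⟨0, fun _ h => h.elim⟩ (fun _ _ h ⟨c, hc⟩ => ⟨c, fun x hx => hc x (h hx)⟩)
    (fun _ _ ⟨c, hc⟩ ⟨c', hc'⟩ => ⟨max c c', fun x hx p0 => hx.elim
      (fun h => (hc x h p0).trans (le_max_left _ _)) fun h => (hc' x h p0).trans (le_max_right _ _)⟩)
    fun x _ => (loc x).imp fun S h => ⟨mem_nhdsWithin_of_mem_nhds h.1, h.2⟩
  exact ⟨c, fun x => hc x (mem_univ x)⟩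

end Pool.Agent.Lib.RBR
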