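import Pool.Agent.Lib.RBR.Blue

/-! Project rbr, row TUB: integrability on a tube. -/

open scoped Classical Topology ENNReal
open Set MeasureTheory Complex Filter Metric

noncomputable section

namespace Pool.Agent.Lib.RBR

open Pool.Agent.Lib.SV (E nsq)
open Pool.Agent.Lib.HS32
open Pool.Agent.Lib.FI (dn)

namespace TUB

theorem yg (a b : ℝ≥0∞) {s : ℝ} (hs : 0 < s) : a * b ≤ a ^ (1 + s) + b ^ (1 + s⁻¹) := by
  rcases le_total b (a ^ s) with h | h
  · rw [ENNReal.rpow_add_of_nonneg _ _ zero_le_one hs.le, ENNReal.rpow_one]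
    exact (mul_le_mul_right h _).trans le_self_add
  · rw [ENNReal.rpow_add_of_nonneg 1 s⁻¹ zero_le_one (inv_pos.2 hs).le, ENNReal.rpow_one, mul_comm]
    exact (mul_le_mul_right ((ENNReal.le_rpow_inv_iff hs).2 h) _).trans le_add_self

theorem yd (g : ℝ≥0∞) {d : ℝ≥0∞} (d0 : d ≠ 0) (d1 : d ≠ ⊤) {q s : ℝ} (hq : 0 < q) (hs : 0 < s) :
    g ^ q ≤ g ^ (q + q * s⁻¹) * d + d⁻¹ ^ s := by
  rcases le_total (g ^ q) (d⁻¹ ^ s) with h | h
  · exact h.trans le_add_self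
  · rw [ENNReal.rpow_add_of_nonneg _ _ hq.le (by positivity), ENNReal.rpow_mul, mul_assoc]
    refine le_trans (le_mul_of_one_le_right' ?_) le_self_add
    rw [← ENNReal.inv_mul_cancel d0 d1]
    exact mul_le_mul_left ((ENNReal.le_rpow_inv_iff hs).2 h) _

end TUB

theorem rTUB (hKIT : St_KIT) (hSKD : St_SKD) : St_TUB := by
  intro n k M _ H p σ z θ T m D C V r Ψ ψ y₀ ϖ t fr cx h1 h2 h3 mϖ t1 fin
  obtain ⟨op, cp, -, -, -, -, ⟨t₀, t0, hp⟩, -⟩ := hKIT n k M _ _ _ _ _ _ _ _ _ fr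
  obtain ⟨a, c, hc⟩ := fr.dlo
  have cz : ContinuousOn z {x | 0 < p x} := fun x hx => by
    obtain ⟨e, he, hs⟩ := M.cov x
    have := (cx.fb.hol e he _ (e.map_source hs) (by
      rwa [e.left_inv hs])).self_of_nhds.continuousAt.comp (e.continuousAt hs)
    exact (this.congr ((e.open_source.eventually_mem hs).mono fun y hy => by
      simp only [Function.comp, e.left_inv hy])).continuousWithinAt
  obtain ⟨s, rfl⟩ : ∃ s, t = 1 + s := ⟨t - 1, by ring⟩
  have s0 : 0 < s := by linarith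
  have η0 : 0 < t₀ / (a + 1) := by positivity
  have q0 : 0 < 1 + s⁻¹ := by positivity
  have Q0 : 0 < 1 + s⁻¹ + (1 + s⁻¹) * (t₀ / (a + 1))⁻¹ := by positivity
  obtain ⟨ρ, ρ0, hρ⟩ := hSKD k ψ y₀ _ h1 h2 h3 Q0
  refine ⟨ρ, ρ0, ?_⟩
  set Q := 1 + s⁻¹ + (1 + s⁻¹) * (t₀ / (a + 1))⁻¹
  let Θ : E k → ℝ≥0∞ := fun y =>
    ⨆ i : ℕ, ENNReal.ofReal (Real.exp (-(Q * ψ (1 / ((i : ℝ) + 1)) y)))
  have mΘ : Measurable Θ := Measurable.iSup fun i => (((h1 _ (by positivity)).1.continuous.const_mul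
    Q).neg.rexp).measurable.ennreal_ofReal
  have v := cx.vol.2 _ (mΘ.indicator (measurableSet_ball (x := y₀) (ε := ρ)))
  rw [lintegral_indicator measurableSet_ball] at v
  have oS : IsOpen {x | 0 < p x ∧ z x ∈ ball y₀ ρ} :=
    cz.isOpen_inter_preimage op isOpen_ball
  refine ne_top_of_le_ne_top (b := ∫⁻ x in {x | 0 < p x ∧ z x ∈ ball y₀ ρ}, (ϖ x ^ (1 + s) +
    ((ball y₀ ρ).indicator Θ (z x) * ENNReal.ofReal (dn H z x) + ENNReal.ofReal c ^ (t₀ / (a + 1)) *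
      (ENNReal.ofReal (p x))⁻¹ ^ t₀)) ∂M.mu H) ?_ (setLIntegral_mono' oS.measurableSet fun x hx => ?_)
  · have mp : Measurable fun x => (ENNReal.ofReal (p x))⁻¹ ^ t₀ :=
      cp.measurable.ennreal_ofReal.inv.pow_const _
    rw [lintegral_add_left' (mϖ.pow_const _).restrict, lintegral_add_right _ (mp.const_mul _),
      lintegral_const_mul _ mp]
    exact ENNReal.add_ne_top.2 ⟨ne_top_of_le_ne_top fin (setLIntegral_le_lintegral _ _),
      ENNReal.add_ne_top.2 ⟨ne_top_of_le_ne_top (v ▸ ENNReal.mul_ne_top ENNReal.ofReal_ne_top hρ)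
        (lintegral_mono_set fun x hx => hx.1), ENNReal.mul_ne_top
          (ENNReal.rpow_ne_top_of_nonneg η0.le ENNReal.ofReal_ne_top)
          (ne_top_of_le_ne_top hp (setLIntegral_le_lintegral _ _))⟩⟩
  have l := hc x hx.1
  have d1 : 0 < dn H z x := ((cx.jc.pos x).1 hx.1).2
  have c0 : 0 < c := pos_of_mul_pos_left ((pow_pos hx.1 a).trans_le l) d1.le
  refine (TUB.yg _ _ s0).trans (add_le_add_right ((TUB.yd _ (ENNReal.ofReal_pos.2 d1).ne'
    ENNReal.ofReal_ne_top q0 η0).trans (add_le_add (mul_le_mul_left (le_of_eq ?_) _) ?_)) _)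
  · rw [indicator_of_mem hx.2]
    refine ((ENNReal.orderIsoRpow Q Q0).map_iSup _).trans (iSup_congr fun i => ?_)
    rw [ENNReal.orderIsoRpow_apply, ENNReal.ofReal_rpow_of_pos (Real.exp_pos _), ← Real.exp_mul,
      neg_mul, mul_comm]
  · have e1 : (ENNReal.ofReal (dn H z x))⁻¹ ≤ ENNReal.ofReal c * (ENNReal.ofReal (p x))⁻¹ ^ (a : ℝ) := by
      rw [ENNReal.rpow_natCast, ← ENNReal.inv_pow, ← ENNReal.ofReal_pow hx.1.le,
        ← ENNReal.ofReal_inv_of_pos d1, ← ENNReal.ofReal_inv_of_pos (pow_pos hx.1 a),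
        ← ENNReal.ofReal_mul c0.le]
      refine ENNReal.ofReal_le_ofReal ?_
      rwa [le_mul_inv_iff₀ (pow_pos hx.1 a), inv_mul_le_iff₀ d1, mul_comm]
    refine (ENNReal.rpow_le_rpow e1 η0.le).trans ?_
    rw [ENNReal.mul_rpow_of_nonneg _ _ η0.le, ← ENNReal.rpow_mul]
    refine mul_le_mul_right (ENNReal.rpow_le_rpow_of_exponent_le
      (ENNReal.one_le_inv.2 (ENNReal.ofReal_le_one.2 (fr.p1 x))) ?_) _
    rw [← mul_div_assoc, div_le_iff₀ (by positivity)]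
    nlinarith

end Pool.Agent.Lib.RBR
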