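import Pool.Agent.Lib.RBR.Blue

/-! Row WG of project rbr: the patched weight inherits the bounds of the families. -/

open scoped Classical Topology ContDiff ComplexOrder Matrix ENNReal
open Set MeasureTheory Complex Metric Filter

noncomputable section

namespace Pool.Agent.Lib.RBR

open Pool.Agent.Lib.SV (E nsq nsq_nonneg)
open Pool.Agent.Lib.HS32
open Pool.Agent.Lib.RB9 (Up Fi Fm Fa)

namespace WG

theorem neg {k : ℕ} {U : ℝ → E k → ℝ} {c₁ : ℝ} (h : Up U c₁) (y : E k) : U 1 y ≤ 0 :=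
  (h.up y).trans (neg_nonpos.2 (Real.log_nonneg (le_add_of_nonneg_right (nsq_nonneg y))))

end WG

theorem rWG : St_WG := by
  intro n k M H p O z θ T U c₁ N q G d F A Ω w c hU hc hO hΩ h
  have A0 : ∀ i, 0 ≤ A i := fun i => (h i).2.1.c0
  have c0 : 0 ≤ c := zero_le_one.trans hc
  have hB : ∀ i, A i ≤ ∑ j, A j := fun i =>
    Finset.single_le_sum (fun j _ => A0 j) (Finset.mem_univ i)
  have h1 : ∀ i, c * A i ≤ c * ∑ j, A j := fun i => mul_le_mul_of_nonneg_left (hB i) c0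
  have h2 : ∀ i, A i ≤ c * ∑ j, A j := fun i => (le_mul_of_one_le_left (A0 i) hc).trans (h1 i)
  have hi : ∀ x, z x ∈ Ω → ∃ i, z x ∈ G i := fun x hx => mem_iUnion.1 (hΩ hx)
  refine ⟨c * ∑ j, A j, mul_nonneg c0 (Finset.sum_nonneg fun j _ => A0 j), ?_, ?_, ?_, ?_⟩
  · intro x hx hz
    obtain ⟨i, hG⟩ := hi x hz
    calc T x ^ N ≤ A i * nsq (F i x) := (h i).2.1.lo x (hO hx) hG x ⟨hO hx, rfl, rfl⟩
      _ ≤ A i * (c * Real.exp (w x)) :=
        mul_le_mul_of_nonneg_left ((h i).2.2.2 x hx hz hG).2 (A0 i)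
      _ = c * A i * Real.exp (w x) := by ring
      _ ≤ _ := mul_le_mul_of_nonneg_right (h1 i) (Real.exp_pos _).le
  · intro K hK hKΩ
    obtain ⟨K', hc', hs, hu⟩ := hK.finite_compact_cover Finset.univ G (fun i _ => (h i).1)
      (fun y hy => by
        obtain ⟨i, hG⟩ := mem_iUnion.1 (hΩ (hKΩ hy))
        exact mem_iUnion₂.2 ⟨i, Finset.mem_univ i, hG⟩)
    have e1 := eventually_all.2 fun i => (h i).2.1.bd (K' i) (hc' i) (hs i)
    filter_upwards [e1, Ioc_mem_nhdsGT (zero_lt_one' ℝ)] with e he h01 x hx hz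
    have hz' := hz
    rw [hu] at hz'
    obtain ⟨i, -, hk⟩ := mem_iUnion₂.1 hz'
    have u0 : U e (z x) ≤ 0 := (hU.mono e 1 _ h01.1 h01.2).trans (WG.neg hU _)
    have a1 : Real.exp (w x + A i * U e (z x)) ≤ c * ∑ j, A j := by
      rw [Real.exp_add]
      calc Real.exp (w x) * Real.exp (A i * U e (z x))
          ≤ c * nsq (F i x) * Real.exp (A i * U e (z x)) :=
            mul_le_mul_of_nonneg_right ((h i).2.2.2 x hx (hKΩ hz) (hs i hk)).1 (Real.exp_pos _).le
        _ = c * (nsq (F i x) * Real.exp (A i * U e (z x))) := by ring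
        _ ≤ c * A i := mul_le_mul_of_nonneg_left (he i x (hO hx) hk) c0
        _ ≤ _ := h1 i
    have a2 := Real.add_one_le_exp (w x + A i * U e (z x))
    have a3 := mul_le_mul_of_nonpos_right (h2 i) u0
    linarith
  · rintro γ Q s hQ ⟨-, C, hC⟩
    choose B hB' using fun i => (h i).2.1.r2 γ Q s C hQ fun x hx => by
      rw [mul_assoc]; exact hC x hx
    refine ⟨c ^ Q * ∑ j, |B j|, fun x hx hz hγ a ha => ?_⟩
    obtain ⟨i, hG⟩ := hi x hz
    have a0 : a ≤ 0 := (ha 1 zero_lt_one).trans (WG.neg hU _)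
    have b1 : Real.exp (w x) ^ Q ≤ (c * nsq (F i x)) ^ Q :=
      pow_le_pow_left₀ (Real.exp_pos _).le ((h i).2.2.2 x hx hz hG).1 Q
    have b2 : Real.exp (s * (c * ∑ j, A j) * a) ≤ Real.exp (s * A i * a) :=
      Real.exp_le_exp.2 (mul_le_mul_of_nonpos_right
        (mul_le_mul_of_nonneg_left (h2 i) (Nat.cast_nonneg s)) a0)
    have b3 : B i ≤ ∑ j, |B j| := (le_abs_self _).trans
      (Finset.single_le_sum (f := fun j => |B j|) (fun j _ => abs_nonneg _) (Finset.mem_univ i))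
    calc normSq (γ x) * Real.exp (w x) ^ Q * Real.exp (s * (c * ∑ j, A j) * a)
        ≤ normSq (γ x) * (c * nsq (F i x)) ^ Q * Real.exp (s * A i * a) :=
          mul_le_mul (mul_le_mul_of_nonneg_left b1 (normSq_nonneg _)) b2 (Real.exp_pos _).le
            (mul_nonneg (normSq_nonneg _) (pow_nonneg (mul_nonneg c0 (nsq_nonneg _)) _))
      _ = c ^ Q * (normSq (γ x) * nsq (F i x) ^ Q * Real.exp (s * A i * a)) := by ring
      _ ≤ _ := mul_le_mul_of_nonneg_left ((hB' i x (hO hx) hG hγ a ha).trans b3) (pow_nonneg c0 Q)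
  · intro Z hZ
    filter_upwards [ae_all_iff.2 fun i => (h i).2.2.1 Z hZ] with x hx hxO hz a a0 ha
    obtain ⟨i, hG⟩ := hi x hz
    calc Real.exp (w x) ≤ c * nsq (F i x) := ((h i).2.2.2 x hxO hz hG).1
      _ ≤ c * (A i * a) := mul_le_mul_of_nonneg_left (hx i (hO hxO) hG a a0 ha) c0
      _ = c * A i * a := by ring
      _ ≤ _ := mul_le_mul_of_nonneg_right (h1 i) a0

end Pool.Agent.Lib.RBR
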