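import Pool.Agent.Lib.RBR.Blue

/-! Project rbr, row ZO: measures of every level. -/

open scoped Classical Topology ContDiff ComplexOrder Matrix ENNReal
open Set MeasureTheory Complex Metric Filter

set_option linter.unusedVariables false

noncomputable section

namespace Pool.Agent.Lib.RBR

open Pool.Agent.Lib.SV (E nsq)
open Pool.Agent.Lib.HS32
open Pool.Agent.Lib.KH (lden)

theorem rZO (hKIT : St_KIT) (hHQA : St_HQA) (hLDN : St_LDN) : St_ZO := by
  intro n k M _ H p σ z θ T m D C d κ ε φ hF hA j hj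
  obtain ⟨-, -, hT, hae, -, hC, -⟩ := hKIT n k M H p σ z θ T m D C hF
  have d1 : (1 : ℝ) ≤ d := Nat.one_le_cast.2 hA.d0
  have j1 : (1 : ℝ) ≤ j := Nat.one_le_cast.2 hj
  have y0 : (0 : ℝ) ≤ j - 1 / d := sub_nonneg.2 (((div_le_one (by linarith)).2 d1).trans j1)
  obtain ⟨m1, m2, ⟨c, c0, hc⟩, hi⟩ := hLDN n M H p σ T d κ ε φ ((j - 1 / d) * d) hF.kae.toMet hA hC.1
    hae (mul_nonneg y0 (Nat.cast_nonneg d))
  have hq := hHQA n M H p σ T d κ ε φ (O0 p σ) (j - 1 / d) (fun _ _ => 0) hF.kae hA hT hC Subset.rfl y0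
    (fun _ => ⟨fun _ _ _ _ _ => contDiffAt_const, fun e he w hw _ => by
      beta_reduce
      rw [show M.hs (fun _ => (0 : ℝ)) e w = 0 from hess_const _]
      exact Matrix.PosSemidef.zero⟩) fun _ _ _ => le_rfl
  refine ⟨fun x => ENNReal.ofReal (κ x) * lden (fun i x => (j - 1 / d) * d * φ i x) x,
    m1.ennreal_ofReal.mul m2, ?_, ?_, hi⟩
  · simp only [add_zero, add_sub_cancel, Real.rpow_natCast] at hq
    rwa [withDensity_congr_ae (g := fun x => ENNReal.ofReal (T x ^ j) *
      (ENNReal.ofReal (κ x) * lden (fun i x => (j - 1 / d) * d * φ i x) x)) (by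
        filter_upwards [ae_restrict_mem hC.1.measurableSet] with x hx
        rw [ENNReal.ofReal_mul (hA.k0 x hx).le, mul_comm (ENNReal.ofReal (κ x)), mul_assoc])] at hq
  · obtain ⟨s, c', hs⟩ := hA.lo
    refine ⟨s, ENNReal.ofReal (max c' 0 / c), ENNReal.ofReal_ne_top, ?_⟩
    filter_upwards [hae] with x hx
    have k0 := (hA.k0 x hx).le
    calc ENNReal.ofReal (p x ^ s) ≤ ENNReal.ofReal (max c' 0 / c * (κ x * c)) := by
          refine ENNReal.ofReal_le_ofReal ((hs x hx).trans ?_)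
          rw [mul_comm (κ x), ← mul_assoc, div_mul_cancel₀ _ c0.ne']
          exact mul_le_mul_of_nonneg_right (le_max_left _ _) k0
      _ = ENNReal.ofReal (max c' 0 / c) * (ENNReal.ofReal (κ x) * ENNReal.ofReal c) := by
          rw [ENNReal.ofReal_mul (div_nonneg (le_max_right _ _) c0.le), ENNReal.ofReal_mul k0]
      _ ≤ _ := mul_le_mul_right (mul_le_mul_right (hc x hx.1) _) _

end Pool.Agent.Lib.RBR
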