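import Pool.Agent.Lib.CY.All
import Pool.Agent.Lib.KQ.All
import Pool.Agent.Lib.RB9.All
import Pool.Agent.Lib.KH.All
import Pool.Agent.Lib.RBR.B_ALP
import Pool.Agent.Lib.RBR.B_CEL
import Pool.Agent.Lib.RBR.B_CHK
import Pool.Agent.Lib.RBR.B_CX
import Pool.Agent.Lib.RBR.B_DLB
import Pool.Agent.Lib.RBR.B_ENR
import Pool.Agent.Lib.RBR.B_FNV
import Pool.Agent.Lib.RBR.B_HOL
import Pool.Agent.Lib.RBR.B_HQA
import Pool.Agent.Lib.RBR.B_HQS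
import Pool.Agent.Lib.RBR.B_K0
import Pool.Agent.Lib.RBR.B_KIT
import Pool.Agent.Lib.RBR.B_LDN
import Pool.Agent.Lib.RBR.B_MB
import Pool.Agent.Lib.RBR.B_MD
import Pool.Agent.Lib.RBR.B_MHB
import Pool.Agent.Lib.RBR.B_MIN
import Pool.Agent.Lib.RBR.B_MR2
import Pool.Agent.Lib.RBR.B_MRK
import Pool.Agent.Lib.RBR.B_MSE
import Pool.Agent.Lib.RBR.B_MSR
import Pool.Agent.Lib.RBR.B_MW
import Pool.Agent.Lib.RBR.B_MZO
import Pool.Agent.Lib.RBR.B_NEG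
import Pool.Agent.Lib.RBR.B_PKR
import Pool.Agent.Lib.RBR.B_PML
import Pool.Agent.Lib.RBR.B_PRE
import Pool.Agent.Lib.RBR.B_R
import Pool.Agent.Lib.RBR.B_RO
import Pool.Agent.Lib.RBR.B_SKD
import Pool.Agent.Lib.RBR.B_TB0
import Pool.Agent.Lib.RBR.B_TUB
import Pool.Agent.Lib.RBR.B_WG
import Pool.Agent.Lib.RBR.B_ZO

/-! Project rbr: the theorems of the block. -/

namespace Pool.Agent.Lib.RBR

theorem aKIT : St_KIT := rKIT rNEG rPML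

theorem aCHK : St_CHK := rCHK FI.bCHR

theorem aHQA : St_HQA := rHQA KH.aKHM KH.bKIT

theorem aLDN : St_LDN := rLDN rHOL

theorem aZO : St_ZO := rZO aKIT aHQA aLDN

theorem aCX : St_CX := rCX FI.aVOL FI.bRAD FI.aBAS

theorem aTUB : St_TUB := rTUB aKIT rSKD

theorem aALP : St_ALP := rALP aKIT aCHK RB9.bCVX

theorem aPRE : St_PRE := rPRE aKIT (rCEL KQ.qKIT aCHK) rWG rFNV CY.aCY (RB9.aT9U FI.aUPS) RB9.aFAM
  RB9.aNUL FI.aGOO FI.aPOT KQ.aWT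

theorem aPKR : St_PKR := rPKR aKIT aCHK rMSR aTUB rHQS rDLB KQ.aPK

theorem aR : St_R := rR aCX aPRE aPKR (rRO aKIT aCHK rMSR aTUB aALP)
  (rK0 aKIT (rTB0 RB9.bDV1) RB9.bLGR) (rENR aKIT) aZO

theorem aMB : St_MB := rMB aKIT rMSR

theorem aMW : St_MW := rMW aKIT aMB

theorem aMSE : St_MSE := rMSE aKIT aMB

theorem aMRK : St_MRK := rMRK aKIT aMB

theorem aMD : St_MD := rMD aKIT aMB aMW aMSE (rMR2 aKIT aMB aMW aMSE)
  (rMHB aKIT aCHK aHQA aMB aMW KJ.bKIT) (rMIN rHOL aKIT aMB aMW)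
  (rMZO rHOL aKIT aHQA aLDN aMB aMW) aMRK

end Pool.Agent.Lib.RBR
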