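import Pool.Agent.Lib.RBR.Blue
import Pool.Agent.Lib.RB9.Hqs

/-! The theorem of Hörmander for all weights below `u`. -/

open scoped Classical Topology ContDiff ComplexOrder Matrix ENNReal
open Set MeasureTheory Complex Metric Filter

noncomputable section

namespace Pool.Agent.Lib.RBR

open Pool.Agent.Lib.SV (E nsq nsq_nonneg)
open Pool.Agent.Lib.HS32 Pool.Agent.Lib.RB9

theorem rHQS : St_HQS := by
  intro n k M _ H O ν z Ω U v c₁ S m m₁ C l c u W _ ub hl hc
  have h0 : ∀ (d : M.Ch) w, M.hs (fun _ => 0) d w = 0 := fun d w => hess_const _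
  refine aHQS n k M H O ν z Ω U v c₁ m m₁ l c S u C
    { W with
      m0 := ⟨W.m0.1, W.m0.2.1, le_rfl⟩
      lb := fun _ _ => neg_zero.le
      pos := fun _ _ _ _ _ => Matrix.PosSemidef.zero
      cur := fun K hK sK η hη => (W.cur K hK sK η hη).mono fun e he d hd w hw ho => by
        have := (he d hd w hw ho).add (W.pos d hd w hw ⟨ho.1, sK ho.2⟩)
        rw [sub_add_cancel] at this
        beta_reduce
        rw [Pi.zero_apply, Pi.zero_apply, sub_zero]
        exact this
      ub := fun K _ _ => mem_of_superset (Ioc_mem_nhdsGT one_pos)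
        fun e he x _ => by
          have := (W.up.mono _ _ (z x) he.1 he.2).trans ((W.up.up _).trans
            (neg_nonpos.2 (Real.log_nonneg (le_add_of_nonneg_right (nsq_nonneg _)))))
          rw [zero_add]
          exact mul_nonpos_of_nonneg_of_nonpos W.m0.2.1 this }
    W.pos (fun K hK sK η hη => (W.cur K hK sK η hη).mono fun e he d hd w hw ho => ?_) ub hl hc
  have := he d hd w hw ho
  beta_reduce at this
  rw [h0, zero_add] at this
  exact this

end Pool.Agent.Lib.RBR
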