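import Pool.Agent.Lib.RB9.Blue
import Pool.Agent.Lib.KQ.Blue
import Pool.Agent.Lib.KJ.Blue

/-! Project rbr: the frame, the reference metric and the model. Objects. -/

open scoped Classical Topology ContDiff ComplexOrder Matrix ENNReal
open Set MeasureTheory Complex Metric Filter

noncomputable section

namespace Pool.Agent.Lib.RBR

open Pool.Agent.Lib.SV (E nsq)
open Pool.Agent.Lib.HS32
open Pool.Agent.Lib.FI (Fb Jc dn)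
open Pool.Agent.Lib.KH (OnK SmK HoK HqB Pol Jo)
open Pool.Agent.Lib.RB9 (Pz ev Al Loc Up Fin')

variable {n k : ℕ} {M : Mf n}

/-- Level `j` and cost `s`. -/
def Bq (p T : M.X → ℝ) (j s : ℕ) (f : M.X → ℂ) : Prop := HoK M {x | 0 < p x} f ∧
  ∃ C, ∀ x, 0 < p x → normSq (f x) * (T x ^ j * p x ^ s) ≤ C

/-- A tame function. -/
def Tm (p : M.X → ℝ) (f : M.X → ℂ) : Prop := HoK M {x | 0 < p x} f ∧
  ∃ (s : ℕ) (C : ℝ), ∀ x, 0 < p x → normSq (f x) * p x ^ s ≤ C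

/-- Not zero on the open set. -/
def Nz (p : M.X → ℝ) (f : M.X → ℂ) : Prop := ∃ x, 0 < p x ∧ f x ≠ 0

/-- The norm of the tensor `f` times a power of the denominator. -/
def gp (p : M.X → ℝ) (f : M.X → ℂ) (s : ℕ) (x : M.X) : ℝ :=
  if 0 < p x then normSq (f x) * p x ^ s else 0

/-- The open set without the boundary. -/
def O0 (p σ : M.X → ℝ) : Set M.X := {x | 0 < p x ∧ σ x ≠ 0}

/-- The open set without the boundary and the zeros of `g`. -/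
def Oz (p σ : M.X → ℝ) (g : M.X → ℂ) : Set M.X := {x | 0 < p x ∧ σ x ≠ 0 ∧ g x ≠ 0}

/-- The frame: the open set `0 < p`, the equation `σ` of the boundary, the generators `z, θ` of the
field, the norm `T` of the meromorphic section. -/
structure Frm (H : M.Fam (Mat n)) (p σ : M.X → ℝ) (z : M.X → E k) (θ : M.X → ℂ) (T : M.X → ℝ)
    (m : Pz k) (D : MvPolynomial (Fin k) ℂ) (C : ℝ) : Prop where
  n0 : 0 < n
  kae : M.Kae H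
  pol : Pol M H p
  p1 : ∀ x, p x ≤ 1
  ne : ∃ x, 0 < p x
  ps : Pol M H σ
  sn : ∃ x, σ x ≠ 0
  fb : 0 < k → Fb H p z C ∧ Jc H p z p C
  dlo : ∃ (a : ℕ) (c : ℝ), ∀ x, 0 < p x → p x ^ a ≤ c * dn H z x
  al : Al p z θ T m D
  low : ∃ (a : ℕ) (c : ℝ), ∀ x, 0 < p x → p x ^ a ≤ c * T x
  tz : ∀ i, Tm p fun x => z x i
  tθ : Tm p θ
  ind : ∀ Q : MvPolynomial (Fin k) ℂ, Q ≠ 0 → Nz p fun x => MvPolynomial.eval (z x) Q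
  loc : ∀ x₀ : M.X, ∃ W₀ ∈ 𝓝 x₀, ∀ W B, IsOpen W → W ⊆ W₀ → IsCompact B → B ⊆ W →
    Nonempty (Loc p θ T W B)
  nz : ∀ g, Tm p g → ∃ s, Pol M H (gp p g s)
  rem : ∃ s₀ : ℕ, ∀ g, Tm p g → Nz p g → ∀ (j s : ℕ) (F : M.X → ℂ),
    HoK M (Oz p σ g) F → Jo M H (Oz p σ g) (fun x => normSq (F x) * (T x ^ j * p x ^ s)) ≠ ⊤ →
    ∃ F', Bq p T j (s₀ * (s + 1)) F' ∧ ∀ x ∈ Oz p σ g, F' x = F x
  fd : ∀ s : ℕ, KJ.Fd {F | Bq p T 0 s F ∧ ∀ x, ¬0 < p x → F x = 0}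
  fn : ∀ F, Tm p F → ∃ (Q : MvPolynomial (Fin k) ℂ) (R : Pz k), Q ≠ 0 ∧
    ∀ x, 0 < p x → MvPolynomial.eval (z x) Q * F x = ev R (z x) (θ x)

/-- The adjoint structure: `κ T ^ (1 / d)` is the density of the flat volume form, `φ i` are
potentials of the nef class with zero Lelong numbers. -/
structure Adj (H : M.Fam (Mat n)) (p σ T : M.X → ℝ) (d : ℕ) (κ : M.X → ℝ) (ε : ℕ → ℝ)
    (φ : ℕ → M.X → ℝ) : Prop where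
  d0 : 0 < d
  sT : SmK M {x | 0 < p x} fun x => Real.log (T x)
  k0 : ∀ x ∈ O0 p σ, 0 < κ x
  sk : SmK M (O0 p σ) fun x => Real.log (κ x)
  ric : OnK M (O0 p σ) fun e w => M.hs (fun x => Real.log (κ x)) e w +
    ((1 : ℝ) / d) • M.hs (fun x => Real.log (T x)) e w = M.ric H e w
  lo : ∃ (s : ℕ) (c : ℝ), ∀ x ∈ O0 p σ, p x ^ s ≤ c * κ x
  int : ∃ t > (1 : ℝ), Jo M H (O0 p σ) (fun x => κ x ^ t) ≠ ⊤
  e0 : ∀ i, 0 ≤ ε i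
  lim : Tendsto ε atTop (𝓝 0)
  sm : ∀ i, SmK M {x | 0 < p x} (φ i)
  pos : ∀ i, OnK M {x | 0 < p x} fun e w => (M.hs (φ i) e w -
    ((1 : ℝ) / d) • M.hs (fun x => Real.log (T x)) e w + ε i • H e w).PosSemidef
  mono : ∀ i x, 0 < p x → φ (i + 1) x ≤ φ i x
  up : ∃ c, ∀ x, 0 < p x → φ 0 x ≤ c
  mom : ∀ t : ℝ, 0 < t → ∃ c : ℝ, ∀ i,
    Jo M H {x | 0 < p x} (fun x => Real.exp (-(t * φ i x))) ≤ ENNReal.ofReal c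

/-- Measures of every level for which the theorem of Hörmander holds. -/
def Zo (H : M.Fam (Mat n)) (p σ T : M.X → ℝ) : Prop := ∀ j : ℕ, 0 < j → ∃ ϖ : M.X → ℝ≥0∞,
  AEMeasurable ϖ (M.mu H) ∧ HqB M (O0 p σ)
    (((M.mu H).restrict (O0 p σ)).withDensity fun x => ENNReal.ofReal (T x ^ j) * ϖ x) ∧
  (∃ (s : ℕ) (c : ℝ≥0∞), c ≠ ⊤ ∧ ∀ᵐ x ∂M.mu H, ENNReal.ofReal (p x ^ s) ≤ c * ϖ x) ∧
  ∃ t > (1 : ℝ), ∫⁻ x, ϖ x ^ t ∂M.mu H ≠ ⊤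

/-- The reference metric: `nsq b / nsq a` is the supremum of `T ^ N` on the fibres. -/
structure Ro (H : M.Fam (Mat n)) (p : M.X → ℝ) (z : M.X → E k) (θ : M.X → ℂ) (T : M.X → ℝ) (N : ℕ)
    (U : ℝ → E k → ℝ) (c₁ c : ℝ) {r₁ r₂ : ℕ} (a : Fin (r₁ + 1) → M.X → ℂ)
    (b : Fin (r₂ + 1) → M.X → ℂ) : Prop where
  N0 : 0 < N
  c0 : 0 ≤ c
  up : Up U c₁
  ta : ∀ i, Tm p (a i) ∧ Nz p (a i)
  tb : ∀ j, Tm p (b j) ∧ Nz p (b j)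
  fin : ∀ᵐ x ∂M.mu H, Fin' U (z x)
  mom : ∃ s > (0 : ℝ), ∃ A : ℝ, ∀ e ∈ Ioc (0 : ℝ) 1,
    Jo M H {x | 0 < p x} (fun x => Real.exp (-(s * U e (z x)))) ≤ ENNReal.ofReal A
  tub : ∀ y, Fin' U y → ∀ t > (0 : ℝ), ∃ ρ > (0 : ℝ), ∃ A : ℝ, ∀ e ∈ Ioc (0 : ℝ) 1,
    Jo M H {x | 0 < p x ∧ z x ∈ ball y ρ} (fun x => Real.exp (-(t * U e (z x)))) ≤ ENNReal.ofReal A
  r1 : ∀ x, 0 < p x → T x ^ N * nsq (a · x) ≤ c * nsq (b · x)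
  r2 : ∀ (γ : M.X → ℂ) (Q s : ℕ), 0 < Q → Bq p T (N * Q) s γ → ∃ A₁ : ℝ, ∀ᵐ x ∂M.mu H, ∀ A : ℝ,
    (∀ e, 0 < e → A ≤ U e (z x)) →
      normSq (γ x) * nsq (b · x) ^ Q * Real.exp (s * c * A) ≤ A₁ * nsq (a · x) ^ Q
  r3 : ∀ g : E k × ℂ → ℝ≥0∞, (∀ᵐ x ∂M.mu H, ENNReal.ofReal (T x) * g (z x, θ x) ≤ 1) →
    ∃ A : ℝ, ∀ᵐ x ∂M.mu H,
      g (z x, θ x) ^ N * ENNReal.ofReal (nsq (b · x)) ≤ ENNReal.ofReal (A * nsq (a · x))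

/-- The families see the generators of the field. -/
structure En (p : M.X → ℝ) (z : M.X → E k) (θ : M.X → ℂ) {r₁ r₂ : ℕ}
    (a : Fin (r₁ + 1) → M.X → ℂ) (b : Fin (r₂ + 1) → M.X → ℂ) : Prop where
  e1 : ∀ x, 0 < p x → (1 + nsq (z x)) * normSq (a 0 x * b 0 x) ≤ nsq (a · x) * nsq (b · x)
  e2 : ∀ x, 0 < p x → normSq (a 0 x * b 0 x) ^ 2 ≤ nsq (a · x) * nsq (b · x)
  e3 : ∀ i, ∃ i', ∀ x, 0 < p x → a i' x = z x i * a 0 x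
  e4 : ∃ i', ∃ c : ℂ, ∀ x, 0 < p x → a i' x = (θ x + c) * a 0 x

section model

variable {r r₁ r₂ : ℕ}

/-- The open set of the model. -/
def Os (p σ : M.X → ℝ) (a : Fin (r₁ + 1) → M.X → ℂ) (b : Fin (r₂ + 1) → M.X → ℂ) : Set M.X :=
  Oz p σ fun x => (∏ i, a i x) * ∏ j, b j x

/-- The ample family. -/
abbrev hh (ε : Fin r ≃ Fin (r₁ + 1) × Fin (r₂ + 1)) (a : Fin (r₁ + 1) → M.X → ℂ)
    (b : Fin (r₂ + 1) → M.X → ℂ) : Fin r → M.X → ℂ := fun β y => a (ε β).1 y * b (ε β).2 y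

/-- The family of the reference metric. -/
abbrev ww (ε : Fin r ≃ Fin (r₁ + 1) × Fin (r₂ + 1)) (a : Fin (r₁ + 1) → M.X → ℂ) :
    Fin r → M.X → ℂ := fun β y => a (ε β).1 y ^ 2

/-- The limit of the decreasing family. -/
def Ul (U : ℝ → E k → ℝ) (y : E k) : ℝ := ⨅ i : ℕ, U (1 / ((i : ℝ) + 1)) y

/-- The defect. -/
def Bm (z : M.X → E k) (U : ℝ → E k → ℝ) (c₁ l : ℝ) (J : ℕ) (h₀ : M.X → ℂ) (x : M.X) : ℝ :=
  Real.exp (l * (Ul U (z x) + c₁ * Real.log (1 + nsq (z x)))) * normSq (h₀ x) ^ (J + 2)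

/-- The flat measure on `O`. -/
def mf (H : M.Fam (Mat n)) (T κ : M.X → ℝ) (d : ℕ) (O : Set M.X) : Measure M.X :=
  ((M.mu H).restrict O).withDensity fun x => ENNReal.ofReal (κ x * T x ^ ((1 : ℝ) / d))

/-- The weight of the sections of level `j`. -/
def uu (T : M.X → ℝ) (d N j : ℕ) (x : M.X) : ℝ := T x ^ ((N : ℝ) * j - 1 / d)

end model

end Pool.Agent.Lib.RBR
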